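import Pool.Agent.H91.RF.TargetsK
import Pool.Agent.H29.TF.Heat

/-!
# MP_609556_an, part K: module CHN (iteration of a local gain inequality)
-/

open MeasureTheory Set Filter Topology Metric
open Pool.Agent.H29.TF (hk P hk_pos hk_nonneg measurable_hk_uncurry integrable_hk integral_hk
  integral_hk_sub integrable_hk_sub)
open Pool.Agent.H91.RD Pool.Agent.H91.RF

namespace Pool.Agent.H81.RF.CHN

/-! ### Exponential moments of the heat kernel -/

lemma hk_exp {N : ℕ} {τ : ℝ} (hτ : 0 < τ) {e : E N} (he : ‖e‖ = 1) (z : E N) :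
    hk τ z * Real.exp (inner ℝ z e) = Real.exp τ * hk τ (z - (2 * τ) • e) := by
  unfold hk
  have hn : ‖z - (2 * τ) • e‖ ^ 2 = ‖z‖ ^ 2 - (4 * τ) * inner ℝ z e + (2 * τ) ^ 2 := by
    rw [norm_sub_sq_real, inner_smul_right, norm_smul, he, mul_one, Real.norm_eq_abs, sq_abs]
    ring
  rw [hn, mul_assoc, ← Real.exp_add, mul_left_comm, ← Real.exp_add]
  congr 2
  field_simp
  ring

lemma hk_exp' {N : ℕ} {τ : ℝ} (hτ : 0 < τ) {e : E N} (he : ‖e‖ = 1) (x x0 y : E N) :
    hk τ (x - y) * Real.exp (inner ℝ (y - x0) e) =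
      Real.exp τ * Real.exp (inner ℝ (x - x0) e) * hk τ ((x + (2 * τ) • e) - y) := by
  have h := hk_exp hτ (e := -e) (by rw [norm_neg]; exact he) (x - y)
  have e1 : (inner ℝ (y - x0) e : ℝ) = inner ℝ (x - x0) e + inner ℝ (x - y) (-e) := by
    rw [inner_neg_right, inner_sub_left, inner_sub_left, inner_sub_left]
    ring
  have e2 : x - y - (2 * τ) • (-e) = (x + (2 * τ) • e) - y := by
    rw [smul_neg]
    abel
  rw [e2] at h
  rw [e1, Real.exp_add, mul_left_comm, h]
  ring

/-! ### The weight -/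

/-- The unit vectors `± e_i`. -/
noncomputable def wv {N : ℕ} (k : Fin N × Bool) : E N :=
  if k.2 then EuclideanSpace.single k.1 1 else -EuclideanSpace.single k.1 1

lemma norm_wv {N : ℕ} (k : Fin N × Bool) : ‖(wv k : E N)‖ = 1 := by
  unfold wv
  split_ifs <;> simp

/-- `∑ exp (± (x - x₀)_i)` -/
noncomputable def SE {N : ℕ} (x0 x : E N) : ℝ := ∑ k : Fin N × Bool, Real.exp (inner ℝ (x - x0) (wv k))

lemma continuous_SE {N : ℕ} (x0 : E N) : Continuous (SE x0) := by
  unfold SE
  fun_prop

lemma SE_self {N : ℕ} (x0 : E N) : SE x0 x0 = 2 * N := by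
  unfold SE
  simp [mul_comm]

lemma integrable_SE {N : ℕ} {τ : ℝ} (hτ : 0 < τ) (x0 x : E N) :
    Integrable (fun y => hk τ (x - y) * SE x0 y) := by
  unfold SE
  simp only [Finset.mul_sum]
  refine integrable_finsetSum _ fun k _ => ?_
  simp only [hk_exp' hτ (norm_wv k)]
  exact (integrable_hk_sub hτ _).const_mul _

lemma integral_SE {N : ℕ} {τ : ℝ} (hτ : 0 < τ) (x0 x : E N) :
    ∫ y, hk τ (x - y) * SE x0 y = Real.exp τ * SE x0 x := by
  unfold SE
  simp only [Finset.mul_sum]
  rw [integral_finsetSum]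
  · refine Finset.sum_congr rfl fun k _ => ?_
    simp only [hk_exp' hτ (norm_wv k)]
    rw [integral_const_mul, integral_hk_sub hτ, mul_one]
  · intro k _
    simp only [hk_exp' hτ (norm_wv k)]
    exact (integrable_hk_sub hτ _).const_mul _

lemma SE_ge {N : ℕ} (hN : 1 ≤ N) (x0 x : E N) : Real.exp (‖x - x0‖ / √N) ≤ SE x0 x := by
  set v := x - x0 with hv
  have hN' : (0 : ℝ) < N := by exact_mod_cast hN
  obtain ⟨i, hi⟩ : ∃ i : Fin N, ‖v‖ / √N ≤ |v i| := by
    by_contra hcon
    push Not at hcon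
    have h1 : ∀ i : Fin N, ‖v i‖ ^ 2 < ‖v‖ ^ 2 / N := by
      intro i
      have h2 : ‖v i‖ < ‖v‖ / √N := hcon i
      calc ‖v i‖ ^ 2 < (‖v‖ / √N) ^ 2 := pow_lt_pow_left₀ h2 (norm_nonneg _) two_ne_zero
        _ = ‖v‖ ^ 2 / N := by rw [div_pow, Real.sq_sqrt hN'.le]
    have h3 : ∑ i : Fin N, ‖v i‖ ^ 2 < ∑ _i : Fin N, ‖v‖ ^ 2 / N :=
      Finset.sum_lt_sum_of_nonempty ⟨⟨0, hN⟩, Finset.mem_univ _⟩ fun i _ => h1 i
    rw [← EuclideanSpace.norm_sq_eq, Finset.sum_const, Finset.card_univ, Fintype.card_fin,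
      nsmul_eq_mul, mul_div_cancel₀ _ hN'.ne'] at h3
    exact lt_irrefl _ h3
  obtain ⟨b, hb⟩ : ∃ b : Bool, ‖v‖ / √N ≤ inner ℝ v (wv (i, b)) := by
    rcases le_total 0 (v i) with h | h
    · refine ⟨true, ?_⟩
      rw [abs_of_nonneg h] at hi
      simpa [wv, EuclideanSpace.inner_single_right] using hi
    · refine ⟨false, ?_⟩
      rw [abs_of_nonpos h] at hi
      simpa [wv, EuclideanSpace.inner_single_right] using hi
  refine (Real.exp_le_exp.2 hb).trans ?_
  unfold SE
  exact Finset.single_le_sum (f := fun k : Fin N × Bool => Real.exp (inner ℝ (x - x0) (wv k)))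
    (fun k _ => (Real.exp_pos _).le) (Finset.mem_univ (i, b))

lemma SE_lin {N : ℕ} (hN : 1 ≤ N) (x0 x : E N) : 1 + ‖x - x0‖ ≤ √N * SE x0 x := by
  have hN' : (1 : ℝ) ≤ N := by exact_mod_cast hN
  have hs : 1 ≤ √(N : ℝ) := Real.one_le_sqrt.2 hN'
  have h1 := SE_ge hN x0 x
  have h2 := Real.add_one_le_exp (‖x - x0‖ / √N)
  have h3 : √N * (‖x - x0‖ / √N + 1) ≤ √N * SE x0 x :=
    mul_le_mul_of_nonneg_left (h2.trans h1) (by positivity)
  have h4 : √N * (‖x - x0‖ / √N + 1) = ‖x - x0‖ + √N := by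
    field_simp
  linarith

lemma SE_pos {N : ℕ} (hN : 1 ≤ N) (x0 x : E N) : 0 < SE x0 x :=
  (Real.exp_pos _).trans_le (SE_ge hN x0 x)

/-! ### Kernel facts -/

section kernel

variable {N : ℕ} {K : ℝ} {V : ℝ → E N → ℝ}

lemma gk_nonneg (hKER : T_KER) (hV : Pt K V) {s t : ℝ} (hst : s < t) (x y : E N) :
    0 ≤ gk V t x s y :=
  (mul_nonneg (Real.exp_nonneg _) (hk_nonneg (by linarith) _)).trans
    ((hKER N K V hV).2.1 s t hst x y).1

lemma gk_le (hKER : T_KER) (hV : Pt K V) {s t : ℝ} (hst : s < t) (x y : E N) :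
    gk V t x s y ≤ Real.exp (K * (t - s)) * hk (t - s) (x - y) :=
  ((hKER N K V hV).2.1 s t hst x y).2

lemma gk_meas (hKER : T_KER) (hV : Pt K V) {s t : ℝ} (hst : s < t) :
    Measurable (fun p : E N × E N => gk V t p.1 s p.2) := (hKER N K V hV).1 s t hst

lemma gk_meas' (hKER : T_KER) (hV : Pt K V) {s t : ℝ} (hst : s < t) (x : E N) :
    Measurable (fun y => gk V t x s y) :=
  (gk_meas hKER hV hst).comp (measurable_const.prodMk measurable_id)

/-- Domination of an integral against the kernel. -/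
lemma gk_int_of_le (hKER : T_KER) (hV : Pt K V) {s t : ℝ} (hst : s < t) (x : E N)
    {F H : E N → ℝ} (hF : Measurable F) (hH : ∀ y, |F y| ≤ H y)
    (hi : Integrable (fun y => hk (t - s) (x - y) * H y)) :
    Integrable (fun y => gk V t x s y * F y) := by
  refine (hi.const_mul (Real.exp (K * (t - s)))).mono'
    ((gk_meas' hKER hV hst x).mul hF).aestronglyMeasurable (Eventually.of_forall fun y => ?_)
  rw [Real.norm_eq_abs, abs_mul, abs_of_nonneg (gk_nonneg hKER hV hst x y), ← mul_assoc]
  exact mul_le_mul (gk_le hKER hV hst x y) (hH y) (abs_nonneg _)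
    (mul_nonneg (Real.exp_nonneg _) (hk_nonneg (by linarith) _))

lemma gk_int (hKER : T_KER) (hV : Pt K V) {s t : ℝ} (hst : s < t) (x : E N) :
    Integrable (fun y => gk V t x s y) := by
  have h := gk_int_of_le hKER hV hst x (F := fun _ => 1) (H := fun _ => 1) measurable_const
    (by simp) (by simpa using integrable_hk_sub (by linarith) x)
  simpa using h

lemma gk_int_mul (hKER : T_KER) (hV : Pt K V) {s t : ℝ} (hst : s < t) (x : E N)
    {F : E N → ℝ} (hF : Measurable F) {C : ℝ} (hC : ∀ y, |F y| ≤ C) :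
    Integrable (fun y => gk V t x s y * F y) :=
  gk_int_of_le hKER hV hst x hF hC ((integrable_hk_sub (by linarith) x).mul_const C)

lemma gk_integral_le (hKER : T_KER) (hV : Pt K V) {s t : ℝ} (hst : s < t) (x : E N) :
    ∫ y, gk V t x s y ≤ Real.exp (K * (t - s)) := by
  calc ∫ y, gk V t x s y ≤ ∫ y, Real.exp (K * (t - s)) * hk (t - s) (x - y) :=
        integral_mono (gk_int hKER hV hst x) ((integrable_hk_sub (by linarith) x).const_mul _)
          fun y => gk_le hKER hV hst x y
    _ = Real.exp (K * (t - s)) := by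
        rw [integral_const_mul, integral_hk_sub (by linarith), mul_one]

lemma gk_integral_mul_le (hKER : T_KER) (hV : Pt K V) {s t : ℝ} (hst : s < t) (x : E N)
    {F : E N → ℝ} (hF : Measurable F) {C : ℝ} (hC : ∀ y, |F y| ≤ C) :
    ∫ y, gk V t x s y * F y ≤ Real.exp (K * (t - s)) * C := by
  have hC0 : 0 ≤ C := (abs_nonneg _).trans (hC 0)
  calc ∫ y, gk V t x s y * F y ≤ ∫ y, gk V t x s y * C :=
        integral_mono (gk_int_mul hKER hV hst x hF hC) ((gk_int hKER hV hst x).mul_const C)
          fun y => mul_le_mul_of_nonneg_left ((le_abs_self _).trans (hC y))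
            (gk_nonneg hKER hV hst x y)
    _ = (∫ y, gk V t x s y) * C := integral_mul_const _ _
    _ ≤ _ := mul_le_mul_of_nonneg_right (gk_integral_le hKER hV hst x) hC0

/-- Chapman-Kolmogorov with a bounded function. -/
lemma gk_ck (hKER : T_KER) (hV : Pt K V) {s r t : ℝ} (hsr : s < r) (hrt : r < t) (x : E N)
    {F : E N → ℝ} (hF : Measurable F) {C : ℝ} (hC : ∀ y, |F y| ≤ C) :
    ∫ y, gk V t x r y * ∫ z, gk V r y s z * F z = ∫ z, gk V t x s z * F z := by
  have hm : Measurable (fun p : E N × E N => gk V t x r p.1 * (gk V r p.1 s p.2 * F p.2)) :=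
    ((gk_meas' hKER hV hrt x).comp measurable_fst).mul
      ((gk_meas hKER hV hsr).mul (hF.comp measurable_snd))
  have hC0 : 0 ≤ C := (abs_nonneg _).trans (hC 0)
  have hi : Integrable (fun p : E N × E N => gk V t x r p.1 * (gk V r p.1 s p.2 * F p.2))
      (volume.prod volume) := by
    rw [integrable_prod_iff hm.aestronglyMeasurable]
    refine ⟨Eventually.of_forall fun y =>
      (gk_int_mul hKER hV hsr y hF hC).const_mul (gk V t x r y), ?_⟩
    refine ((gk_int hKER hV hrt x).mul_const (Real.exp (K * (r - s)) * C)).mono'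
      (hm.norm.stronglyMeasurable.integral_prod_right (ν := volume)).aestronglyMeasurable
      (Eventually.of_forall fun y => ?_)
    simp only
    rw [Real.norm_of_nonneg (integral_nonneg fun z => norm_nonneg _)]
    have h0 := gk_nonneg hKER hV hrt x y
    have e : (fun z => ‖gk V t x r y * (gk V r y s z * F z)‖) =
        fun z => gk V t x r y * (gk V r y s z * |F z|) := by
      funext z
      rw [Real.norm_eq_abs, abs_mul, abs_mul, abs_of_nonneg h0,
        abs_of_nonneg (gk_nonneg hKER hV hsr y z)]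
    rw [e, integral_const_mul]
    exact mul_le_mul_of_nonneg_left (gk_integral_mul_le hKER hV hsr y hF.abs
      (fun z => by rw [abs_abs]; exact hC z)) h0
  calc ∫ y, gk V t x r y * ∫ z, gk V r y s z * F z
      = ∫ y, ∫ z, gk V t x r y * (gk V r y s z * F z) := by
        refine integral_congr_ae (Eventually.of_forall fun y => ?_)
        exact (integral_const_mul _ _).symm
    _ = ∫ z, ∫ y, gk V t x r y * (gk V r y s z * F z) := integral_integral_swap hi
    _ = ∫ z, gk V t x s z * F z := by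
        refine integral_congr_ae (Eventually.of_forall fun z => ?_)
        simp only
        rw [← (hKER N K V hV).2.2 s r t hsr hrt x z, ← integral_mul_const]
        refine integral_congr_ae (Eventually.of_forall fun y => ?_)
        simp only
        ring

end kernel

/-! ### Elementary inequalities -/

lemma mul_log_le {η Mb : ℝ} (h0 : 0 ≤ η) (h1 : η ≤ Mb) (hM : 1 ≤ Mb) :
    η * Real.log η ≤ Mb * Real.log Mb := by
  have hlog : 0 ≤ Real.log Mb := Real.log_nonneg hM
  rcases h0.eq_or_lt with rfl | h0'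
  · rw [zero_mul]
    exact mul_nonneg (by linarith) hlog
  · calc η * Real.log η ≤ η * Real.log Mb :=
          mul_le_mul_of_nonneg_left (Real.log_le_log h0' h1) h0
      _ ≤ Mb * Real.log Mb := mul_le_mul_of_nonneg_right h1 hlog

lemma abs_mul_log_le {η Mb : ℝ} (h0 : 0 ≤ η) (h1 : η ≤ Mb) (hM : 1 ≤ Mb) :
    |η * Real.log η| ≤ 1 + Mb * Real.log Mb := by
  have hlog : 0 ≤ Mb * Real.log Mb := mul_nonneg (by linarith) (Real.log_nonneg hM)
  rcases h0.eq_or_lt with rfl | h0'
  · rw [zero_mul, abs_zero]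
    linarith
  · rcases le_total η 1 with h | h
    · have := Real.abs_log_mul_self_lt η h0' h
      rw [mul_comm]
      linarith
    · rw [abs_of_nonneg (mul_nonneg h0 (Real.log_nonneg h))]
      linarith [mul_log_le h0 h1 hM]

lemma aux2 {a b : ℝ} (ha : 0 ≤ a) (hb : 0 ≤ b) : a + b ≤ (1 + b) * (1 + a) := by
  nlinarith [mul_nonneg ha hb]

lemma aux3 {a b c : ℝ} (ha : 0 ≤ a) (hb : 0 ≤ b) (hc : 0 ≤ c) :
    a + b + c ≤ (a + 1 + c) * (1 + b) := by
  nlinarith [mul_nonneg ha hb, mul_nonneg hc hb]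

lemma aux4 (m M β Q r : ℝ) :
    (1 + m + M * (β * Q)) * (1 + r) = (1 + m) * (1 + r) + M * (β * (Q * (1 + r))) := by
  ring

lemma aux5 {a b ρ : ℝ} (ha : 0 ≤ a) (hb : 0 ≤ b) (hρ : 0 ≤ ρ) :
    a + b * ρ ≤ (a + b) * (1 + ρ) := by
  nlinarith [mul_nonneg ha hρ]

lemma lin_le_exp {n C ρ : ℝ} (hn : 1 ≤ n) (hC : 0 ≤ C) (hρ1 : 1 ≤ ρ) (hρ : 16 * n * C ≤ ρ) :
    C * (1 + ρ) ≤ Real.exp (ρ / (2 * √n)) := by
  have _ := hC
  have hs : 0 < √n := Real.sqrt_pos.2 (by linarith)
  have h1 := Real.quadratic_le_exp_of_nonneg (x := ρ / (2 * √n)) (by positivity)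
  have h2 : (ρ / (2 * √n)) ^ 2 / 2 = ρ ^ 2 / (8 * n) := by
    rw [div_pow, mul_pow, Real.sq_sqrt (by linarith)]
    field_simp
    norm_num
  have h3 : C * (1 + ρ) ≤ ρ ^ 2 / (8 * n) := by
    rw [le_div_iff₀ (by linarith)]
    nlinarith [mul_nonneg hC (by linarith : (0 : ℝ) ≤ n), mul_nonneg
      (mul_nonneg hC (by linarith : (0 : ℝ) ≤ n)) (by linarith : (0 : ℝ) ≤ ρ - 1)]
  have h4 : 0 ≤ ρ / (2 * √n) := by positivity
  linarith

/-! ### The theorem -/

theorem chn (hITER : T_ITER) (hKER : T_KER) : T_CHN := by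
  intro N K β cc hN hK hβ hcc
  have hN' : (1 : ℝ) ≤ N := by exact_mod_cast hN
  have hsN : 1 ≤ √(N : ℝ) := Real.one_le_sqrt.2 hN'
  set L : ℝ := 2 * √N * (K + 4) + 1 with hL
  have hL1 : 1 ≤ L := by rw [hL]; nlinarith
  have hL0 : 0 < L := by linarith
  refine ⟨L, hL1, ?_⟩
  intro δ S g κ Mb Cl hδ hδ1 hS hg hκ hMb hCl
  have hlogMb : 0 ≤ Mb * Real.log Mb := mul_nonneg (by linarith) (Real.log_nonneg hMb)
  set C2 : ℝ := Mb * Real.log Mb + Mb * (β * (1 / δ + 1 + cc) + g) with hC2
  have hC20 : 0 ≤ C2 := by rw [hC2]; positivity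
  set T : ℝ := 1 + 1 / δ + 16 * N * C2 / δ + 2 * N / δ + 12 * κ * δ ^ 2 / S with hT
  have hT0 : 0 < T := by rw [hT]; positivity
  refine ⟨T, hT0, ?_⟩
  intro t ht n V h D x0 e A d0 B1 B2 PA hn hnS he hV hA hd0 hB1 hB2 hmeas hlow hsub hD hgain hx0
    hterm hW
  have ht0 : 0 < t := hT0.trans_le ht
  have ht1 : 1 / δ ≤ t := by
    refine le_trans ?_ ht
    rw [hT]
    have : 0 ≤ 16 * N * C2 / δ + 2 * N / δ + 12 * κ * δ ^ 2 / S := by positivity
    linarith
  have ht2 : 16 * N * C2 / δ ≤ t := by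
    refine le_trans ?_ ht
    rw [hT]
    have : 0 ≤ 1 / δ + 2 * N / δ + 12 * κ * δ ^ 2 / S := by positivity
    linarith
  have ht3 : 2 * N / δ ≤ t := by
    refine le_trans ?_ ht
    rw [hT]
    have : 0 ≤ 1 / δ + 16 * N * C2 / δ + 12 * κ * δ ^ 2 / S := by positivity
    linarith
  have ht4 : 12 * κ * δ ^ 2 / S ≤ t := by
    refine le_trans ?_ ht
    rw [hT]
    have : 0 ≤ 1 / δ + 16 * N * C2 / δ + 2 * N / δ := by positivity
    linarith
  have hn' : (1 : ℝ) ≤ n := by exact_mod_cast hn
  have hδt : 1 ≤ δ * t := by rw [div_le_iff₀ hδ] at ht1; linarith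
  -- times
  have hcast : ∀ j : ℕ, t - ((j + 1 : ℕ) : ℝ) * S = t - j * S - S := by
    intro j
    push_cast
    ring
  have htime : ∀ j ≤ n, t - (j : ℝ) * S ∈ Icc (t - δ * t) t := by
    intro j hj
    have h1 : (j : ℝ) * S ≤ n * S := mul_le_mul_of_nonneg_right (by exact_mod_cast hj) hS.le
    have h2 : 0 ≤ (j : ℝ) * S := by positivity
    exact ⟨by linarith, by linarith⟩
  have hlt : ∀ j : ℕ, t - (j : ℝ) * S - S < t - j * S := fun j => by linarith
  have hdt : ∀ j : ℕ, t - (j : ℝ) * S - (t - j * S - S) = S := fun j => by ring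
  -- the data of the iteration lemma
  set h' : ℕ → E N → ℝ := fun j => if j ≤ n then h (t - j * S) else fun _ => 0 with hh'
  set D' : ℕ → E N → ℝ := fun j => if j ≤ n then D (t - j * S) else fun _ => 0 with hD'
  set Fn : E N → ℝ := A.indicator (h (t - n * S)) with hFn
  set W' : ℕ → E N → ℝ := fun j x => if j < n then ∫ y, gk V (t - j * S) x (t - n * S) y * Fn y
    else if j = n then Fn x else 0 with hW'
  set Φ : ℕ → E N → ℝ := fun j x => Real.log (h' j x) +
    β * (d0 + inner ℝ (x - x0) e - cc * (t - j * S)) with hΦ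
  set ex : ℕ → ℝ := fun j => Real.exp ((K + 1) * (n - j) * S - L * δ * t / (2 * √N)) with hex
  set Sb : ℕ → E N → ℝ := fun j x => ex j * SE x0 x with hSb
  have hhj : ∀ j ≤ n, h' j = h (t - j * S) := fun j hj => by simp only [hh', if_pos hj]
  have hDj : ∀ j ≤ n, D' j = D (t - j * S) := fun j hj => by simp only [hD', if_pos hj]
  have hhm : ∀ j, Measurable (h' j) := by
    intro j
    by_cases hj : j ≤ n
    · rw [hhj j hj]; exact (hmeas _ (htime j hj)).1
    · simp only [hh', if_neg hj]; exact measurable_const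
  have hDm : ∀ j, Measurable (D' j) := by
    intro j
    by_cases hj : j ≤ n
    · rw [hDj j hj]; exact (hmeas _ (htime j hj)).2.1
    · simp only [hD', if_neg hj]; exact measurable_const
  have hh0 : ∀ j x, 0 ≤ h' j x ∧ h' j x ≤ Mb := by
    intro j x
    by_cases hj : j ≤ n
    · rw [hhj j hj]
      exact ⟨((hmeas _ (htime j hj)).2.2 x).1, ((hmeas _ (htime j hj)).2.2 x).2.1⟩
    · simp only [hh', if_neg hj]; exact ⟨le_rfl, by linarith⟩
  have hD0 : ∀ j x, 0 ≤ D' j x ∧ D' j x ≤ Mb := by
    intro j x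
    by_cases hj : j ≤ n
    · rw [hDj j hj]
      exact ⟨((hmeas _ (htime j hj)).2.2 x).2.2.1, ((hmeas _ (htime j hj)).2.2 x).2.2.2⟩
    · simp only [hD', if_neg hj]; exact ⟨le_rfl, by linarith⟩
  have hFm : Measurable Fn := ((hmeas _ (htime n le_rfl)).1).indicator hA
  have hF0 : ∀ x, 0 ≤ Fn x ∧ Fn x ≤ Mb := by
    intro x
    by_cases hx : x ∈ A
    · rw [hFn, indicator_of_mem hx]
      exact ⟨((hmeas _ (htime n le_rfl)).2.2 x).1, ((hmeas _ (htime n le_rfl)).2.2 x).2.1⟩
    · rw [hFn, indicator_of_notMem hx]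
      exact ⟨le_rfl, by linarith⟩
  have hFabs : ∀ x, |Fn x| ≤ Mb := fun x => by rw [abs_of_nonneg (hF0 x).1]; exact (hF0 x).2
  have hjn : ∀ j < n, t - (n : ℝ) * S < t - j * S := by
    intro j hj
    have : (j : ℝ) * S < n * S := mul_lt_mul_of_pos_right (by exact_mod_cast hj) hS
    linarith
  have hWm : ∀ j, Measurable (W' j) := by
    intro j
    by_cases hj : j < n
    · simp only [hW', if_pos hj]
      have hm : Measurable (fun p : E N × E N => gk V (t - j * S) p.1 (t - n * S) p.2 * Fn p.2) :=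
        (gk_meas hKER hV (hjn j hj)).mul (hFm.comp measurable_snd)
      exact (hm.stronglyMeasurable.integral_prod_right (ν := volume)).measurable
    · by_cases hj2 : j = n
      · simp only [hW', if_neg hj, if_pos hj2]; exact hFm
      · simp only [hW', if_neg hj, if_neg hj2]; exact measurable_const
  have hWb : ∀ j x, 0 ≤ W' j x ∧ W' j x ≤ Real.exp (K * (n * S)) * Mb := by
    intro j x
    have hMbe : Mb ≤ Real.exp (K * (n * S)) * Mb := by
      exact le_mul_of_one_le_left (by linarith) (Real.one_le_exp (by positivity))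
    by_cases hj : j < n
    · simp only [hW', if_pos hj]
      refine ⟨integral_nonneg fun y => mul_nonneg (gk_nonneg hKER hV (hjn j hj) x y) (hF0 y).1, ?_⟩
      refine (gk_integral_mul_le hKER hV (hjn j hj) x hFm hFabs).trans ?_
      refine mul_le_mul_of_nonneg_right (Real.exp_le_exp.2 ?_) (by linarith)
      refine mul_le_mul_of_nonneg_left ?_ hK.le
      have : 0 ≤ (j : ℝ) * S := by positivity
      linarith
    · by_cases hj2 : j = n
      · simp only [hW', if_neg hj, if_pos hj2]; exact ⟨(hF0 x).1, (hF0 x).2.trans hMbe⟩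
      · simp only [hW', if_neg hj, if_neg hj2]; exact ⟨le_rfl, by positivity⟩
  have hΦm : ∀ j, Measurable (Φ j) := by
    intro j
    refine (Real.measurable_log.comp (hhm j)).add ?_
    have : Continuous fun x : E N => β * (d0 + inner ℝ (x - x0) e - cc * (t - j * S)) := by fun_prop
    exact this.measurable
  have hexp : ∀ j, 0 < ex j := fun j => Real.exp_pos _
  have hSEp : ∀ x, 0 < SE x0 x := fun x => SE_pos hN x0 x
  have hinner : ∀ y : E N, |inner ℝ (y - x0) e| ≤ ‖y - x0‖ := fun y => by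
    have := abs_real_inner_le_norm (y - x0) e
    rwa [he, mul_one] at this
  -- integrability of functions of at most linear growth
  have hlinint : ∀ (j : ℕ) (x : E N) (F : E N → ℝ) (C : ℝ), Measurable F → 0 ≤ C →
      (∀ y, |F y| ≤ C * (1 + ‖y - x0‖)) →
      Integrable (fun y => gk V (t - j * S) x (t - j * S - S) y * F y) := by
    intro j x F C hF hC hb
    refine gk_int_of_le hKER hV (hlt j) x hF (H := fun y => C * √N * SE x0 y) (fun y => ?_) ?_
    · refine (hb y).trans ?_
      rw [mul_assoc]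
      exact mul_le_mul_of_nonneg_left (SE_lin hN x0 y) hC
    · rw [hdt j]
      have := (integrable_SE hS x0 x).const_mul (C * √N)
      refine this.congr (Eventually.of_forall fun y => ?_)
      simp only
      ring
  have hSEint : ∀ (j : ℕ) (x : E N),
      Integrable (fun y => gk V (t - j * S) x (t - j * S - S) y * SE x0 y) := by
    intro j x
    refine gk_int_of_le hKER hV (hlt j) x (continuous_SE x0).measurable (H := SE x0)
      (fun y => by rw [abs_of_nonneg (hSEp y).le]) ?_
    rw [hdt j]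
    exact integrable_SE hS x0 x
  have hbint : ∀ (j : ℕ) (x : E N) (F : E N → ℝ) (C : ℝ), Measurable F → (∀ y, |F y| ≤ C) →
      Integrable (fun y => gk V (t - j * S) x (t - j * S - S) y * F y) := fun j x F C hF hb =>
    gk_int_mul hKER hV (hlt j) x hF hb
  have habs_h : ∀ j y, |h' j y| ≤ Mb := fun j y => by
    rw [abs_of_nonneg (hh0 j y).1]; exact (hh0 j y).2
  have hhlog : ∀ j y, |h' j y * Real.log (h' j y)| ≤ 1 + Mb * Real.log Mb := fun j y =>
    abs_mul_log_le (hh0 j y).1 (hh0 j y).2 hMb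
  have hhlogm : ∀ j, Measurable (fun y => h' j y * Real.log (h' j y)) := fun j =>
    (hhm j).mul (Real.measurable_log.comp (hhm j))
  have hhpos : ∀ j ≤ n, ∀ x ∈ closedBall x0 (L * δ * t), 0 < h' j x := by
    intro j hj x hx
    rw [hhj j hj]
    exact (Real.exp_pos _).trans_le (hlow j hj x hx)
  have key := hITER N n (fun j x y => gk V (t - j * S) x (t - j * S - S) y) h' D' Sb Φ W'
    (closedBall x0 (L * δ * t)) A (g * S) (κ * S) (Real.exp (-t)) B1 B2
    (max Mb (Real.exp (K * S))) x0 isClosed_closedBall.measurableSet hA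
    (fun j => gk_meas hKER hV (hlt j)) (fun j x y => gk_nonneg hKER hV (hlt j) x y) ?_ ?_ ?_
    (by positivity) (by positivity) (Real.exp_nonneg _) hB1 hB2 ?_ hhpos ?_ ?_ ?_ ?_ ?_ ?_ ?_ ?_
    (mem_closedBall_self (by positivity))
  rotate_left
  · -- total mass of the kernel
    intro j x
    refine ⟨gk_int hKER hV (hlt j) x, ?_⟩
    refine (gk_integral_le hKER hV (hlt j) x).trans ?_
    rw [hdt j]
    exact le_max_right _ _
  · intro j
    exact ⟨hhm j, hDm j, (continuous_const.mul (continuous_SE x0)).measurable, hΦm j, hWm j⟩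
  · intro j x
    exact ⟨(hh0 j x).1, (hh0 j x).2.trans (le_max_left _ _), (hD0 j x).1,
      mul_nonneg (hexp j).le (hSEp x).le, (hWb j x).1⟩
  · -- integrability
    intro j hj x _
    refine ⟨hbint j x _ Mb (hDm _) fun y => by
        rw [abs_of_nonneg (hD0 _ y).1]; exact (hD0 _ y).2, ?_, ?_, ?_⟩
    · refine ((hSEint j x).const_mul (ex (j + 1))).congr (Eventually.of_forall fun y => ?_)
      simp only [hSb]
      ring
    · exact hbint j x _ (Real.exp (K * (n * S)) * Mb) (hWm _) fun y => by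
        rw [abs_of_nonneg (hWb _ y).1]; exact (hWb _ y).2
    · refine hlinint j x (fun y => h' (j + 1) y * Φ (j + 1) y)
        (1 + Mb * Real.log Mb + Mb * (β * (|d0| + 1 + |cc * (t - ((j + 1 : ℕ) : ℝ) * S)|)))
        ((hhm _).mul (hΦm _)) (by positivity) fun y => ?_
      have e1 : h' (j + 1) y * Φ (j + 1) y = h' (j + 1) y * Real.log (h' (j + 1) y) +
          h' (j + 1) y * (β * (d0 + inner ℝ (y - x0) e - cc * (t - ((j + 1 : ℕ) : ℝ) * S))) := by
        simp only [hΦ]
        ring
      rw [e1]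
      refine (abs_add_le _ _).trans ?_
      have hy := norm_nonneg (y - x0)
      have b1 := hhlog (j + 1) y
      have b2 : |h' (j + 1) y * (β * (d0 + inner ℝ (y - x0) e -
          cc * (t - ((j + 1 : ℕ) : ℝ) * S)))| ≤
          Mb * (β * (|d0| + ‖y - x0‖ + |cc * (t - ((j + 1 : ℕ) : ℝ) * S)|)) := by
        rw [abs_mul, abs_mul, abs_of_nonneg hβ]
        refine mul_le_mul (habs_h _ y) (mul_le_mul_of_nonneg_left ?_ hβ)
          (mul_nonneg hβ (abs_nonneg _)) (by linarith)
        refine (abs_sub _ _).trans (add_le_add ((abs_add_le _ _).trans ?_) le_rfl)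
        exact add_le_add le_rfl (hinner y)
      have b3 : |d0| + ‖y - x0‖ + |cc * (t - ((j + 1 : ℕ) : ℝ) * S)| ≤
          (|d0| + 1 + |cc * (t - ((j + 1 : ℕ) : ℝ) * S)|) * (1 + ‖y - x0‖) := by
        exact aux3 (abs_nonneg _) hy (abs_nonneg _)
      have b4 := mul_le_mul_of_nonneg_left (mul_le_mul_of_nonneg_left b3 hβ)
        (by linarith : (0 : ℝ) ≤ Mb)
      have b5 : 1 + Mb * Real.log Mb ≤ (1 + Mb * Real.log Mb) * (1 + ‖y - x0‖) := by
        exact le_mul_of_one_le_right (by linarith) (by linarith)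
      rw [aux4]
      linarith
  · -- the supersolution
    intro j hj x hx
    rw [hhj j hj.le, hhj (j + 1) hj, hcast j]
    exact hsub j hj x hx
  · intro j hj x hx
    rw [hhj j hj.le, hDj j hj.le, hDj (j + 1) hj, hcast j]
    exact hD j hj x hx
  · -- the weight at infinity
    intro j hj x _
    have e1 : ∫ y, gk V (t - j * S) x (t - j * S - S) y * Sb (j + 1) y =
        ex (j + 1) * ∫ y, gk V (t - j * S) x (t - j * S - S) y * SE x0 y := by
      rw [← integral_const_mul]
      refine integral_congr_ae (Eventually.of_forall fun y => ?_)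
      simp only [hSb]
      ring
    have e2 : ∫ y, gk V (t - j * S) x (t - j * S - S) y * SE x0 y ≤
        Real.exp (K * S) * (Real.exp S * SE x0 x) := by
      rw [← integral_SE hS x0 x, ← integral_const_mul]
      refine integral_mono (hSEint j x) ((integrable_SE hS x0 x).const_mul _) fun y => ?_
      have := gk_le hKER hV (hlt j) x y
      rw [hdt j] at this
      simp only
      rw [← mul_assoc]
      exact mul_le_mul_of_nonneg_right this (hSEp y).le
    rw [e1]
    refine (mul_le_mul_of_nonneg_left e2 (hexp _).le).trans (le_of_eq ?_)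
    simp only [hSb, hex]
    rw [← mul_assoc, ← mul_assoc, ← Real.exp_add, ← Real.exp_add]
    congr 2
    push_cast
    ring
  · -- the last set
    intro j hj x _
    rcases Nat.lt_or_ge (j + 1) n with h1 | h1
    · have e1 := gk_ck hKER hV (hjn (j + 1) h1) (by rw [hcast j]; exact hlt j :
        t - ((j + 1 : ℕ) : ℝ) * S < t - j * S) x hFm hFabs
      rw [hcast j] at e1
      have e2 : W' j x = ∫ y, gk V (t - j * S) x (t - n * S) y * Fn y := by
        simp only [hW', if_pos hj]
      have e3 : W' (j + 1) = fun y => ∫ z, gk V (t - j * S - S) y (t - n * S) z * Fn z := by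
        funext y
        simp only [hW', if_pos h1]
        rw [hcast j]
      rw [e2, e3, ← e1]
    · have hj1 : j + 1 = n := by omega
      have e2 : W' j x = ∫ y, gk V (t - j * S) x (t - n * S) y * Fn y := by
        simp only [hW', if_pos hj]
      have e3 : W' (j + 1) = Fn := by
        funext y
        simp only [hW', hj1, lt_irrefl, if_false, if_true]
      have e4 : t - (n : ℝ) * S = t - j * S - S := by rw [← hj1]; exact hcast j
      rw [e2, e3, e4]
  · -- the gain
    intro j hj x hx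
    have hpos : 0 < ∫ y, gk V (t - j * S) x (t - j * S - S) y * h' (j + 1) y := by
      refine (hhpos j hj.le x hx).trans_le ?_
      rw [hhj j hj.le, hhj (j + 1) hj, hcast j]
      exact hsub j hj x hx
    set G : E N → ℝ := fun y => gk V (t - j * S) x (t - j * S - S) y with hG
    set hj1 : E N → ℝ := h' (j + 1) with hhj1
    have i0 : Integrable (fun y => G y * hj1 y) := hbint j x hj1 Mb (hhm _) (habs_h _)
    have i1 : Integrable (fun y => G y * (hj1 y * Real.log (hj1 y))) :=
      hbint j x (fun y => hj1 y * Real.log (hj1 y)) _ (hhlogm _) (hhlog _)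
    have i2 : Integrable (fun y => G y * (hj1 y * inner ℝ (y - x) e)) := by
      refine hlinint j x (fun y => hj1 y * inner ℝ (y - x) e) (Mb * (1 + ‖x - x0‖))
        ((hhm _).mul (by fun_prop)) (by positivity) fun y => ?_
      rw [abs_mul]
      have b1 : |inner ℝ (y - x) e| ≤ ‖y - x0‖ + ‖x - x0‖ := by
        have h1 := abs_real_inner_le_norm (y - x) e
        rw [he, mul_one] at h1
        refine h1.trans ?_
        have : y - x = (y - x0) - (x - x0) := by abel
        rw [this]
        exact norm_sub_le _ _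
      have b2 : ‖y - x0‖ + ‖x - x0‖ ≤ (1 + ‖x - x0‖) * (1 + ‖y - x0‖) := by
        exact aux2 (norm_nonneg _) (norm_nonneg _)
      calc |hj1 y| * |inner ℝ (y - x) e| ≤ Mb * ((1 + ‖x - x0‖) * (1 + ‖y - x0‖)) :=
            mul_le_mul (habs_h _ y) (b1.trans b2) (abs_nonneg _) (by linarith)
        _ = _ := by ring
    have e1 : ∫ y, G y * (hj1 y * Φ (j + 1) y) =
        (∫ y, G y * (hj1 y * Real.log (hj1 y))) + β * (∫ y, G y * (hj1 y * inner ℝ (y - x) e)) +
        β * (d0 + inner ℝ (x - x0) e - cc * (t - j * S) + cc * S) * ∫ y, G y * hj1 y := by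
      have i3 : Integrable (fun y => G y * (hj1 y * Real.log (hj1 y)) +
          β * (G y * (hj1 y * inner ℝ (y - x) e))) := i1.add (i2.const_mul β)
      rw [← integral_const_mul, ← integral_const_mul, ← integral_add i1 (i2.const_mul β),
        ← integral_add i3 (i0.const_mul _)]
      refine integral_congr_ae (Eventually.of_forall fun y => ?_)
      have e3 : (inner ℝ (y - x0) e : ℝ) = inner ℝ (y - x) e + inner ℝ (x - x0) e := by
        rw [← inner_add_left]
        congr 1
        abel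
      simp only [hΦ]
      rw [hcast j, e3]
      ring
    have e2 : Gn V hj1 β cc e S (t - j * S) x =
        (∫ y, G y * (hj1 y * Real.log (hj1 y))) / (∫ y, G y * hj1 y) +
        β * ((∫ y, G y * (hj1 y * inner ℝ (y - x) e)) / (∫ y, G y * hj1 y) + cc * S) := by
      unfold Gn Ex
      simp only [hG, mul_assoc]
    have e3 := hgain j hj x hx
    have e4 : h (t - j * S - S) = hj1 := by rw [hhj1, hhj (j + 1) hj, hcast j]
    rw [e4, e2] at e3
    rw [e1, hDj j hj.le, hhj j hj.le]
    have e5 : Φ j x = Real.log (h (t - j * S) x) +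
        β * (d0 + inner ℝ (x - x0) e - cc * (t - j * S)) := by
      simp only [hΦ]
      rw [hhj j hj.le]
    have hne : (∫ y, G y * hj1 y) ≠ 0 := hpos.ne'
    have e6 : ((∫ y, G y * (hj1 y * Real.log (hj1 y))) +
        β * (∫ y, G y * (hj1 y * inner ℝ (y - x) e)) +
        β * (d0 + inner ℝ (x - x0) e - cc * (t - j * S) + cc * S) * ∫ y, G y * hj1 y) /
        (∫ y, G y * hj1 y) = (∫ y, G y * (hj1 y * Real.log (hj1 y))) / (∫ y, G y * hj1 y) +
        β * ((∫ y, G y * (hj1 y * inner ℝ (y - x) e)) / (∫ y, G y * hj1 y) + cc * S) +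
        β * (d0 + inner ℝ (x - x0) e - cc * (t - j * S)) := by
      field_simp
      ring
    rw [e6, e5]
    linarith
  · -- outside of the ball
    intro j hj x hx
    rw [mem_closedBall, dist_eq_norm, not_le] at hx
    set ρ := ‖x - x0‖ with hρ
    have hρ1 : δ * t ≤ ρ := by
      refine le_trans ?_ hx.le
      rw [mul_assoc]
      exact le_mul_of_one_le_left (by positivity) hL1
    have htρ : t ≤ ρ / δ := by rw [le_div_iff₀ hδ]; linarith
    have hη := hh0 j x
    have hjS : (j : ℝ) * S ≤ δ * t :=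
      (mul_le_mul_of_nonneg_right (by exact_mod_cast hj) hS.le).trans hnS
    have hin := (abs_le.1 (hinner x)).2
    have hd0' := (abs_le.1 hd0).2
    have b1 : β * (d0 + inner ℝ (x - x0) e - cc * (t - j * S)) + n * (g * S) ≤
        (β * (1 / δ + 1 + cc) + g) * ρ := by
      have c1 : d0 + inner ℝ (x - x0) e - cc * (t - j * S) ≤ (1 / δ + 1 + cc) * ρ := by
        have c2 : cc * (j * S) ≤ cc * ρ := mul_le_mul_of_nonneg_left (hjS.trans hρ1) hcc.le
        have c3 : (1 / δ + 1 + cc) * ρ = ρ / δ + ρ + cc * ρ := by ring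
        rw [c3]
        linarith
      have c4 : (n : ℝ) * (g * S) ≤ g * ρ := by
        calc (n : ℝ) * (g * S) = g * (n * S) := by ring
          _ ≤ g * ρ := mul_le_mul_of_nonneg_left (hnS.trans hρ1) hg.le
      have c5 := mul_le_mul_of_nonneg_left c1 hβ
      have c6 : (β * (1 / δ + 1 + cc) + g) * ρ = β * ((1 / δ + 1 + cc) * ρ) + g * ρ := by ring
      rw [c6]
      exact add_le_add c5 c4
    have hρ0 : 1 ≤ ρ := hδt.trans hρ1
    have b2 : h' j x * (Φ j x + n * (g * S)) ≤ C2 * (1 + ρ) := by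
      have c1 : h' j x * (Φ j x + n * (g * S)) = h' j x * Real.log (h' j x) +
          h' j x * (β * (d0 + inner ℝ (x - x0) e - cc * (t - j * S)) + n * (g * S)) := by
        simp only [hΦ]
        ring
      have c2 := mul_log_le hη.1 hη.2 hMb
      have c0 : 0 ≤ (β * (1 / δ + 1 + cc) + g) * ρ := by positivity
      have c3 : h' j x * (β * (d0 + inner ℝ (x - x0) e - cc * (t - j * S)) + n * (g * S)) ≤
          Mb * ((β * (1 / δ + 1 + cc) + g) * ρ) :=
        (mul_le_mul_of_nonneg_left b1 hη.1).trans (mul_le_mul_of_nonneg_right hη.2 c0)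
      rw [c1, hC2]
      have c4 : 0 ≤ Mb * (β * (1 / δ + 1 + cc) + g) := by positivity
      have c5 : Mb * ((β * (1 / δ + 1 + cc) + g) * ρ) =
          Mb * (β * (1 / δ + 1 + cc) + g) * ρ := (mul_assoc _ _ _).symm
      rw [c5] at c3
      exact (add_le_add c2 c3).trans (aux5 hlogMb c4 (by linarith))
    refine b2.trans ((lin_le_exp hN' hC20 hρ0 ?_).trans ?_)
    · rw [div_le_iff₀ hδ] at ht2
      linarith
    · have c1 := SE_ge hN x0 x
      have c2 : Real.exp (-(ρ / (2 * √N))) ≤ ex j := by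
        simp only [hex]
        refine Real.exp_le_exp.2 ?_
        have c3 : L * δ * t / (2 * √N) ≤ ρ / (2 * √N) :=
          div_le_div_of_nonneg_right hx.le (by positivity)
        have c4 : 0 ≤ (K + 1) * ((n : ℝ) - j) * S := by
          have : (0 : ℝ) ≤ (n : ℝ) - j := by
            have : (j : ℝ) ≤ n := by exact_mod_cast hj
            linarith
          positivity
        linarith
      calc Real.exp (ρ / (2 * √N)) = Real.exp (-(ρ / (2 * √N))) * Real.exp (ρ / √N) := by
            rw [← Real.exp_add]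
            congr 1
            field_simp
            ring
        _ ≤ ex j * SE x0 x := mul_le_mul c2 c1 (Real.exp_nonneg _) (hexp j).le
  · -- the terminal conditions
    intro x hx
    have e1 : Φ n x = Real.log (h (t - n * S) x) +
        β * (d0 + inner ℝ (x - x0) e - cc * (t - n * S)) := by
      simp only [hΦ]
      rw [hhj n le_rfl]
    rw [e1]
    exact hterm x hx
  · intro x hx
    have e1 : W' n x = Fn x := by simp only [hW', lt_irrefl, if_false, if_true]
    rw [e1, hFn, indicator_of_mem hx.2, hhj n le_rfl]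
  · -- conclusion
    have hh00 : h' 0 = h t := by rw [hhj 0 (Nat.zero_le _)]; simp
    have hD00 : D' 0 = D t := by rw [hDj 0 (Nat.zero_le _)]; simp
    have hΦ0 : Φ 0 x0 = Real.log (h t x0) + β * (d0 - cc * t) := by
      simp only [hΦ]
      rw [hh00]
      simp
    have hhx : 0 < h t x0 := (Real.exp_pos _).trans_le hx0
    have hW0 : W' 0 x0 = ∫ y, gk V t x0 (t - n * S) y * Fn y := by
      simp only [hW', if_pos (by omega : 0 < n)]
      simp
    have hSb0 : Sb 0 x0 = Real.exp ((K + 1) * n * S - L * δ * t / (2 * √N)) * (2 * N) := by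
      simp only [hSb, hex, SE_self]
      simp
    rw [hh00, hD00, hΦ0, hW0, hSb0] at key
    -- the three error terms
    have c1 : B2 * ((∫ y, gk V t x0 (t - n * S) y * Fn y) / h t x0) ≤ B2 * PA := by
      refine mul_le_mul_of_nonneg_left ?_ hB2
      rw [div_le_iff₀ hhx]
      exact hW
    have c2 : Real.exp ((K + 1) * n * S - L * δ * t / (2 * √N)) * (2 * N) / h t x0 ≤ 1 / 2 := by
      rw [div_le_iff₀ hhx]
      have d1 : L * δ * t / (2 * √N) = (K + 4) * (δ * t) + δ * t / (2 * √N) := by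
        rw [hL]
        field_simp
      have d2 : (K + 1) * n * S ≤ (K + 1) * (δ * t) := by
        rw [mul_assoc]
        exact mul_le_mul_of_nonneg_left hnS (by linarith)
      have d3 : 0 ≤ δ * t / (2 * √N) := by positivity
      have d4 : Real.exp ((K + 1) * n * S - L * δ * t / (2 * √N)) ≤
          Real.exp (-(2 * (δ * t))) * Real.exp (-(δ * t)) := by
        rw [← Real.exp_add]
        refine Real.exp_le_exp.2 ?_
        rw [d1]
        linarith
      have d5 : Real.exp (-(2 * (δ * t))) * (2 * N) ≤ 1 / 2 := by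
        rw [Real.exp_neg, inv_mul_le_iff₀ (Real.exp_pos _)]
        have e1 := Real.add_one_le_exp (2 * (δ * t))
        rw [div_le_iff₀ hδ] at ht3
        linarith
      calc Real.exp ((K + 1) * n * S - L * δ * t / (2 * √N)) * (2 * N) ≤
            Real.exp (-(2 * (δ * t))) * Real.exp (-(δ * t)) * (2 * N) :=
            mul_le_mul_of_nonneg_right d4 (by positivity)
        _ = Real.exp (-(2 * (δ * t))) * (2 * N) * Real.exp (-(δ * t)) := by ring
        _ ≤ 1 / 2 * Real.exp (-(δ * t)) := mul_le_mul_of_nonneg_right d5 (Real.exp_nonneg _)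
        _ ≤ 1 / 2 * h t x0 := mul_le_mul_of_nonneg_left hx0 (by norm_num)
    have c3 : κ * S * (n : ℝ) ^ 2 * Real.exp (-t) ≤ 1 / 2 := by
      have d1 : (n : ℝ) ≤ δ * t / S := by rw [le_div_iff₀ hS]; exact hnS
      have d2 : κ * S * (n : ℝ) ^ 2 ≤ κ * (δ * t) * (δ * t / S) := by
        calc κ * S * (n : ℝ) ^ 2 = κ * (n * S) * n := by ring
          _ ≤ κ * (δ * t) * (δ * t / S) :=
              mul_le_mul (mul_le_mul_of_nonneg_left hnS hκ) d1 (by positivity) (by positivity)
      have d3 : t ^ 3 / 6 ≤ Real.exp t := by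
        have := Real.pow_div_factorial_le_exp t ht0.le 3
        simpa [Nat.factorial] using this
      have d4 : 12 * κ * δ ^ 2 ≤ t * S := by rwa [div_le_iff₀ hS] at ht4
      have d5 : κ * (δ * t) * (δ * t / S) ≤ 1 / 2 * Real.exp t := by
        have : κ * (δ * t) * (δ * t / S) ≤ 1 / 2 * (t ^ 3 / 6) := by
          rw [show κ * (δ * t) * (δ * t / S) = κ * δ ^ 2 * t ^ 2 / S by ring, div_le_iff₀ hS]
          have : 0 ≤ t ^ 2 := by positivity
          have := mul_le_mul_of_nonneg_left d4 this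
          linarith
        linarith
      calc κ * S * (n : ℝ) ^ 2 * Real.exp (-t) ≤ 1 / 2 * Real.exp t * Real.exp (-t) :=
            mul_le_mul_of_nonneg_right (d2.trans d5) (Real.exp_nonneg _)
        _ = 1 / 2 := by rw [mul_assoc, ← Real.exp_add]; simp
    have e1 : (n : ℝ) * (g * S) = n * g * S := by ring
    have e2 : κ * S * (n : ℝ) * (D t x0 / h t x0) = κ * n * S * (D t x0 / h t x0) := by ring
    rw [e1, e2] at key
    linarith

end Pool.Agent.H81.RF.CHN
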