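import Pool.Agent.H91.RF.TargetsK2
import Pool.Agent.H3.RF.Lib

/-!
# The chain theorem with a compensating function: common part of ABD, KIN, RCR, FT
-/

open MeasureTheory Set Filter Topology Metric
open Pool.Agent.H29.TF (hk P)
open Pool.Agent.H91.RD Pool.Agent.H91.RF

namespace Pool.Agent.H81.RF

/-- the positive part of a function which is nonnegative in a large ball -/
theorem qint (hNSUP : T_NSUP) (hKER : T_KER) (N : ℕ) (K ρ δ Mb : ℝ) (hK : 0 < K) (hMb : 1 ≤ Mb)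
    (hρ : 0 < ρ) (hδ : 0 < δ) (hsm : 16 * δ * (K * δ + 3) ≤ ρ ^ 2) :
    ∃ T > 0, ∀ t ≥ T, ∀ (V : ℝ → E N → ℝ) (q : E N → ℝ) (τ s : ℝ) (x : E N), Pt K V →
      Measurable q → (∀ y, |q y| ≤ Mb) → 0 < s → s ≤ δ * t →
      (∀ y, dist y x ≤ ρ * t → 0 ≤ q y) →
      ∫ y, gk V τ x (τ - s) y * max (q y) 0 ≤
        (∫ y, gk V τ x (τ - s) y * q y) + Real.exp (-(2 * t)) := by
  have hsm' : 16 * δ * (K * δ + 2 + 1) ≤ ρ ^ 2 := by
    have : K * δ + 2 + 1 = K * δ + 3 := by ring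
    rw [this]; exact hsm
  obtain ⟨T, hT, h⟩ := hNSUP N K Mb ρ δ 2 hK (by linarith) hρ hδ (by norm_num) hsm'
  refine ⟨T, hT, fun t ht V q τ s x hV hq hqM hs hst hq0 => ?_⟩
  have hlt : τ - s < τ := by linarith
  have hb : ∀ y, |max (-q y) 0| ≤ Mb := fun y => by
    rw [abs_of_nonneg (le_max_right _ _)]
    exact max_le ((neg_le_abs _).trans (hqM y)) (by linarith)
  have h1 := h t ht V (fun y => max (-q y) 0) τ s x hV (hq.neg.max measurable_const) hb hs hst
    (fun y hy => max_eq_right (by linarith [hq0 y hy]))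
  have i1 := Pool.Agent.H3.RF.gk_int hKER hV hlt x hq hqM
  have i2 : Integrable (fun y => gk V τ x (τ - s) y * max (-q y) 0) :=
    Pool.Agent.H3.RF.gk_int hKER hV hlt x (hq.neg.max measurable_const) hb
  have e1 : ∀ y, gk V τ x (τ - s) y * max (q y) 0 =
      gk V τ x (τ - s) y * q y + gk V τ x (τ - s) y * max (-q y) 0 := fun y => by
    rw [← mul_add]
    congr 1
    rcases le_total 0 (q y) with h0 | h0
    · rw [max_eq_left h0, max_eq_right (by linarith), add_zero]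
    · rw [max_eq_right h0, max_eq_left (by linarith)]; ring
  simp_rw [e1]
  rw [integral_add i1 i2]
  linarith [le_abs_self (∫ y, gk V τ x (τ - s) y * max (-q y) 0)]

/-- the chain theorem with a compensating function `q` -/
theorem core (hCHN : T_CHN) (hNSUP : T_NSUP) (hTRIV : T_TRIV) (hKER : T_KER) (N : ℕ)
    (K β cc : ℝ) (hN : 1 ≤ N) (hK : 0 < K) (hβ : 0 ≤ β) (hcc : 0 < cc) :
    ∃ L ≥ 1, ∀ δ S g κ ηa Mb ρ : ℝ, 0 < δ → δ ≤ 1 → 0 < S → 0 < g → 0 ≤ κ → 0 < ηa →
      K + β ^ 2 + g ≤ κ * ηa → 1 ≤ Mb → 0 < ρ → L * δ ≤ ρ / 2 → δ ≤ ρ →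
      16 * δ * (K * δ + 3) ≤ (ρ / 2) ^ 2 → ∃ T > 0, ∀ t ≥ T,
      ∀ (V p q : ℝ → E N → ℝ) (x0 e : E N) (A : Set (E N)) (d0 B1 B2 PA : ℝ) (n : ℕ),
      1 ≤ n → n * S ≤ δ * t → ‖e‖ = 1 → Pt K V → MeasurableSet A → |d0 - cc * t| ≤ t →
      0 ≤ B1 → 0 ≤ B2 →
      (∀ s ∈ Icc (t - δ * t) t, Measurable (p s) ∧ Measurable (q s) ∧
        ∀ y, |p s y| ≤ Mb ∧ |q s y| ≤ Mb) →
      (∀ s s', t - δ * t ≤ s → s < s' → s' ≤ t → ∀ x,
        p s' x = (∫ y, gk V s' x s y * p s y) ∧ q s' x = ∫ y, gk V s' x s y * q s y) →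
      (∀ s ∈ Icc (t - δ * t) t, ∀ y, dist y x0 ≤ ρ * t →
        Real.exp (-t) ≤ p s y ∧ 0 ≤ q s y) →
      (∀ s ∈ Icc (t - δ * t) t, ∀ y ∈ closedBall x0 (L * δ * t), q s y ≤ ηa * p s y →
        Real.log (p s y) + g * S ≤ Gn V (fun y => max (p (s - S) y) 0) β cc e S s y) →
      Real.exp (-(δ * t)) ≤ p t x0 →
      (∀ y ∈ closedBall x0 (L * δ * t),
        Real.log (p (t - n * S) y) + β * (d0 + inner ℝ (y - x0) e - cc * (t - n * S)) ≤ B1 ∨
        (y ∈ A ∧ Real.log (p (t - n * S) y) +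
          β * (d0 + inner ℝ (y - x0) e - cc * (t - n * S)) ≤ B1 + B2)) →
      ∫ y, gk V t x0 (t - n * S) y * A.indicator (fun y => max (p (t - n * S) y) 0) y ≤
        PA * p t x0 →
      Real.log (p t x0) + β * (d0 - cc * t) + n * g * S - κ * n * S * (q t x0 / p t x0) ≤
        B1 + B2 * PA + 1 := by
  obtain ⟨L, hL, hC⟩ := hCHN N K β cc hN hK hβ hcc
  refine ⟨L, hL, ?_⟩
  intro δ S g κ ηa Mb ρ hδ hδ1 hS hg hκ hηa hκη hMb hρ hLδ hδρ hsm
  obtain ⟨T1, hT1, hC1⟩ := hC δ S g κ Mb 1 hδ hδ1 hS hg hκ hMb one_pos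
  obtain ⟨T2, hT2, hQ⟩ := qint hNSUP hKER N K (ρ / 2) δ Mb hK hMb (by linarith) hδ hsm
  refine ⟨max T1 T2, lt_max_of_lt_left hT1, ?_⟩
  intro t ht V p q x0 e A d0 B1 B2 PA n hn hnS he hV hA hd0 hB1 hB2 hmb hrep hbox hgain hpx hter hPA
  have ht1 : T1 ≤ t := (le_max_left _ _).trans ht
  have ht2 : T2 ≤ t := (le_max_right _ _).trans ht
  have ht0 : 0 < t := hT1.trans_le ht1
  have hnR : (1 : ℝ) ≤ n := by exact_mod_cast hn
  -- the points of the chain
  have hjn : ∀ j : ℕ, j ≤ n → t - j * S ∈ Icc (t - δ * t) t := fun j hj => by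
    have h1 : (j : ℝ) * S ≤ n * S := mul_le_mul_of_nonneg_right (by exact_mod_cast hj) hS.le
    have h2 : 0 ≤ (j : ℝ) * S := by positivity
    exact ⟨by linarith, by linarith⟩
  have hjn1 : ∀ j : ℕ, j < n → t - j * S - S ∈ Icc (t - δ * t) t := fun j hj => by
    have := hjn (j + 1) hj
    push_cast at this
    rwa [show t - ((j : ℝ) + 1) * S = t - j * S - S by ring] at this
  have hball : ∀ y ∈ closedBall x0 (L * δ * t), dist y x0 ≤ ρ * t := fun y hy => by
    have h1 : dist y x0 ≤ L * δ * t := hy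
    have h2 : L * δ * t ≤ ρ * t := mul_le_mul_of_nonneg_right (by linarith) ht0.le
    linarith
  have hmax : ∀ s ∈ Icc (t - δ * t) t, ∀ y, dist y x0 ≤ ρ * t →
      max (p s y) 0 = p s y ∧ max (q s y) 0 = q s y := fun s hs y hy => by
    obtain ⟨h1, h2⟩ := hbox s hs y hy
    exact ⟨max_eq_left ((Real.exp_pos _).le.trans h1), max_eq_left h2⟩
  have hmS : ∀ s ∈ Icc (t - δ * t) t, Measurable (fun y => max (p s y) 0) ∧
      Measurable (fun y => max (q s y) 0) ∧
      ∀ y, 0 ≤ max (p s y) 0 ∧ max (p s y) 0 ≤ Mb ∧ 0 ≤ max (q s y) 0 ∧ max (q s y) 0 ≤ Mb := by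
    intro s hs
    obtain ⟨h1, h2, h3⟩ := hmb s hs
    refine ⟨h1.max measurable_const, h2.max measurable_const, fun y => ⟨le_max_right _ _,
      max_le ((le_abs_self _).trans (h3 y).1) (by linarith), le_max_right _ _,
      max_le ((le_abs_self _).trans (h3 y).2) (by linarith)⟩⟩
  have habs : ∀ s ∈ Icc (t - δ * t) t, ∀ y, |max (p s y) 0| ≤ Mb := fun s hs y => by
    rw [abs_of_nonneg (le_max_right _ _)]; exact ((hmS s hs).2.2 y).2.1
  -- growth of `h`
  have hgrow : ∀ j < n, ∀ x ∈ closedBall x0 (L * δ * t), p (t - j * S) x ≤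
      ∫ y, gk V (t - j * S) x (t - j * S - S) y * max (p (t - j * S - S) y) 0 := by
    intro j hj x _
    have s1 := hjn1 j hj
    have s0 := hjn j hj.le
    have hlt : t - j * S - S < t - j * S := by linarith
    rw [(hrep _ _ s1.1 hlt s0.2 x).1]
    exact Pool.Agent.H3.RF.gk_mono hKER hV hlt x (hmb _ s1).1 (fun y => ((hmb _ s1).2.2 y).1)
      (hmS _ s1).1 (habs _ s1) (fun y => le_max_left _ _)
  have h0ball : x0 ∈ closedBall x0 (L * δ * t) := mem_closedBall_self (by positivity)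
  have htI : t ∈ Icc (t - δ * t) t := ⟨by nlinarith, le_refl _⟩
  have hx0 := hmax t htI x0 (hball x0 h0ball)
  have hfin := hC1 t ht1 n V (fun s y => max (p s y) 0) (fun s y => max (q s y) 0) x0 e A d0 B1 B2
    PA hn hnS he hV hA hd0 hB1 hB2 hmS ?_ ?_ ?_ ?_ ?_ ?_ ?_
  · simp only [hx0.1, hx0.2] at hfin
    exact hfin
  · intro j hj x hx
    rw [(hmax _ (hjn j hj) x (hball x hx)).1, one_mul]
    exact (hbox _ (hjn j hj) x (hball x hx)).1
  · intro j hj x hx
    rw [(hmax _ (hjn j hj.le) x (hball x hx)).1]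
    exact hgrow j hj x hx
  · intro j hj x hx
    have s1 := hjn1 j hj
    have s0 := hjn j hj.le
    have hlt : t - j * S - S < t - j * S := by linarith
    have hSle : S ≤ δ * t := by nlinarith
    have h1 := hQ t ht2 V (q (t - j * S - S)) (t - j * S) S x hV (hmb _ s1).2.1
      (fun y => ((hmb _ s1).2.2 y).2) hS hSle (fun y hy => by
        refine (hbox _ s1 y ?_).2
        have h2 : dist x x0 ≤ L * δ * t := hx
        have h3 : L * δ * t ≤ ρ / 2 * t := mul_le_mul_of_nonneg_right hLδ ht0.le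
        have h4 := dist_triangle y x x0
        linarith)
    rw [← (hrep _ _ s1.1 hlt s0.2 x).2] at h1
    obtain ⟨b1, b2⟩ := hbox _ s0 x (hball x hx)
    rw [(hmax _ s0 x (hball x hx)).1, (hmax _ s0 x (hball x hx)).2]
    refine h1.trans ?_
    have h5 : Real.exp (-(2 * t)) ≤ Real.exp (-t) * p (t - j * S) x := by
      calc Real.exp (-(2 * t)) = Real.exp (-t) * Real.exp (-t) := by
            rw [← Real.exp_add]; ring_nf
        _ ≤ _ := mul_le_mul_of_nonneg_left b1 (Real.exp_pos _).le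
    linarith
  · intro j hj x hx
    have s1 := hjn1 j hj
    have s0 := hjn j hj.le
    have hlt : t - j * S - S < t - j * S := by linarith
    obtain ⟨b1, b2⟩ := hbox _ s0 x (hball x hx)
    have p0 : 0 < p (t - j * S) x := (Real.exp_pos _).trans_le b1
    simp only [(hmax _ s0 x (hball x hx)).1, (hmax _ s0 x (hball x hx)).2]
    have hr : 0 ≤ κ * S * (q (t - j * S) x / p (t - j * S) x) := by positivity
    rcases le_or_gt (q (t - j * S) x) (ηa * p (t - j * S) x) with hq | hq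
    · have := hgain _ s0 x hx hq
      linarith
    · have hg1 := hgrow j hj x hx
      have hpos : 0 < ∫ y, gk V (t - j * S) x (t - j * S - S) y *
          max (p (t - j * S - S) y) 0 := p0.trans_le hg1
      have h1 := hTRIV N K S (t - j * S) β cc V (fun y => max (p (t - j * S - S) y) 0) x e hV hS
        hβ hcc.le he (hmS _ s1).1 (fun y => le_max_right _ _)
        ⟨Mb, fun y => ((hmS _ s1).2.2 y).2.1⟩ hpos
      have h2 := Real.log_le_log p0 hg1
      have h3 : ηa ≤ q (t - j * S) x / p (t - j * S) x := by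
        rw [le_div_iff₀ p0]; exact hq.le
      have h4 : (K + β ^ 2 + g) * S ≤ κ * S * (q (t - j * S) x / p (t - j * S) x) := by
        calc (K + β ^ 2 + g) * S ≤ κ * ηa * S := mul_le_mul_of_nonneg_right hκη hS.le
          _ = κ * S * ηa := by ring
          _ ≤ _ := mul_le_mul_of_nonneg_left h3 (by positivity)
      linarith
  · show _ ≤ max (p t x0) 0
    rw [hx0.1]; exact hpx
  · intro y hy
    simp only [(hmax _ (hjn n le_rfl) y (hball y hy)).1]
    exact hter y hy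
  · simp only [hx0.1]
    exact hPA

end Pool.Agent.H81.RF
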