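import Pool.Agent.H91.RD.Basic
import Pool.Agent.H3.RD.Core
import Pool.Agent.H4.RF.KEX
import Pool.Agent.H91.RF.TargetsR

/-!
# [EXS] existence of mild solutions (Picard iteration)
-/

open MeasureTheory Set Filter Topology Metric
open Pool.Agent.H29.TF (hk P abs_P_le P_sub P_add integrable_hk_mul integrable_hk_sub)
open Pool.Agent.H91.RD Pool.Agent.H91.RF
open Pool.Agent.H4.RF.KEX (ii_invsqrt int_invsqrt ae_ne abs_duh_le P_sub_self)

namespace Pool.Agent.H81.RF.EX

variable {N : ℕ}

/-- Duhamel expression -/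
noncomputable def Dh (g : E N → ℝ) (h : ℝ → E N → ℝ) (t : ℝ) (x : E N) : ℝ :=
  P t g x + ∫ r in (0 : ℝ)..t, P (t - r) (h r) x

theorem meas_Dh {g : E N → ℝ} {h : ℝ → E N → ℝ} (hg : Measurable g)
    (hh : Measurable (Function.uncurry h)) :
    Measurable (fun p : ℝ × E N => if p.1 ≤ 0 then g p.2 else Dh g h p.1 p.2) := by
  have m1 : Measurable (fun p : ℝ × E N => P p.1 g p.2) := by
    unfold P
    have : Measurable (Function.uncurry (fun (p : ℝ × E N) (w : E N) =>
        hk p.1 (p.2 - w) * g w)) := by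
      apply Measurable.mul
      · have h1 : Measurable (fun p : (ℝ × E N) × E N => ((p.1.1, p.1.2 - p.2) : ℝ × E N)) := by
          fun_prop
        exact (Pool.Agent.H29.TF.measurable_hk_uncurry (V := E N)).comp h1
      · exact hg.comp measurable_snd
    exact (StronglyMeasurable.integral_prod_right this.stronglyMeasurable).measurable
  have m2 : Measurable (Function.uncurry (fun (p : ℝ × E N) (r : ℝ) => P (p.1 - r) (h r) p.2)) := by
    unfold P
    have : Measurable (Function.uncurry (fun (q : (ℝ × E N) × ℝ) (w : E N) =>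
        hk (q.1.1 - q.2) (q.1.2 - w) * h q.2 w)) := by
      apply Measurable.mul
      · have h1 : Measurable (fun p : ((ℝ × E N) × ℝ) × E N =>
            ((p.1.1.1 - p.1.2, p.1.1.2 - p.2) : ℝ × E N)) := by fun_prop
        exact (Pool.Agent.H29.TF.measurable_hk_uncurry (V := E N)).comp h1
      · have h1 : Measurable (fun p : ((ℝ × E N) × ℝ) × E N => ((p.1.2, p.2) : ℝ × E N)) := by
          fun_prop
        exact hh.comp h1
    exact (StronglyMeasurable.integral_prod_right this.stronglyMeasurable).measurable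
  have m3 : Measurable (fun p : ℝ × E N =>
      ∫ r, {q : (ℝ × E N) × ℝ | 0 < q.2 ∧ q.2 ≤ q.1.1}.indicator
        (Function.uncurry (fun (p : ℝ × E N) (r : ℝ) => P (p.1 - r) (h r) p.2)) (p, r)) := by
    have hS : MeasurableSet {q : (ℝ × E N) × ℝ | 0 < q.2 ∧ q.2 ≤ q.1.1} :=
      (measurableSet_lt measurable_const measurable_snd).inter
        (measurableSet_le measurable_snd (measurable_fst.comp measurable_fst))
    exact ((m2.indicator hS).stronglyMeasurable.integral_prod_right').measurable
  have e : (fun p : ℝ × E N => if p.1 ≤ 0 then g p.2 else Dh g h p.1 p.2) =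
      fun p : ℝ × E N => if p.1 ≤ 0 then g p.2 else P p.1 g p.2 +
        ∫ r, {q : (ℝ × E N) × ℝ | 0 < q.2 ∧ q.2 ≤ q.1.1}.indicator
        (Function.uncurry (fun (p : ℝ × E N) (r : ℝ) => P (p.1 - r) (h r) p.2)) (p, r) := by
    funext p
    rcases le_or_gt p.1 0 with hp | hp
    · rw [if_pos hp, if_pos hp]
    · rw [if_neg (not_le.2 hp), if_neg (not_le.2 hp)]
      unfold Dh
      congr 1
      rw [intervalIntegral.integral_of_le hp.le, ← integral_indicator measurableSet_Ioc]
      congr 1
  rw [e]
  exact Measurable.ite (measurableSet_le measurable_fst measurable_const)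
    (hg.comp measurable_snd) (m1.add m3)

section

variable {g : E N → ℝ} {h : ℝ → E N → ℝ} {M : ℝ}

theorem ii_P (hh : Measurable (Function.uncurry h)) (hM : ∀ q y, |h q y| ≤ M) {s t : ℝ}
    (hst : s ≤ t) (x : E N) : IntervalIntegrable (fun r => P (t - r) (h r) x) volume s t := by
  have := Pool.Agent.H3.RD.duh_int (C := 1) (ω := fun _ => 1) hst hh hM measurable_const
    (fun _ _ => by simp) x
  simpa using this

theorem abs_Dh_le (hgM : ∀ y, |g y| ≤ M) (hM : ∀ q y, |h q y| ≤ M) {t : ℝ} (ht : 0 < t)
    (x : E N) : |Dh g h t x| ≤ M + M * t := by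
  unfold Dh
  refine (abs_add_le _ _).trans (add_le_add (abs_P_le ht hgM x) ?_)
  have := abs_duh_le (N := N) ht.le (fun r _ => hM r) x
  rwa [sub_zero] at this

theorem Dh_duh (hg : Measurable g) (hgM : ∀ y, |g y| ≤ M) (hh : Measurable (Function.uncurry h))
    (hM : ∀ q y, |h q y| ≤ M) {s t : ℝ} (hs : 0 < s) (hst : s < t) (x : E N) :
    Dh g h t x = P (t - s) (Dh g h s) x + ∫ r in s..t, P (t - r) (h r) x := by
  have h1 := (Pool.Agent.H3.RD.appl (τ := t - s) (s := 0) (r := s) (A := 1) (C := 1)
    (ω := fun _ => 1) (by linarith) hs hg hgM hh hM measurable_const (fun _ _ => by simp) x).2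
  have e1 : (fun y => 1 * P (s - 0) g y + ∫ q in (0 : ℝ)..s, 1 * P (s - q) (h q) y) =
      Dh g h s := by
    funext y; unfold Dh; simp
  rw [e1] at h1
  rw [h1]
  have e2 : (∫ q in (0 : ℝ)..s, 1 * P (t - s + (s - q)) (h q) x) =
      ∫ q in (0 : ℝ)..s, P (t - q) (h q) x := by
    congr 1; funext q
    rw [one_mul, show t - s + (s - q) = t - q by ring]
  rw [e2, one_mul, show t - s + (s - 0) = t by ring]
  unfold Dh
  have i := ii_P hh hM (hs.le.trans hst.le) x (s := 0)
  have i1 : IntervalIntegrable (fun r => P (t - r) (h r) x) volume 0 s :=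
    i.mono_set (by rw [uIcc_of_le hs.le, uIcc_of_le (hs.le.trans hst.le)]
                   exact Icc_subset_Icc_right hst.le)
  rw [← intervalIntegral.integral_add_adjacent_intervals i1 (ii_P hh hM hst.le x), add_assoc]

theorem Dh_lip {A : ℝ} (hA : 0 ≤ A)
    (hgrad : ∀ t > 0, ∀ (g : E N → ℝ) (M : ℝ), AEStronglyMeasurable g volume → (∀ y, |g y| ≤ M) →
      ∀ x y, |P t g x - P t g y| ≤ A * M / √t * ‖x - y‖)
    (hg : Measurable g) (hgM : ∀ y, |g y| ≤ M) (hh : Measurable (Function.uncurry h))
    (hM : ∀ q y, |h q y| ≤ M) {σ t b : ℝ} (hσ : 0 < σ) (hσt : σ ≤ t) (htb : t ≤ b) (x y : E N) :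
    |Dh g h t x - Dh g h t y| ≤ (A * M / √σ + 2 * √b * (A * M)) * ‖x - y‖ := by
  have ht : 0 < t := by linarith
  have hM0 : 0 ≤ M := (abs_nonneg _).trans (hgM 0)
  have e3 : Dh g h t x - Dh g h t y = (P t g x - P t g y) +
      ((∫ r in (0 : ℝ)..t, P (t - r) (h r) x) - ∫ r in (0 : ℝ)..t, P (t - r) (h r) y) := by
    unfold Dh; ring
  rw [e3]
  have b1 := hgrad t ht g M hg.aestronglyMeasurable hgM x y
  have b1' : A * M / √t * ‖x - y‖ ≤ A * M / √σ * ‖x - y‖ := by
    refine mul_le_mul_of_nonneg_right ?_ (norm_nonneg _)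
    exact div_le_div_of_nonneg_left (by positivity) (Real.sqrt_pos.2 hσ)
      (Real.sqrt_le_sqrt hσt)
  have b2 : |(∫ r in (0 : ℝ)..t, P (t - r) (h r) x) - ∫ r in (0 : ℝ)..t, P (t - r) (h r) y| ≤
      2 * √t * (A * M * ‖x - y‖) := by
    rw [← intervalIntegral.integral_sub (ii_P hh hM ht.le x) (ii_P hh hM ht.le y)]
    have h3 : ∀ᵐ r, r ∈ Ioc (0 : ℝ) t →
        ‖P (t - r) (h r) x - P (t - r) (h r) y‖ ≤ 1 / √(t - r) * (A * M * ‖x - y‖) := by
      filter_upwards [ae_ne t] with r hrt hr2
      have hlt : r < t := lt_of_le_of_ne hr2.2 hrt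
      have := hgrad (t - r) (by linarith) (h r) M
        (hh.comp measurable_prodMk_left).aestronglyMeasurable (hM r) x y
      rw [Real.norm_eq_abs]
      refine this.trans (le_of_eq ?_)
      ring
    have h4 := intervalIntegral.norm_integral_le_of_norm_le ht.le h3
      ((ii_invsqrt ht).mul_const _)
    rw [intervalIntegral.integral_mul_const, int_invsqrt ht, sub_zero] at h4
    exact h4
  have b3 : 2 * √t * (A * M * ‖x - y‖) ≤ 2 * √b * (A * M * ‖x - y‖) := by
    refine mul_le_mul_of_nonneg_right ?_ (by positivity)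
    exact mul_le_mul_of_nonneg_left (Real.sqrt_le_sqrt htb) (by norm_num)
  refine (abs_add_le _ _).trans ?_
  have : (A * M / √σ + 2 * √b * (A * M)) * ‖x - y‖ = A * M / √σ * ‖x - y‖ +
    2 * √b * (A * M * ‖x - y‖) := by ring
  rw [this]
  linarith

theorem meas_Dh_slice (hg : Measurable g) (hh : Measurable (Function.uncurry h)) {t : ℝ}
    (ht : 0 < t) : Measurable (Dh g h t) := by
  have h1 := (meas_Dh hg hh).comp (measurable_prodMk_left (x := t))
  have e : (fun p : ℝ × E N => if p.1 ≤ 0 then g p.2 else Dh g h p.1 p.2) ∘ Prod.mk t =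
      Dh g h t := by
    funext x
    show (if t ≤ 0 then g x else Dh g h t x) = _
    rw [if_neg (not_le.2 ht)]
  rwa [e] at h1

theorem Dh_time {A : ℝ} (hA : 0 ≤ A)
    (hgrad : ∀ t > 0, ∀ (g : E N → ℝ) (M : ℝ), AEStronglyMeasurable g volume → (∀ y, |g y| ≤ M) →
      ∀ x y, |P t g x - P t g y| ≤ A * M / √t * ‖x - y‖)
    (hmom : ∀ t > 0, Integrable (fun z : E N => hk t z * ‖z‖) ∧
      ∫ z : E N, hk t z * ‖z‖ ≤ A * √t)
    (hg : Measurable g) (hgM : ∀ y, |g y| ≤ M) (hh : Measurable (Function.uncurry h))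
    (hM : ∀ q y, |h q y| ≤ M) {σ t t' b : ℝ} (hσ : 0 < σ) (hσt : σ ≤ t) (htt : t < t')
    (htb : t' ≤ b) (x : E N) :
    |Dh g h t' x - Dh g h t x| ≤
      (A * M / √σ + 2 * √b * (A * M)) * (A * √(t' - t)) + M * (t' - t) := by
  have ht : 0 < t := by linarith
  have hM0 : 0 ≤ M := (abs_nonneg _).trans (hgM 0)
  have hτ : 0 < t' - t := by linarith
  have b1 := P_sub_self (ε := 0) (A := A) (L := A * M / √σ + 2 * √b * (A * M))
    (M := M + M * t) hτ (by positivity) (meas_Dh_slice hg hh ht) (abs_Dh_le hgM hM ht)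
    (hmom _ hτ).1 (hmom _ hτ).2
    (fun x y => by rw [zero_add]; exact Dh_lip hA hgrad hg hgM hh hM hσ hσt (by linarith) x y) x
  rw [zero_add] at b1
  have b2 := abs_duh_le (N := N) htt.le (fun r _ => hM r) x
  have e1 : Dh g h t' x - Dh g h t x = (P (t' - t) (Dh g h t) x - Dh g h t x) +
      ∫ r in t..t', P (t' - r) (h r) x := by
    rw [Dh_duh hg hgM hh hM ht htt x]; ring
  rw [e1]
  exact (abs_add_le _ _).trans (add_le_add b1 b2)

theorem Dh_cont (hGRAD : T_GRAD) (hg : Measurable g) (hgM : ∀ y, |g y| ≤ M)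
    (hh : Measurable (Function.uncurry h)) (hM : ∀ q y, |h q y| ≤ M) :
    ContinuousOn (fun p : ℝ × E N => Dh g h p.1 p.2) (Ioi 0 ×ˢ univ) := by
  obtain ⟨A, hA1, hgrad, hmom⟩ := hGRAD N
  have hA : 0 ≤ A := by linarith
  rintro ⟨t0, x0⟩ hp
  have ht0 : 0 < t0 := hp.1
  set σ := t0 / 2 with hσ
  set b := t0 + 1 with hb
  set L := A * M / √σ + 2 * √b * (A * M) with hL
  refine ContinuousAt.continuousWithinAt ?_
  have key : ∀ᶠ p : ℝ × E N in 𝓝 (t0, x0), |Dh g h p.1 p.2 - Dh g h t0 x0| ≤
      L * (A * √|p.1 - t0|) + M * |p.1 - t0| + L * ‖p.2 - x0‖ := by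
    have h7 : ∀ᶠ p : ℝ × E N in 𝓝 (t0, x0), p.1 ∈ Ioo σ b :=
      continuous_fst.continuousAt.eventually (Ioo_mem_nhds (by linarith) (by linarith))
    filter_upwards [h7] with p hp1
    have q1 : |Dh g h p.1 p.2 - Dh g h t0 p.2| ≤ L * (A * √|p.1 - t0|) + M * |p.1 - t0| := by
      rcases lt_trichotomy p.1 t0 with h | h | h
      · rw [abs_sub_comm, abs_sub_comm p.1 t0, abs_of_pos (by linarith : 0 < t0 - p.1)]
        exact Dh_time hA hgrad hmom hg hgM hh hM (by linarith) hp1.1.le h (by linarith) p.2
      · rw [h]; simp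
      · rw [abs_of_pos (by linarith : 0 < p.1 - t0)]
        exact Dh_time hA hgrad hmom hg hgM hh hM (by linarith) (by linarith) h hp1.2.le p.2
    have q2 := Dh_lip hA hgrad hg hgM hh hM (σ := σ) (b := b) (by linarith) (by linarith)
      (show t0 ≤ b by linarith) p.2 x0
    exact (abs_sub_le _ (Dh g h t0 p.2) _).trans (add_le_add q1 q2)
  have lim : Tendsto (fun p : ℝ × E N =>
      L * (A * √|p.1 - t0|) + M * |p.1 - t0| + L * ‖p.2 - x0‖) (𝓝 (t0, x0)) (𝓝 0) := by
    have hc : Continuous (fun p : ℝ × E N =>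
      L * (A * √|p.1 - t0|) + M * |p.1 - t0| + L * ‖p.2 - x0‖) := by fun_prop
    have := hc.tendsto (t0, x0)
    simpa using this
  rw [ContinuousAt, tendsto_iff_dist_tendsto_zero]
  refine squeeze_zero' (Eventually.of_forall fun _ => dist_nonneg) ?_ lim
  filter_upwards [key] with p hp
  rw [Real.dist_eq]
  exact hp

end

/-! ### Picard iteration -/

/-- Picard iterates -/
noncomputable def W (f : ℝ → ℝ) (g : E N → ℝ) : ℕ → ℝ → E N → ℝ
  | 0 => fun _ x => g x
  | n + 1 => fun t x => if t ≤ 0 then g x else Dh g (fun r y => f (W f g n r y)) t x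

section

variable {f : ℝ → ℝ} {K : ℝ} {g : E N → ℝ}

theorem W_meas (hf : Lip f K) (hg : Measurable g) (n : ℕ) :
    Measurable (Function.uncurry (W f g n)) := by
  induction n with
  | zero => exact hg.comp measurable_snd
  | succ n ih => exact meas_Dh hg (hf.continuous.measurable.comp ih)

theorem abs_f_le (hf : Lip f K) (s : ℝ) : |f s| ≤ K := by
  by_cases hs : s ∈ Icc (0 : ℝ) 1
  · refine (hf.abs_le s).trans ?_
    rw [abs_of_nonneg hs.1]
    exact mul_le_of_le_one_right hf.K0.le hs.2
  · rw [hf.out s hs, abs_zero]; exact hf.K0.le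

theorem W_diff (hf : Lip f K) (hg : Measurable g) (hg1 : ∀ x, |g x| ≤ 1) (n : ℕ) (t : ℝ)
    (x : E N) : |W f g n t x - W f g (n + 1) t x| ≤ 2 * (1 / 2) ^ n * Real.exp (2 * K * |t|) := by
  have hK := hf.K0
  have hfW : ∀ n, Measurable (Function.uncurry (fun r y => f (W f g n r y))) := fun n =>
    hf.continuous.measurable.comp (W_meas hf hg n)
  induction n generalizing t x with
  | zero =>
    have hexp : 1 + 2 * K * |t| ≤ Real.exp (2 * K * |t|) := by
      linarith [Real.add_one_le_exp (2 * K * |t|)]
    rcases le_or_gt t 0 with ht | ht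
    · show |g x - (if t ≤ 0 then g x else _)| ≤ _
      rw [if_pos ht, sub_self, abs_zero]; positivity
    · show |g x - (if t ≤ 0 then g x else Dh g (fun r y => f (W f g 0 r y)) t x)| ≤ _
      rw [if_neg (not_le.2 ht), abs_of_pos ht]
      rw [abs_of_pos ht] at hexp
      have h1 : |Dh g (fun r y => f (W f g 0 r y)) t x| ≤ 1 + K * t := by
        unfold Dh
        refine (abs_add_le _ _).trans (add_le_add (abs_P_le ht hg1 x) ?_)
        have := abs_duh_le (N := N) ht.le (h := fun r y => f (W f g 0 r y))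
          (fun r _ y => abs_f_le hf _) x
        rwa [sub_zero] at this
      have h2 : |g x - Dh g (fun r y => f (W f g 0 r y)) t x| ≤
          |g x| + |Dh g (fun r y => f (W f g 0 r y)) t x| := abs_sub _ _
      have h3 : 0 < K * t := by positivity
      have h4 := hg1 x
      simp only [pow_zero, mul_one]
      linarith
  | succ n ih =>
    rcases le_or_gt t 0 with ht | ht
    · show |(if t ≤ 0 then g x else _) - (if t ≤ 0 then g x else _)| ≤ _
      rw [if_pos ht, if_pos ht, sub_self, abs_zero]; positivity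
    · show |(if t ≤ 0 then g x else Dh g (fun r y => f (W f g n r y)) t x) -
        (if t ≤ 0 then g x else Dh g (fun r y => f (W f g (n + 1) r y)) t x)| ≤ _
      rw [if_neg (not_le.2 ht), if_neg (not_le.2 ht), abs_of_pos ht]
      have e1 : Dh g (fun r y => f (W f g n r y)) t x -
          Dh g (fun r y => f (W f g (n + 1) r y)) t x =
          ∫ r in (0 : ℝ)..t, (P (t - r) (fun y => f (W f g n r y)) x -
            P (t - r) (fun y => f (W f g (n + 1) r y)) x) := by
        unfold Dh
        rw [intervalIntegral.integral_sub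
          (ii_P (hfW n) (fun q y => abs_f_le hf _) ht.le x)
          (ii_P (hfW (n + 1)) (fun q y => abs_f_le hf _) ht.le x)]
        ring
      rw [e1]
      have h3 : ∀ᵐ r, r ∈ Ioc (0 : ℝ) t →
          ‖P (t - r) (fun y => f (W f g n r y)) x -
            P (t - r) (fun y => f (W f g (n + 1) r y)) x‖ ≤
          (1 / 2) ^ n * (2 * K * Real.exp (2 * K * r)) := by
        filter_upwards [ae_ne t] with r hrt hr2
        have hlt : 0 < t - r := by linarith [lt_of_le_of_ne hr2.2 hrt]
        have i1 := integrable_hk_mul hlt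
          ((hfW n).comp (measurable_prodMk_left (x := r))).aestronglyMeasurable
          (fun y => abs_f_le hf _) x
        have i2 := integrable_hk_mul hlt
          ((hfW (n + 1)).comp (measurable_prodMk_left (x := r))).aestronglyMeasurable
          (fun y => abs_f_le hf _) x
        rw [Real.norm_eq_abs]
        have e2 : P (t - r) (fun y => f (W f g n r y)) x -
            P (t - r) (fun y => f (W f g (n + 1) r y)) x =
            P (t - r) (fun y => f (W f g n r y) - f (W f g (n + 1) r y)) x :=
          (P_sub x i1 i2).symm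
        rw [e2]
        refine (abs_P_le hlt (C := K * (2 * (1 / 2) ^ n * Real.exp (2 * K * r)))
          (fun y => ?_) x).trans (le_of_eq (by ring))
        have := ih r y
        rw [abs_of_pos hr2.1] at this
        exact (hf.lip _ _).trans (mul_le_mul_of_nonneg_left this hK.le)
      have hder : ∀ r ∈ uIcc 0 t, HasDerivAt (fun r => Real.exp (2 * K * r))
          (2 * K * Real.exp (2 * K * r)) r := fun r _ => by
        have := ((hasDerivAt_id r).const_mul (2 * K)).exp
        simp only [id_eq, mul_one] at this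
        exact this.congr_deriv (by ring)
      have hcont : Continuous (fun r : ℝ => 2 * K * Real.exp (2 * K * r)) := by fun_prop
      have h4 := intervalIntegral.norm_integral_le_of_norm_le ht.le h3
        ((hcont.intervalIntegrable 0 t).const_mul _)
      rw [intervalIntegral.integral_const_mul,
        intervalIntegral.integral_eq_sub_of_hasDerivAt hder (hcont.intervalIntegrable 0 t),
        mul_zero, Real.exp_zero] at h4
      rw [← Real.norm_eq_abs]
      refine h4.trans ?_
      have h5 : 0 < (1 / 2 : ℝ) ^ n := by positivity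
      have h6 : 2 * (1 / 2 : ℝ) ^ (n + 1) * Real.exp (2 * K * t) =
        (1 / 2) ^ n * Real.exp (2 * K * t) := by rw [pow_succ]; ring
      rw [h6]
      linarith

end

/-- [EXS] -/
theorem EXS (hGRAD : T_GRAD) (hGC : T_GC) : T_EXS := by
  intro N f K g hf hg hg01
  have hK := hf.K0
  have hg1 : ∀ x, |g x| ≤ 1 := fun x => abs_le.2 ⟨by linarith [(hg01 x).1], (hg01 x).2⟩
  -- the limit
  have hd : ∀ t x n, dist (W f g n t x) (W f g (n + 1) t x) ≤
      2 * Real.exp (2 * K * |t|) * (1 / 2) ^ n := fun t x n => by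
    rw [Real.dist_eq]
    exact (W_diff hf hg hg1 n t x).trans (le_of_eq (by ring))
  have hlim : ∀ t x, ∃ a, Tendsto (fun n => W f g n t x) atTop (𝓝 a) := fun t x =>
    cauchySeq_tendsto_of_complete (cauchySeq_of_le_geometric (1 / 2) _ (by norm_num) (hd t x))
  choose w hw using hlim
  have hwd : ∀ t x n, |W f g n t x - w t x| ≤ 4 * Real.exp (2 * K * |t|) * (1 / 2) ^ n :=
    fun t x n => by
    have := dist_le_of_le_geometric_of_tendsto (1 / 2) _ (by norm_num) (hd t x) (hw t x) n
    rw [Real.dist_eq] at this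
    exact this.trans (le_of_eq (by ring))
  have hw0 : ∀ t ≤ 0, ∀ x, w t x = g x := fun t ht x => by
    refine tendsto_nhds_unique (hw t x) (tendsto_const_nhds.congr fun n => ?_)
    cases n with
    | zero => rfl
    | succ n =>
      show g x = if t ≤ 0 then g x else _
      rw [if_pos ht]
  have hwm : Measurable (Function.uncurry w) :=
    measurable_of_tendsto_metrizable (fun n => W_meas hf hg n)
      (tendsto_pi_nhds.2 fun p => hw p.1 p.2)
  have hfw : Measurable (Function.uncurry (fun r y => f (w r y))) :=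
    hf.continuous.measurable.comp hwm
  have hfW : ∀ n, Measurable (Function.uncurry (fun r y => f (W f g n r y))) := fun n =>
    hf.continuous.measurable.comp (W_meas hf hg n)
  have hpow : Tendsto (fun n : ℕ => (1 / 2 : ℝ) ^ n) atTop (𝓝 0) :=
    tendsto_pow_atTop_nhds_zero_of_lt_one (by norm_num) (by norm_num)
  -- Duhamel's formula
  have hD : ∀ t > 0, ∀ x, w t x = Dh g (fun r y => f (w r y)) t x := by
    intro t ht x
    have hlimD : Tendsto (fun n => W f g (n + 1) t x) atTop
        (𝓝 (Dh g (fun r y => f (w r y)) t x)) := by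
      rw [tendsto_iff_dist_tendsto_zero]
      have h1 : Tendsto (fun n : ℕ => K * (4 * Real.exp (2 * K * t) * (1 / 2) ^ n) * t) atTop
          (𝓝 0) := by
        have := ((hpow.const_mul (4 * Real.exp (2 * K * t))).const_mul K).mul_const t
        simpa using this
      refine squeeze_zero (fun _ => dist_nonneg) (fun n => ?_) h1
      rw [Real.dist_eq]
      have e0 : W f g (n + 1) t x = Dh g (fun r y => f (W f g n r y)) t x := by
        show (if t ≤ 0 then g x else _) = _
        rw [if_neg (not_le.2 ht)]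
      have e1 : Dh g (fun r y => f (W f g n r y)) t x - Dh g (fun r y => f (w r y)) t x =
          ∫ r in (0 : ℝ)..t, P (t - r) (fun y => f (W f g n r y) - f (w r y)) x := by
        unfold Dh
        have : (∫ r in (0 : ℝ)..t, P (t - r) (fun y => f (W f g n r y) - f (w r y)) x) =
            ∫ r in (0 : ℝ)..t, (P (t - r) (fun y => f (W f g n r y)) x -
              P (t - r) (fun y => f (w r y)) x) := by
          refine intervalIntegral.integral_congr_ae ?_
          filter_upwards [ae_ne t] with r hrt hr2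
          rw [uIoc_of_le ht.le] at hr2
          have hlt : 0 < t - r := by linarith [lt_of_le_of_ne hr2.2 hrt]
          exact P_sub x (integrable_hk_mul hlt
            ((hfW n).comp (measurable_prodMk_left (x := r))).aestronglyMeasurable
            (fun y => abs_f_le hf _) x) (integrable_hk_mul hlt
            (hfw.comp (measurable_prodMk_left (x := r))).aestronglyMeasurable
            (fun y => abs_f_le hf _) x)
        rw [this, intervalIntegral.integral_sub
          (ii_P (hfW n) (fun q y => abs_f_le hf _) ht.le x)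
          (ii_P hfw (fun q y => abs_f_le hf _) ht.le x)]
        ring
      rw [e0, e1]
      have h2 := abs_duh_le (N := N) ht.le (h := fun r y => f (W f g n r y) - f (w r y))
        (M := K * (4 * Real.exp (2 * K * t) * (1 / 2) ^ n)) (fun r hr y => by
          refine (hf.lip _ _).trans (mul_le_mul_of_nonneg_left ((hwd r y n).trans ?_) hK.le)
          rw [abs_of_pos hr.1]
          have : Real.exp (2 * K * r) ≤ Real.exp (2 * K * t) :=
            Real.exp_le_exp.2 (mul_le_mul_of_nonneg_left hr.2.le (by positivity))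
          exact mul_le_mul_of_nonneg_right (mul_le_mul_of_nonneg_left this (by norm_num))
            (by positivity)) x
      rwa [sub_zero] at h2
    exact tendsto_nhds_unique ((tendsto_add_atTop_iff_nat 1).2 (hw t x)) hlimD
  set M : ℝ := max 1 K with hM
  have hgM : ∀ y, |g y| ≤ M := fun y => (hg1 y).trans (le_max_left _ _)
  have hfM : ∀ q y, |f (w q y)| ≤ M := fun q y => (abs_f_le hf _).trans (le_max_right _ _)
  have hcont : ContinuousOn (fun p : ℝ × E N => w p.1 p.2) (Ioi 0 ×ˢ univ) := by
    refine (Dh_cont hGRAD hg hgM hfw hfM).congr fun p hp => ?_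
    exact hD p.1 hp.1 p.2
  have hws : ∀ t > 0, w t = Dh g (fun r y => f (w r y)) t := fun t ht => funext (hD t ht)
  have hwg : w 0 = g := funext fun x => hw0 0 le_rfl x
  have hduh : ∀ s t, 0 ≤ s → s < t → ∀ x,
      w t x = P (t - s) (w s) x + ∫ r in s..t, P (t - r) (fun y => f (w r y)) x := by
    intro s t hs hst x
    rcases hs.eq_or_lt with h | h
    · rw [← h, hwg, hD t (by linarith) x, sub_zero]; rfl
    · rw [hws s h, hD t (by linarith) x]
      exact Dh_duh hg hgM hfw hfM h hst x
  -- range
  have hwb : ∀ t ≥ 0, ∀ r ∈ Icc 0 t, ∀ x, |w r x| ≤ M + M * t := by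
    intro t ht r hr x
    have hM0 : 0 ≤ M := le_trans zero_le_one (le_max_left _ _)
    rcases hr.1.eq_or_lt with h | h
    · rw [← h, hwg]
      have : 0 ≤ M * t := by positivity
      linarith [hgM x]
    · rw [hD r h x]
      refine (abs_Dh_le hgM hfM h x).trans ?_
      have := mul_le_mul_of_nonneg_left hr.2 hM0
      linarith
  have hfc : ContinuousOn (fun p : ℝ × E N => f (w p.1 p.2)) (Ioi 0 ×ˢ univ) :=
    hf.continuous.comp_continuousOn hcont
  have hsub : ∀ t : ℝ, (Ioc 0 t ×ˢ univ : Set (ℝ × E N)) ⊆ Ioi 0 ×ˢ univ := fun t =>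
    prod_mono (fun r hr => hr.1) (subset_refl _)
  have hnonneg : ∀ t > 0, ∀ x, 0 ≤ w t x := by
    intro t ht x
    have hM0 : 1 ≤ M := le_max_left _ _
    have h1 := hGC N 0 K (M + M * t) 0 t (fun r y => -w r y) (fun r y => -f (w r y)) hK.le ht
      (by rw [hwg]; exact hg.neg)
      (fun r hr y => by rw [abs_neg]; exact hwb t ht.le r hr y)
      (fun r hr y => by
        rw [abs_neg]
        have : 0 ≤ M * t := by positivity
        linarith [hfM r y])
      ((hcont.mono (hsub t)).neg) ((hfc.mono (hsub t)).neg) (fun r hr y => ?_)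
      (fun r hr y hz => by
        rw [hf.out _ (fun h => by linarith [h.1])]; simp)
      (fun r hr y hz => by
        have h2 := (abs_le.1 (hf.abs_le (w r y))).1
        rw [abs_of_nonneg (by linarith : 0 ≤ w r y)] at h2
        linarith) x
    · simp only [zero_mul, Real.exp_zero, one_mul, sub_zero, hwg] at h1
      have e1 : (fun y => max (-g y) 0) = fun _ : E N => (0 : ℝ) := by
        funext y; exact max_eq_right (by linarith [(hg01 y).1])
      rw [e1, Pool.Agent.H29.TF.P_const ht] at h1
      linarith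
    · simp only
      rw [hduh 0 r le_rfl hr.1 y]
      have e1 : P (r - 0) (fun y => -w 0 y) y = -P (r - 0) (w 0) y := by
        unfold P; rw [← integral_neg]; congr 1; funext z; ring
      have e2 : (∫ q in (0 : ℝ)..r, P (r - q) (fun y => -f (w q y)) y) =
          -∫ q in (0 : ℝ)..r, P (r - q) (fun y => f (w q y)) y := by
        rw [← intervalIntegral.integral_neg]
        congr 1; funext q
        unfold P; rw [← integral_neg]; congr 1; funext z; ring
      rw [e1, e2]; ring
  have hle : ∀ t > 0, ∀ x, w t x ≤ 1 := by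
    intro t ht x
    have hM0 : 1 ≤ M := le_max_left _ _
    have h1 := hGC N 0 K (M + M * t + 1) 0 t (fun r y => w r y - 1) (fun r y => f (w r y)) hK.le ht
      (by rw [hwg]; exact hg.sub_const 1)
      (fun r hr y => by
        have := hwb t ht.le r hr y
        rw [abs_le] at this ⊢
        constructor <;> linarith [this.1, this.2])
      (fun r hr y => by
        have : 0 ≤ M * t := by positivity
        linarith [hfM r y])
      ((hcont.mono (hsub t)).sub continuousOn_const) (hfc.mono (hsub t)) (fun r hr y => ?_)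
      (fun r hr y hz => by
        rw [hf.out _ (fun h => by linarith [h.2])]; simp)
      (fun r hr y hz => by
        have h2 := hf.lip (w r y) 1
        rw [hf.f1, sub_zero, abs_of_nonpos hz] at h2
        have := (abs_le.1 h2).2
        linarith) x
    · simp only [zero_mul, Real.exp_zero, one_mul, sub_zero, hwg] at h1
      have e1 : (fun y => max (g y - 1) 0) = fun _ : E N => (0 : ℝ) := by
        funext y; exact max_eq_right (by linarith [(hg01 y).2])
      rw [e1, Pool.Agent.H29.TF.P_const ht] at h1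
      linarith
    · simp only
      rw [hduh 0 r le_rfl hr.1 y]
      have hr0 : 0 < r - 0 := by linarith [hr.1]
      have e1 : P (r - 0) (fun y => w 0 y - 1) y = P (r - 0) (w 0) y - 1 := by
        have := P_sub (t := r - 0) (f := w 0) (g := fun _ => (1 : ℝ)) y
          (integrable_hk_mul hr0 (by rw [hwg]; exact hg.aestronglyMeasurable)
            (by rw [hwg]; exact hg1) y)
          (integrable_hk_mul hr0 measurable_const.aestronglyMeasurable (C := 1) (by simp) y)
        rw [Pool.Agent.H29.TF.P_const hr0] at this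
        exact this
      rw [e1]; ring
  have hrng : Rng 0 w := by
    intro t ht x
    rcases ht.lt_or_eq with h | h
    · exact ⟨hnonneg t h x, hle t h x⟩
    · rw [← h, hwg]; exact hg01 x
  exact ⟨w, ⟨⟨1, fun t ht x => abs_le.2 ⟨by linarith [(hrng t ht x).1], (hrng t ht x).2⟩⟩,
    by rw [hwg]; exact hg, hcont, hduh⟩, hrng, hwg⟩

end Pool.Agent.H81.RF.EX
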