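import Pool.Agent.H81.RF.KIN2

/-!
# [KIN] the K-inequality
-/

open MeasureTheory Set Filter Topology Metric
open Pool.Agent.H29.TF (hk P)
open Pool.Agent.H91.RD Pool.Agent.H91.RF
open Pool.Agent.H24.RF (exp_large exists_small NDir.mono dx_neg abs_dx_le)

namespace Pool.Agent.H81.RF

variable {N : ℕ}

theorem Ev.all {U : Set (E N)} {cc : ℝ} {G : ℕ → ℝ → E N → E N → Prop} (h : ∀ i, Ev U cc (G i))
    (m : ℕ) : Ev U cc (fun t x e => ∀ i < m, G i t x e) := by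
  induction m with
  | zero => exact (Ev.time U cc 0).mono fun t x e _ i hi => absurd hi (Nat.not_lt_zero i)
  | succ m ih =>
    refine (ih.and (h m)).mono ?_
    rintro t x e ⟨h1, h2⟩ i hi
    rcases Nat.lt_succ_iff_lt_or_eq.1 hi with h3 | h3
    · exact h1 i h3
    · rw [h3]; exact h2

/-- the bound `F_a ≤ (M + o(1)) p` for all `a ⊥ e` of length `α` -/
def PM {N : ℕ} (U : Set (E N)) (u : ℝ → E N → ℝ) (cc α M : ℝ) : Prop :=
  AtR U cc (fun ε t x e => ∀ a, ‖a‖ = α → inner ℝ a e = 0 →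
    Fa u cc e a t x ≤ (M + ε) * -dx u e t x)

theorem PM_big {U : Set (E N)} {u : ℝ → E N → ℝ} {cc C0 C9 η0 α : ℝ} (hcc : 0 < cc)
    (hF : Frm U u cc C0 C9 η0) (hAB : ABd U u cc) (hα : 0 ≤ α) : ∃ M ≥ 0, PM U u cc α M := by
  obtain ⟨A, hA, η, hη, T, hT, h⟩ := hAB
  have hABe : Ev U cc (fun t x e => -dt u t x ≤ A * -dx u e t x) := ⟨η, hη, T, hT, h⟩
  refine ⟨2 * cc * α * C0 + cc + A, by have := hF.hC0; positivity, fun ε hε => ?_⟩
  show Ev U cc _
  refine ((frm_evp hF).and (hABe.and (Ev.near U cc hη))).mono ?_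
  rintro t x e ⟨⟨hp, hgr⟩, hd, hn, -⟩ a ha hae
  have h1 : dx u a t x ≤ α * (C0 * -dx u e t x) := by
    have h2 := (le_abs_self _).trans (abs_dx_le' u a t x)
    rw [ha] at h2
    exact h2.trans (mul_le_mul_of_nonneg_left hgr hα)
  have h2 : 2 * cc * dx u a t x ≤ 2 * cc * (α * (C0 * -dx u e t x)) :=
    mul_le_mul_of_nonneg_left h1 (by positivity)
  have h3 : cc * (1 - ‖a‖ ^ 2) * -dx u e t x ≤ cc * -dx u e t x := by
    refine mul_le_mul_of_nonneg_right ?_ hp.le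
    have : 0 ≤ cc * ‖a‖ ^ 2 := by positivity
    linarith
  unfold Fa
  have h4 : 0 < ε * -dx u e t x := mul_pos hε hp
  linarith

theorem PM_zero (hLIB : T_LIB) (hCHN : T_CHN) (hP0A : T_P0A) (hTRIV : T_TRIV) (hNSUP : T_NSUP)
    (hUPB : T_UPB) (hKREP : T_KREP) (hGEOB : T_GEOB) (hLINU : T_LINU) (hKER : T_KER)
    {f : ℝ → ℝ} {K cc lo hi C0 C9 η0 : ℝ}
    {U : Set (E N)} {u : ℝ → E N → ℝ} (hS : Stg f K U u) (hMa : Mac U u cc lo hi)
    (hF : Frm U u cc C0 C9 η0) (hlo : 4 * fp f lo ≤ cc ^ 2) (hhi : fp f hi ≤ 0)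
    (hAh : AheadD U u cc ∨ AheadW U u cc) (hAB : ABd U u cc) {α : ℝ} (hα : 0 ≤ α) :
    PM U u cc α 0 := by
  set S : Set ℝ := {M | 0 ≤ M ∧ PM U u cc α M} with hSd
  obtain ⟨M1, hM1, hPM1⟩ := PM_big hMa.cpos hF hAB hα
  have hne : S.Nonempty := ⟨M1, hM1, hPM1⟩
  have hbd : BddBelow S := ⟨0, fun M hM => hM.1⟩
  set m := sInf S with hm
  have hm0 : 0 ≤ m := le_csInf hne fun M hM => hM.1
  have hPm : PM U u cc α m := by
    intro ε hε
    show Ev U cc _
    obtain ⟨M, hMS, hMm⟩ := exists_lt_of_csInf_lt hne (show sInf S < m + ε / 2 by linarith)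
    have h1 : Ev U cc (fun t x e => ∀ a, ‖a‖ = α → inner ℝ a e = 0 →
      Fa u cc e a t x ≤ (M + ε / 2) * -dx u e t x) := hMS.2 (ε / 2) (by positivity)
    refine ((frm_evp hF).and h1).mono ?_
    rintro t x e ⟨⟨hp, -⟩, h2⟩ a ha hae
    exact (h2 a ha hae).trans (mul_le_mul_of_nonneg_right (by linarith) hp.le)
  rcases hm0.eq_or_lt with h0 | h0
  · rw [← h0] at hPm; exact hPm
  · exfalso
    obtain ⟨ε, hε, h1⟩ := kstep hLIB hCHN hP0A hTRIV hNSUP hUPB hKREP hGEOB hLINU hKER hS hMa hF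
      hlo hhi hAh hAB hα h0 hPm
    have h2 : max (m - ε) 0 ∈ S := by
      refine ⟨le_max_right _ _, fun ε' hε' => ?_⟩
      show Ev U cc _
      refine ((frm_evp hF).and h1).mono ?_
      rintro t x e ⟨⟨hp, -⟩, h2⟩ a ha hae
      exact (h2 a ha hae).trans (mul_le_mul_of_nonneg_right (by
        linarith [le_max_left (m - ε) 0]) hp.le)
    have h3 := csInf_le hbd h2
    have h4 : max (m - ε) 0 < m := max_lt (by linarith) h0
    linarith

/-- from finitely many lengths to the K-inequality -/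
theorem kin_point {u : ℝ → E N → ℝ} {cc C0 s ε : ℝ} {e : E N} {t : ℝ} {x : E N} (hcc : 0 < cc)
    (he : ‖e‖ = 1) (hp : 0 < -dx u e t x) (hgr : gr u t x ≤ C0 * -dx u e t x) (hs : 0 < s)
    (h : ∀ i : ℕ, i * s ≤ C0 → ∀ a, ‖a‖ = i * s → inner ℝ a e = 0 →
      Fa u cc e a t x ≤ ε * -dx u e t x) :
    cc * gr u t x ^ 2 ≤ (dt u t x + (ε + cc * s ^ 2) * -dx u e t x) * -dx u e t x := by
  set Λ := fderiv ℝ (u t) x with hΛ
  set g : E N := (InnerProductSpace.toDual ℝ (E N)).symm Λ with hg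
  have hgv : ∀ v, Λ v = inner ℝ g v := fun v => by
    rw [hg, InnerProductSpace.toDual_symm_apply]
  have hgn : ‖g‖ = gr u t x := by
    rw [hg, LinearIsometryEquiv.norm_map]; rfl
  set b : E N := g - (inner ℝ g e : ℝ) • e with hb
  have hbe : inner ℝ b e = (0 : ℝ) := by
    rw [hb, inner_sub_left, inner_smul_left, real_inner_self_eq_norm_sq, he]
    simp
  have hgb : inner ℝ g b = ‖b‖ ^ 2 := by
    have h1 : g = b + (inner ℝ g e : ℝ) • e := by rw [hb]; abel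
    have h2 : inner ℝ e b = (0 : ℝ) := by rw [real_inner_comm]; exact hbe
    calc inner ℝ g b = inner ℝ (b + (inner ℝ g e : ℝ) • e) b := by rw [← h1]
      _ = ‖b‖ ^ 2 := by
        rw [inner_add_left, inner_smul_left, h2, real_inner_self_eq_norm_sq]; simp
  have hgg : ‖g‖ ^ 2 = ‖b‖ ^ 2 + (inner ℝ g e) ^ 2 := by
    have h1 : g = b + (inner ℝ g e : ℝ) • e := by rw [hb]; abel
    have h2 : ‖b + (inner ℝ g e : ℝ) • e‖ ^ 2 = ‖b‖ ^ 2 + (inner ℝ g e) ^ 2 := by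
      rw [norm_add_sq_real, inner_smul_right, hbe, norm_smul, he, mul_one, Real.norm_eq_abs,
        sq_abs]
      ring
    rw [← h2, ← h1]
  set p := -dx u e t x with hpd
  have hpe : p = -inner ℝ g e := by
    rw [hpd, ← hgv]; rfl
  have hp2 : (inner ℝ g e : ℝ) ^ 2 = p ^ 2 := by rw [hpe]; ring
  rw [hp2, hgn] at hgg
  set r : ℝ := ‖b‖ / p with hr
  have hr0 : 0 ≤ r := by rw [hr]; positivity
  have hbr : ‖b‖ = r * p := by rw [hr, div_mul_cancel₀ _ hp.ne']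
  have hrC : r ≤ C0 := by
    rw [hr, div_le_iff₀ hp]
    refine le_trans ?_ hgr
    have h5 : ‖b‖ ^ 2 ≤ gr u t x ^ 2 := by
      have := sq_nonneg p
      linarith
    exact (abs_le_of_sq_le_sq' h5 (norm_nonneg _)).2
  set i : ℕ := ⌊r / s⌋₊ with hi
  have hi1 : i * s ≤ r := by
    have := Nat.floor_le (a := r / s) (by positivity)
    rwa [le_div_iff₀ hs] at this
  have hi2 : r < i * s + s := by
    have := Nat.lt_floor_add_one (r / s)
    rw [div_lt_iff₀ hs] at this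
    linarith
  have h0 : b = 0 → (i : ℝ) * s = 0 := fun hb0 => by
    have h1 : r = 0 := by rw [hr, hb0, norm_zero, zero_div]
    have h2 : 0 ≤ (i : ℝ) * s := by positivity
    linarith
  have hna : ‖((i * s) / ‖b‖) • b‖ = i * s := by
    rw [norm_smul, Real.norm_eq_abs, abs_of_nonneg (by positivity)]
    by_cases hb0 : b = 0
    · rw [hb0, norm_zero, mul_zero, h0 hb0]
    · exact div_mul_cancel₀ _ (norm_ne_zero_iff.2 hb0)
  have hLa : dx u (((i * s) / ‖b‖) • b) t x = i * s * ‖b‖ := by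
    unfold dx
    rw [map_smul, ← hΛ, hgv, hgb, smul_eq_mul]
    by_cases hb0 : b = 0
    · rw [h0 hb0, hb0]; simp
    · have := norm_ne_zero_iff.2 hb0
      field_simp
  have h1 := h i (hi1.trans hrC) (((i * s) / ‖b‖) • b) hna (by
    rw [inner_smul_left, hbe, mul_zero])
  unfold Fa at h1
  rw [hLa, hna, ← hpd, hbr] at h1
  rw [hgg, hbr]
  have h2 : (2 * cc * (i * s * (r * p)) + cc * (1 - (i * s) ^ 2) * p - dt u t x) * p ≤
      ε * p * p := mul_le_mul_of_nonneg_right h1 hp.le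
  have h3 : cc * (r - i * s) ^ 2 * p ^ 2 ≤ cc * s ^ 2 * p ^ 2 := by
    refine mul_le_mul_of_nonneg_right (mul_le_mul_of_nonneg_left ?_ hcc.le) (sq_nonneg _)
    exact pow_le_pow_left₀ (by linarith) (by linarith) 2
  have h4 : cc * ((r * p) ^ 2 + p ^ 2) = (2 * cc * (i * s * (r * p)) +
    cc * (1 - (i * s) ^ 2) * p - dt u t x) * p + dt u t x * p +
      cc * (r - i * s) ^ 2 * p ^ 2 := by ring
  rw [h4]
  linarith

/-- [KIN] -/
theorem KIN (hLIB : T_LIB) (hCHN : T_CHN) (hP0A : T_P0A) (hTRIV : T_TRIV) (hNSUP : T_NSUP)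
    (hUPB : T_UPB) (hKREP : T_KREP) (hGEOB : T_GEOB) (hLINU : T_LINU) (hKER : T_KER) :
    T_KIN := by
  intro N f K cc lo hi C0 C9 η0 U u hS hMa hF hlo hhi hAh hAB ε hε
  have hcc := hMa.cpos
  show Ev U cc _
  obtain ⟨s, hs, hs2⟩ : ∃ s > 0, cc * s ^ 2 ≤ ε / 2 := by
    refine ⟨min 1 (ε / (2 * cc)), by positivity, ?_⟩
    have h1 : min 1 (ε / (2 * cc)) ^ 2 ≤ min 1 (ε / (2 * cc)) :=
      pow_le_of_le_one (by positivity) (min_le_left _ _) (by norm_num)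
    have h2 := h1.trans (min_le_right _ _)
    rw [le_div_iff₀ (by positivity)] at h2
    linarith
  have h1 : ∀ i : ℕ, Ev U cc (fun t x e => ∀ a, ‖a‖ = i * s → inner ℝ a e = 0 →
      Fa u cc e a t x ≤ (0 + ε / 2) * -dx u e t x) := fun i =>
    PM_zero hLIB hCHN hP0A hTRIV hNSUP hUPB hKREP hGEOB hLINU hKER hS hMa hF hlo hhi hAh hAB
      (by positivity) (ε / 2) (by positivity)
  refine ((frm_evp hF).and ((Ev.all h1 (⌊C0 / s⌋₊ + 1)).and (Ev.near U cc one_pos))).mono ?_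
  rintro t x e ⟨⟨hp, hgr⟩, hi, hn, -⟩
  have h2 := kin_point (ε := ε / 2) hcc hn.1 hp hgr hs (fun i hi1 a ha hae => by
    have h3 : i ≤ ⌊C0 / s⌋₊ := by
      refine Nat.le_floor ?_
      rwa [le_div_iff₀ hs]
    have := hi i (Nat.lt_succ_of_le h3) a ha hae
    rwa [zero_add] at this)
  refine h2.trans (mul_le_mul_of_nonneg_right ?_ hp.le)
  have h3 : (ε / 2 + cc * s ^ 2) * -dx u e t x ≤ ε * -dx u e t x :=
    mul_le_mul_of_nonneg_right (by linarith) hp.le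
  linarith

end Pool.Agent.H81.RF
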