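import Pool.Agent.H81.RF.Core
import Pool.Agent.H24.RF.P0A

/-!
# Auxiliary lemmas for the K-inequality
-/

open MeasureTheory Set Filter Topology Metric
open Pool.Agent.H29.TF (hk P)
open Pool.Agent.H91.RD Pool.Agent.H91.RF
open Pool.Agent.H24.RF (exp_large exists_small NDir.mono dx_neg abs_dx_le)

namespace Pool.Agent.H81.RF

variable {N : ℕ}

/-- a property which holds near the ratio `cc` -/
def Ev (U : Set (E N)) (cc : ℝ) (G : ℝ → E N → E N → Prop) : Prop :=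
  ∃ η > 0, ∃ T > 0, ∀ t ≥ T, ∀ x e, NDir U η x e → |infDist x U - cc * t| ≤ η * t → G t x e

section Ev

variable {U : Set (E N)} {cc : ℝ} {G G' : ℝ → E N → E N → Prop}

theorem Ev.and (h : Ev U cc G) (h' : Ev U cc G') : Ev U cc (fun t x e => G t x e ∧ G' t x e) := by
  obtain ⟨η, hη, T, hT, h⟩ := h
  obtain ⟨η', hη', T', hT', h'⟩ := h'
  refine ⟨min η η', lt_min hη hη', max T T', lt_max_of_lt_left hT, fun t ht x e hn hd => ?_⟩
  have ht0 : 0 ≤ t := (hT.trans_le ((le_max_left _ _).trans ht)).le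
  exact ⟨h t ((le_max_left _ _).trans ht) x e (NDir.mono hn (min_le_left _ _))
      (hd.trans (mul_le_mul_of_nonneg_right (min_le_left _ _) ht0)),
    h' t ((le_max_right _ _).trans ht) x e (NDir.mono hn (min_le_right _ _))
      (hd.trans (mul_le_mul_of_nonneg_right (min_le_right _ _) ht0))⟩

theorem Ev.mono (h : Ev U cc G) (H : ∀ t x e, G t x e → G' t x e) : Ev U cc G' := by
  obtain ⟨η, hη, T, hT, h⟩ := h
  exact ⟨η, hη, T, hT, fun t ht x e hn hd => H t x e (h t ht x e hn hd)⟩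

theorem Ev.time (U : Set (E N)) (cc T0 : ℝ) : Ev U cc (fun t _ _ => T0 ≤ t) :=
  ⟨1, one_pos, max T0 1, lt_max_of_lt_right one_pos, fun _ ht _ _ _ _ => (le_max_left _ _).trans ht⟩

theorem Ev.near (U : Set (E N)) (cc : ℝ) {η : ℝ} (hη : 0 < η) :
    Ev U cc (fun t x e => NDir U η x e ∧ |infDist x U - cc * t| ≤ η * t) :=
  ⟨η, hη, 1, one_pos, fun _ _ _ _ h1 h2 => ⟨h1, h2⟩⟩

theorem Ev.of_atR {Q : ℝ → ℝ → E N → E N → Prop} (h : AtR U cc Q) {ε : ℝ} (hε : 0 < ε) :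
    Ev U cc (Q ε) := h ε hε

theorem Ev.box (hUPB : T_UPB) (hU : CondC U) (hne : U.Nonempty) (hcc : 0 < cc) (h : Ev U cc G) :
    ∃ ρ > 0, ∃ T > 0, ∀ t ≥ T, ∀ x0 e, NDir U ρ x0 e → |infDist x0 U - cc * t| ≤ ρ * t →
      ∀ s ∈ Icc ((1 - ρ) * t) t, ∀ y, dist y x0 ≤ ρ * t → G s y e :=
  hUPB N U cc (fun _ => G) hU hne hcc (fun _ _ => h) 1 one_pos

end Ev

/-! ### Linear algebra -/

theorem perp {Λ : E N →L[ℝ] ℝ} {e a : E N} (he : ‖e‖ = 1) (hae : inner ℝ a e = 0) :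
    (Λ a) ^ 2 ≤ ‖a‖ ^ 2 * (‖Λ‖ ^ 2 - (Λ e) ^ 2) := by
  set v : E N := (Λ a) • a + (‖a‖ ^ 2 * Λ e) • e with hv
  have h1 : Λ v = (Λ a) ^ 2 + ‖a‖ ^ 2 * (Λ e) ^ 2 := by
    rw [hv, map_add, map_smul, map_smul, smul_eq_mul, smul_eq_mul]; ring
  have h2 : ‖v‖ ^ 2 = ‖a‖ ^ 2 * Λ v := by
    have hea : inner ℝ e a = (0 : ℝ) := by rw [real_inner_comm]; exact hae
    rw [← real_inner_self_eq_norm_sq, h1, hv]
    simp only [inner_add_left, inner_add_right, inner_smul_left, inner_smul_right, hae, hea,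
      real_inner_self_eq_norm_sq, he, RCLike.conj_to_real]
    ring
  have h3 : Λ v ≤ ‖Λ‖ * ‖v‖ := (le_abs_self _).trans (by
    have := Λ.le_opNorm v
    rwa [Real.norm_eq_abs] at this)
  have h4 : 0 ≤ Λ v := by rw [h1]; positivity
  have h5 : (Λ v) ^ 2 ≤ ‖Λ‖ ^ 2 * (‖a‖ ^ 2 * Λ v) := by
    rw [← h2, ← mul_pow]
    exact pow_le_pow_left₀ h4 h3 2
  have h6 : Λ v ≤ ‖Λ‖ ^ 2 * ‖a‖ ^ 2 := by
    rcases h4.eq_or_lt with h0 | h0
    · rw [← h0]; positivity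
    · have : Λ v * Λ v ≤ Λ v * (‖Λ‖ ^ 2 * ‖a‖ ^ 2) := by
        calc Λ v * Λ v = (Λ v) ^ 2 := by ring
          _ ≤ ‖Λ‖ ^ 2 * (‖a‖ ^ 2 * Λ v) := h5
          _ = _ := by ring
      exact le_of_mul_le_mul_left this h0
  rw [h1] at h6
  linarith

/-- the functional `F_a` against the K-quantity -/
theorem Fa_mul_le {u : ℝ → E N → ℝ} {cc : ℝ} {e a : E N} {t : ℝ} {x : E N} (hcc : 0 ≤ cc)
    (he : ‖e‖ = 1) (hae : inner ℝ a e = 0) :
    Fa u cc e a t x * -dx u e t x ≤ cc * gr u t x ^ 2 - dt u t x * -dx u e t x := by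
  have h1 := perp (Λ := fderiv ℝ (u t) x) he hae
  set p := -dx u e t x with hpd
  have hp2 : (fderiv ℝ (u t) x e) ^ 2 = p ^ 2 := by rw [hpd]; unfold dx; ring
  rw [hp2] at h1
  have h2 : 0 ≤ gr u t x ^ 2 - p ^ 2 := by
    have h3 := abs_dx_le u e he t x
    have h4 : p ^ 2 ≤ gr u t x ^ 2 := by
      rw [hpd, neg_sq, ← sq_abs]
      exact pow_le_pow_left₀ (abs_nonneg _) h3 2
    linarith
  have h3 : 2 * dx u a t x * p ≤ ‖a‖ ^ 2 * p ^ 2 + (gr u t x ^ 2 - p ^ 2) := by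
    have h4 : (2 * dx u a t x * p) ^ 2 ≤ (‖a‖ ^ 2 * p ^ 2 + (gr u t x ^ 2 - p ^ 2)) ^ 2 := by
      have h5 : (2 * dx u a t x * p) ^ 2 = 4 * p ^ 2 * (dx u a t x) ^ 2 := by ring
      have h6 : 4 * p ^ 2 * (dx u a t x) ^ 2 ≤
          4 * p ^ 2 * (‖a‖ ^ 2 * (gr u t x ^ 2 - p ^ 2)) :=
        mul_le_mul_of_nonneg_left h1 (by positivity)
      have h7 := sq_nonneg (‖a‖ ^ 2 * p ^ 2 - (gr u t x ^ 2 - p ^ 2))
      rw [h5]
      refine h6.trans ?_
      have h8 : (‖a‖ ^ 2 * p ^ 2 + (gr u t x ^ 2 - p ^ 2)) ^ 2 =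
        (‖a‖ ^ 2 * p ^ 2 - (gr u t x ^ 2 - p ^ 2)) ^ 2 +
          4 * p ^ 2 * (‖a‖ ^ 2 * (gr u t x ^ 2 - p ^ 2)) := by ring
      linarith
    exact (abs_le.1 (abs_le_of_sq_le_sq h4 (by positivity))).2
  have h4 : Fa u cc e a t x * p = cc * (2 * dx u a t x * p + (1 - ‖a‖ ^ 2) * p ^ 2) -
      dt u t x * p := by
    unfold Fa
    rw [← hpd]; ring
  rw [h4]
  have h5 : cc * (2 * dx u a t x * p + (1 - ‖a‖ ^ 2) * p ^ 2) ≤ cc * gr u t x ^ 2 :=
    mul_le_mul_of_nonneg_left (by linarith) hcc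
  linarith

/-! ### The linearised equation -/

theorem lin_facts (hLINU : T_LINU) (hKREP : T_KREP) (hKER : T_KER) {f : ℝ → ℝ} {K : ℝ}
    {U : Set (E N)} {u : ℝ → E N → ℝ} (hS : Stg f K U u) :
    Pt K (pot f u) ∧ ∃ C ≥ 1, (∀ t ≥ 1, ∀ x, gr u t x ≤ C ∧ |dt u t x| ≤ C) ∧
      (∀ t ≥ 1, ∀ (v : E N) (c : ℝ), Measurable (fun x => dx u v t x + c * dt u t x)) ∧
      ∀ s s', 1 ≤ s → s < s' → ∀ (v : E N) (c : ℝ) (x : E N),
        dx u v s' x + c * dt u s' x =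
          ∫ y, gk (pot f u) s' x s y * (dx u v s y + c * dt u s y) := by
  obtain ⟨hPt, -, hLin, C, hC⟩ := hLINU N f K U u hS.reac hS.lip hS.sol
  have hm : ∀ t ≥ 1, (∀ v, Measurable (dx u v t)) ∧ Measurable (dt u t) := fun t ht =>
    ⟨fun v => ((hLin t (t + 1) (by linarith) (by linarith)).1 v).meas,
      (hLin t (t + 1) (by linarith) (by linarith)).2.meas⟩
  refine ⟨hPt, max C 1, le_max_right _ _, fun t ht x => ⟨(hC t ht x).1.trans (le_max_left _ _),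
    (hC t ht x).2.1.trans (le_max_left _ _)⟩, fun t ht v c => ((hm t ht).1 v).add
    ((hm t ht).2.const_mul c), fun s s' hs hss v c x => ?_⟩
  have hl := hLin s s' (by linarith) hss
  have r1 := hKREP N K s s' (pot f u) (dx u v) hPt (hl.1 v) s s' le_rfl hss le_rfl x
  have r2 := hKREP N K s s' (pot f u) (dt u) hPt hl.2 s s' le_rfl hss le_rfl x
  have b1 : ∀ y, |dx u v s y| ≤ ‖v‖ * C := fun y => by
    have h1 := (fderiv ℝ (u s) y).le_opNorm v
    rw [Real.norm_eq_abs] at h1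
    calc |dx u v s y| ≤ ‖fderiv ℝ (u s) y‖ * ‖v‖ := h1
      _ = ‖v‖ * gr u s y := by unfold gr; ring
      _ ≤ ‖v‖ * C := mul_le_mul_of_nonneg_left (hC s hs y).1 (norm_nonneg v)
  have i1 := Pool.Agent.H3.RF.gk_int hKER hPt hss x ((hm s hs).1 v) b1
  have i2 := Pool.Agent.H3.RF.gk_int hKER hPt hss x (hm s hs).2 (fun y => (hC s hs y).2.1)
  have e1 : (fun y => gk (pot f u) s' x s y * (dx u v s y + c * dt u s y)) =
      fun y => gk (pot f u) s' x s y * dx u v s y + c * (gk (pot f u) s' x s y * dt u s y) := by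
    funext y; ring
  rw [e1, integral_add i1 (i2.const_mul c), integral_const_mul, r1, r2]

/-- the vector `v` with `M' p - F_a = ∂_v u + u_t` -/
noncomputable def qv (cc M' : ℝ) (e a : E N) : E N :=
  (cc * (1 - ‖a‖ ^ 2) - M') • e - (2 * cc) • a

theorem qv_eq (u : ℝ → E N → ℝ) (cc M' : ℝ) (e a : E N) (t : ℝ) (x : E N) :
    M' * -dx u e t x - Fa u cc e a t x = dx u (qv cc M' e a) t x + 1 * dt u t x := by
  unfold Fa qv dx
  rw [map_sub, map_smul, map_smul, smul_eq_mul, smul_eq_mul]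
  ring

theorem norm_qv {cc M' : ℝ} {e a : E N} (hcc : 0 ≤ cc) (hM : 0 ≤ M') (he : ‖e‖ = 1) :
    ‖qv cc M' e a‖ ≤ cc * (1 + ‖a‖ ^ 2) + M' + 2 * cc * ‖a‖ := by
  unfold qv
  refine (norm_sub_le _ _).trans ?_
  rw [norm_smul, norm_smul, he, mul_one, Real.norm_eq_abs, Real.norm_eq_abs,
    abs_of_nonneg (by positivity : 0 ≤ 2 * cc)]
  have : |cc * (1 - ‖a‖ ^ 2) - M'| ≤ cc * (1 + ‖a‖ ^ 2) + M' := by
    have h : 0 ≤ cc * ‖a‖ ^ 2 := by positivity
    rw [abs_le]; constructor <;> linarith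
  linarith

theorem abs_dx_le' (u : ℝ → E N → ℝ) (v : E N) (t : ℝ) (x : E N) :
    |dx u v t x| ≤ ‖v‖ * gr u t x := by
  have h1 := (fderiv ℝ (u t) x).le_opNorm v
  rw [Real.norm_eq_abs] at h1
  unfold dx gr
  linarith

/-- lower bounds of `p` -/
theorem frm_ev {U : Set (E N)} {u : ℝ → E N → ℝ} {cc C0 C9 η0 : ℝ} (hF : Frm U u cc C0 C9 η0)
    {b : ℝ} (hb : 0 < b) : Ev U cc (fun t x e => Real.exp (-(b * t)) ≤ -dx u e t x) := by
  have hC9 : 0 < C9 := by linarith [hF.hC9]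
  obtain ⟨T, hT, h⟩ := hF.low (b / 2) (by positivity)
  refine ⟨min η0 (b / (2 * C9)), lt_min hF.hη0 (by positivity), T, hT, fun t ht x e hn hd => ?_⟩
  have ht0 : 0 < t := hT.trans_le ht
  have h1 := h t ht x e (NDir.mono hn (min_le_left _ _))
    (hd.trans (mul_le_mul_of_nonneg_right (min_le_left _ _) ht0.le))
  refine le_trans (Real.exp_le_exp.2 ?_) h1
  have h2 : |infDist x U - cc * t| ≤ b / (2 * C9) * t :=
    hd.trans (mul_le_mul_of_nonneg_right (min_le_right _ _) ht0.le)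
  have h3 : C9 * |infDist x U - cc * t| ≤ C9 * (b / (2 * C9) * t) :=
    mul_le_mul_of_nonneg_left h2 hC9.le
  have h4 : C9 * (b / (2 * C9) * t) = b / 2 * t := by field_simp
  linarith

theorem frm_evp {U : Set (E N)} {u : ℝ → E N → ℝ} {cc C0 C9 η0 : ℝ} (hF : Frm U u cc C0 C9 η0) :
    Ev U cc (fun t x e => 0 < -dx u e t x ∧ gr u t x ≤ C0 * -dx u e t x) := by
  obtain ⟨T, hT, h⟩ := hF.pos
  exact ⟨η0, hF.hη0, T, hT, fun t ht x e hn hd => h t ht x e hn hd⟩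

/-! ### The region ahead -/

/-- in the wake of a faster front `F_a ≤ 0` -/
theorem W_neg {U : Set (E N)} {u : ℝ → E N → ℝ} {cc : ℝ} (hcc : 0 < cc) (hW : AheadW U u cc) :
    ∃ w > 0, ∃ ηW > 0, ∀ ω > 0, ∃ T > 0, ∀ t ≥ T, ∀ y e, NDir U w y e →
      (cc + ω) * t ≤ infDist y U → infDist y U ≤ (cc + ηW) * t →
      0 < -dx u e t y ∧ ∀ a, inner ℝ a e = 0 → Fa u cc e a t y ≤ 0 := by
  obtain ⟨κ, hκ, ηW, hηW, h⟩ := hW
  set w : ℝ := min (1 / 4) (κ / (5 * cc + 2 * κ)) with hw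
  have hw0 : 0 < w := by rw [hw]; positivity
  have hw1 : w ≤ 1 / 4 := min_le_left _ _
  have hw2 : w * (5 * cc + 2 * κ) ≤ κ := by
    have := min_le_right (1 / 4 : ℝ) (κ / (5 * cc + 2 * κ))
    rwa [← hw, le_div_iff₀ (by positivity)] at this
  refine ⟨w, hw0, ηW, hηW, fun ω hω => ?_⟩
  obtain ⟨T, hT, h⟩ := h w hw0 ω hω
  refine ⟨T, hT, fun t ht y e hn h1 h2 => ?_⟩
  obtain ⟨he, ξ, e0, hD, hee⟩ := hn
  obtain ⟨p0, hg, hd⟩ := h t ht y ξ e0 hD h1 h2
  set q := -dx u e0 t y with hq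
  have hgr0 : 0 ≤ gr u t y := norm_nonneg _
  have h3 : |dx u (e - e0) t y| ≤ w * gr u t y :=
    (abs_dx_le' u _ t y).trans (mul_le_mul_of_nonneg_right hee hgr0)
  have h4 : -dx u e t y = q - dx u (e - e0) t y := by
    rw [hq]; unfold dx; rw [map_sub]; ring
  have h5 : w * gr u t y ≤ w * ((1 + w) * q) := mul_le_mul_of_nonneg_left hg hw0.le
  have h6 : (1 - 2 * w) * q ≤ -dx u e t y := by
    rw [h4]
    have h7 := (abs_le.1 h3).2
    have h8 : w * (w * q) ≤ 1 * (w * q) := mul_le_mul_of_nonneg_right (by linarith) (by positivity)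
    linarith
  have h7 : 0 < -dx u e t y := lt_of_lt_of_le (mul_pos (by linarith) p0) h6
  refine ⟨h7, fun a ha => ?_⟩
  have h8 := Fa_mul_le (u := u) (cc := cc) (e := e) (a := a) (t := t) (x := y) hcc.le he ha
  have h9 : cc * gr u t y ^ 2 ≤ cc * ((1 + w) * q) ^ 2 :=
    mul_le_mul_of_nonneg_left (pow_le_pow_left₀ hgr0 hg 2) hcc.le
  have h10 : (cc + κ) * q * ((1 - 2 * w) * q) ≤ dt u t y * -dx u e t y :=
    mul_le_mul hd h6 (mul_nonneg (by linarith) p0.le) (le_trans (by positivity) hd)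
  have h11 : cc * ((1 + w) * q) ^ 2 ≤ (cc + κ) * q * ((1 - 2 * w) * q) := by
    have h12 : cc * ((1 + w) * q) ^ 2 = (cc * (1 + w) ^ 2) * q ^ 2 := by ring
    have h13 : (cc + κ) * q * ((1 - 2 * w) * q) = ((cc + κ) * (1 - 2 * w)) * q ^ 2 := by ring
    rw [h12, h13]
    refine mul_le_mul_of_nonneg_right ?_ (sq_nonneg _)
    have h14 : cc * (1 + w) ^ 2 ≤ cc * (1 + 3 * w) := by
      refine mul_le_mul_of_nonneg_left ?_ hcc.le
      have h15 : w * w ≤ 1 * w := mul_le_mul_of_nonneg_right (by linarith) hw0.le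
      linarith
    linarith
  have h12 : Fa u cc e a t y * -dx u e t y ≤ 0 := by linarith
  by_contra hcon
  have : 0 < Fa u cc e a t y * -dx u e t y := mul_pos (not_le.1 hcon) h7
  linarith

/-- the integral over the region ahead, compensated by `q` -/
theorem PAW_int (hNSUP : T_NSUP) (hKER : T_KER) (N : ℕ) (K ρ δ Mb M : ℝ) (hK : 0 < K)
    (hMb : 1 ≤ Mb) (hM : 0 < M) (hρ : 0 < ρ) (hδ : 0 < δ) (hsm : 16 * δ * (K * δ + 3) ≤ ρ ^ 2) :
    ∃ T > 0, ∀ t ≥ T, ∀ (V : ℝ → E N → ℝ) (p q : E N → ℝ) (A : Set (E N)) (τ s : ℝ) (x : E N),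
      Pt K V → Measurable p → Measurable q → MeasurableSet A → (∀ y, |p y| ≤ Mb ∧ |q y| ≤ Mb) →
      0 < s → s ≤ δ * t → (∀ y, dist y x ≤ ρ * t → 0 ≤ q y) →
      (∀ y ∈ A, dist y x ≤ ρ * t → M * p y ≤ q y) →
      M * ∫ y, gk V τ x (τ - s) y * A.indicator (fun y => max (p y) 0) y ≤
        (∫ y, gk V τ x (τ - s) y * q y) + Real.exp (-(2 * t)) := by
  have hsm' : 16 * δ * (K * δ + 2 + 1) ≤ ρ ^ 2 := by
    have : K * δ + 2 + 1 = K * δ + 3 := by ring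
    rw [this]; exact hsm
  obtain ⟨T, hT, h⟩ := hNSUP N K (M * Mb + Mb) ρ δ 2 hK (by positivity) hρ hδ (by norm_num) hsm'
  refine ⟨T, hT, fun t ht V p q A τ s x hV hp hq hA hb hs hst hq0 hqA => ?_⟩
  have hlt : τ - s < τ := by linarith
  set g1 : E N → ℝ := A.indicator (fun y => max (p y) 0) with hg1
  have hg1m : Measurable g1 := (hp.max measurable_const).indicator hA
  have hg1b : ∀ y, 0 ≤ g1 y ∧ g1 y ≤ Mb := fun y => by
    by_cases hy : y ∈ A
    · rw [hg1, indicator_of_mem hy]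
      exact ⟨le_max_right _ _, max_le ((le_abs_self _).trans (hb y).1) (by linarith)⟩
    · rw [hg1, indicator_of_notMem hy]
      exact ⟨le_rfl, by linarith⟩
  have hg1a : ∀ y, |g1 y| ≤ Mb := fun y => by rw [abs_of_nonneg (hg1b y).1]; exact (hg1b y).2
  set r : E N → ℝ := fun y => max (M * g1 y - q y) 0 with hr
  have hrm : Measurable r := ((hg1m.const_mul M).sub hq).max measurable_const
  have hrb : ∀ y, |r y| ≤ M * Mb + Mb := fun y => by
    rw [hr]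
    simp only
    rw [abs_of_nonneg (le_max_right _ _)]
    refine max_le ?_ (by positivity)
    have h1 : M * g1 y ≤ M * Mb := mul_le_mul_of_nonneg_left (hg1b y).2 hM.le
    have h2 := (abs_le.1 (hb y).2).1
    linarith
  have hr0 : ∀ y, dist y x ≤ ρ * t → r y = 0 := fun y hy => by
    rw [hr]
    refine max_eq_right ?_
    have h1 := hq0 y hy
    by_cases hyA : y ∈ A
    · have h2 := hqA y hyA hy
      rw [hg1, indicator_of_mem hyA, mul_max_of_nonneg _ _ hM.le, mul_zero]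
      have : max (M * p y) 0 ≤ q y := max_le h2 h1
      linarith
    · rw [hg1, indicator_of_notMem hyA]; linarith
  have h1 := h t ht V r τ s x hV hrm hrb hs hst hr0
  have i1 : Integrable (fun y => gk V τ x (τ - s) y * g1 y) :=
    Pool.Agent.H3.RF.gk_int hKER hV hlt x hg1m hg1a
  have i2 : Integrable (fun y => gk V τ x (τ - s) y * q y) :=
    Pool.Agent.H3.RF.gk_int hKER hV hlt x hq (fun y => (hb y).2)
  have i3 : Integrable (fun y => gk V τ x (τ - s) y * r y) :=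
    Pool.Agent.H3.RF.gk_int hKER hV hlt x hrm hrb
  have h2 : M * ∫ y, gk V τ x (τ - s) y * g1 y ≤
      ∫ y, (gk V τ x (τ - s) y * q y + gk V τ x (τ - s) y * r y) := by
    rw [← integral_const_mul]
    refine integral_mono (i1.const_mul M) (i2.add i3) fun y => ?_
    have h3 : M * g1 y ≤ q y + r y := by
      have : M * g1 y - q y ≤ r y := le_max_left _ _
      linarith
    have h4 := mul_le_mul_of_nonneg_left h3 (Pool.Agent.H3.RF.gk_nonneg hKER hV hlt x y)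
    simp only
    linarith
  rw [integral_add i2 i3] at h2
  linarith [le_abs_self (∫ y, gk V τ x (τ - s) y * r y)]

/-- the region ahead in the case of exponential decay -/
theorem PA_D (hP0A : T_P0A) (hLINU : T_LINU) {f : ℝ → ℝ} {K cc lo hi C0 C9 η0 : ℝ}
    {U : Set (E N)} {u : ℝ → E N → ℝ} (hS : Stg f K U u) (hM : Mac U u cc lo hi)
    (hF : Frm U u cc C0 C9 η0) (hlo : 4 * fp f lo ≤ cc ^ 2) (hhi : fp f hi ≤ 0)
    (hD : AheadD U u cc) :
    ∃ a1 > 0, ∀ θ, 0 < θ → θ ≤ a1 → Ev U cc (fun t x0 e =>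
      ∀ s ∈ Icc (θ ^ 4 * t / 2) (θ ^ 4 * t),
        ∫ y, gk (pot f u) t x0 (t - s) y *
          {y | cc * (t - s) + θ ^ 5 * t ≤ infDist x0 U + inner ℝ (y - x0) e}.indicator
            (fun y => max (-dx u e (t - s) y) 0) y ≤
        Real.exp (-(θ ^ 6 * t / 16)) * -dx u e t x0) := by
  have hcc := hM.cpos
  obtain ⟨a0, ha0, L, hL, hP⟩ := hP0A N f K cc lo hi C0 C9 η0 U u hS hM hF hlo hhi
  obtain ⟨ηD, hηD, hD⟩ := hD
  obtain ⟨-, -, hLin, C, hC⟩ := hLINU N f K U u hS.reac hS.lip hS.sol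
  obtain ⟨a2, ha2, h2⟩ := exists_small (L + cc + ηD) (ηD / 2) (by positivity)
  refine ⟨min (min a0 a2) (1 / 2), by positivity, fun θ hθ hθ1 => ?_⟩
  have hθa : θ ≤ a0 := hθ1.trans ((min_le_left _ _).trans (min_le_left _ _))
  have hθb : θ ≤ a2 := hθ1.trans ((min_le_left _ _).trans (min_le_right _ _))
  have hθc : θ ≤ 1 / 2 := hθ1.trans (min_le_right _ _)
  have hpow4 : θ ^ 4 ≤ θ := pow_le_of_le_one hθ.le (by linarith) (by norm_num)
  have hθ4 : 0 < θ ^ 4 := by positivity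
  obtain ⟨η1, hη1, ε, hε, T1, hT1, hP1⟩ := hP θ hθ hθa (max C 1) (le_max_right _ _)
  obtain ⟨T2, hT2, hD2⟩ := hD ε hε
  have hlow := frm_ev hF (b := θ ^ 6 / 16) (by positivity)
  have hsm : (L + cc + ηD) * θ ^ 4 ≤ ηD / 2 :=
    (mul_le_mul_of_nonneg_left hpow4 (by positivity)).trans (h2 θ hθ hθb)
  have hmain : Ev U cc (fun t x0 e => (NDir U (min η1 (ηD / 2)) x0 e ∧
      |infDist x0 U - cc * t| ≤ (min η1 (ηD / 2)) * t) ∧ max T1 (2 * T2 + 2) ≤ t ∧
      Real.exp (-(θ ^ 6 / 16 * t)) ≤ -dx u e t x0) :=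
    (Ev.near U cc (by positivity)).and ((Ev.time U cc _).and hlow)
  refine hmain.mono ?_
  rintro t x0 e ⟨⟨hn, hd⟩, ht, hp⟩ s hs
  have ht1 : T1 ≤ t := (le_max_left _ _).trans ht
  have ht2 : 2 * T2 + 2 ≤ t := (le_max_right _ _).trans ht
  have ht0 : 0 < t := by linarith
  have hθ4' : θ ^ 4 ≤ 1 / 2 := hpow4.trans hθc
  have hs1 : s ≤ t / 2 := by
    have := mul_le_mul_of_nonneg_right hθ4' ht0.le
    linarith [hs.2]
  have hs0 : 0 < s := lt_of_lt_of_le (by positivity) hs.1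
  have he : ‖e‖ = 1 := hn.1
  have hg0 : ∀ y, -dx u e (t - s) y ≤ gr u (t - s) y := fun y =>
    (neg_le_abs _).trans (abs_dx_le u e he _ y)
  have hmeas : Measurable (fun y => max (-dx u e (t - s) y) 0) :=
    (((hLin (t - s) (t - s + 1) (by linarith) (by linarith)).1 e).meas.neg).max measurable_const
  have h3 := hP1 t ht1 x0 e (NDir.mono hn (min_le_left _ _))
    (hd.trans (mul_le_mul_of_nonneg_right (min_le_left _ _) ht0.le)) s hs
    (fun y => max (-dx u e (t - s) y) 0) hmeas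
    (fun y => ⟨le_max_right _ _, max_le ((hg0 y).trans ((hC (t - s) (by linarith) y).1.trans
      (le_max_left _ _))) (by positivity)⟩) ?_
  · refine h3.trans ?_
    have h4 : Real.exp (-(θ ^ 6 * t / 8)) =
        Real.exp (-(θ ^ 6 * t / 16)) * Real.exp (-(θ ^ 6 / 16 * t)) := by
      rw [← Real.exp_add]; ring_nf
    rw [h4]
    exact mul_le_mul_of_nonneg_left hp (Real.exp_pos _).le
  · intro y hy hy1
    have h4 : infDist y U ≤ (cc + ηD) * (t - s) := by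
      have h5 : infDist y U ≤ infDist x0 U + dist y x0 := infDist_le_infDist_add_dist
      have h6 := (abs_le.1 hd).2
      have h7 : min η1 (ηD / 2) * t ≤ ηD / 2 * t :=
        mul_le_mul_of_nonneg_right (min_le_right _ _) ht0.le
      have h8 : (L + cc + ηD) * θ ^ 4 * t ≤ ηD / 2 * t := mul_le_mul_of_nonneg_right hsm ht0.le
      have h9 : (cc + ηD) * s ≤ (cc + ηD) * (θ ^ 4 * t) :=
        mul_le_mul_of_nonneg_left hs.2 (by positivity)
      linarith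
    have h5 := hD2 (t - s) (by linarith) y hy1 h4
    have h6 : ε * (t - s) ≤ ε * t := mul_le_mul_of_nonneg_left (by linarith) hε.le
    refine max_le ?_ (Real.exp_pos _).le
    refine (hg0 y).trans (le_trans ?_ (h5.trans (Real.exp_le_exp.2 (by linarith))))
    linarith [abs_nonneg (dt u (t - s) y)]

end Pool.Agent.H81.RF
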