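import Pool.Agent.H81.RF.KIN0

/-!
# The K-inequality: the region ahead
-/

open MeasureTheory Set Filter Topology Metric
open Pool.Agent.H29.TF (hk P)
open Pool.Agent.H91.RD Pool.Agent.H91.RF
open Pool.Agent.H24.RF (exp_large exists_small NDir.mono dx_neg abs_dx_le)

namespace Pool.Agent.H81.RF

variable {N : ℕ}

/-- final arithmetic -/
theorem fin_arith {g δ θ β η t Mb nS lp d0 cc κ qp B1 B2 PA : ℝ} (hg : 0 < g) (ht : 0 < t)
    (hθ : 0 < θ) (hβ : 0 ≤ β) (hδ : δ = θ ^ 4)
    (h : lp + β * (d0 - cc * t) + g * nS - κ * nS * qp ≤ B1 + B2 * PA + 1)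
    (h1 : -(θ ^ 6 * t / 16) ≤ lp) (h2 : |d0 - cc * t| ≤ η * t) (h3 : δ * t / 2 ≤ nS)
    (h4 : κ * qp ≤ g / 4) (h5 : B1 = Real.log Mb + β * θ ^ 5 * t)
    (h6 : B2 * PA ≤ g * δ * t / 16 + 1) (h7 : θ ^ 2 ≤ g / 2) (h8 : β * θ ≤ g / 64)
    (h9 : β * η ≤ g * δ / 32) (h10 : Real.log Mb + 2 < g * δ * t / 8) : False := by
  have hδ0 : 0 < δ := by rw [hδ]; positivity
  have hδt : 0 < δ * t := mul_pos hδ0 ht
  have hX : 0 < g * (δ * t) := mul_pos hg hδt
  have hnS : 0 < nS := lt_of_lt_of_le (by linarith) h3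
  have e1 : κ * nS * qp ≤ g / 4 * nS := by
    have := mul_le_mul_of_nonneg_right h4 hnS.le
    linarith
  have e2 : g * (δ * t / 2) ≤ g * nS := mul_le_mul_of_nonneg_left h3 hg.le
  have e3 : θ ^ 6 * t / 16 ≤ g * (δ * t) / 32 := by
    have h11 : θ ^ 6 * t / 16 = θ ^ 2 * (δ * t) / 16 := by rw [hδ]; ring
    have h12 : θ ^ 2 * (δ * t) ≤ g / 2 * (δ * t) := mul_le_mul_of_nonneg_right h7 hδt.le
    rw [h11]; linarith
  have e4 : β * θ ^ 5 * t ≤ g * (δ * t) / 64 := by
    have h11 : β * θ ^ 5 * t = β * θ * (δ * t) := by rw [hδ]; ring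
    have h12 : β * θ * (δ * t) ≤ g / 64 * (δ * t) := mul_le_mul_of_nonneg_right h8 hδt.le
    rw [h11]; linarith
  have e5 : -(g * (δ * t) / 32) ≤ β * (d0 - cc * t) := by
    have h11 := (abs_le.1 h2).1
    have h12 : β * -(η * t) ≤ β * (d0 - cc * t) := mul_le_mul_of_nonneg_left h11 hβ
    have h13 : β * η * t ≤ g * δ / 32 * t := mul_le_mul_of_nonneg_right h9 ht.le
    linarith
  have e6 : g * δ * t = g * (δ * t) := by ring
  rw [e6] at h6 h10
  linarith

/-- the region ahead contributes little (both cases) -/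
theorem ahead (hP0A : T_P0A) (hNSUP : T_NSUP) (hUPB : T_UPB) (hKREP : T_KREP) (hGEOB : T_GEOB)
    (hLINU : T_LINU) (hKER : T_KER) {f : ℝ → ℝ} {K cc lo hi C0 C9 η0 : ℝ}
    {U : Set (E N)} {u : ℝ → E N → ℝ} (hS : Stg f K U u) (hM : Mac U u cc lo hi)
    (hF : Frm U u cc C0 C9 η0) (hlo : 4 * fp f lo ≤ cc ^ 2) (hhi : fp f hi ≤ 0)
    (hAh : AheadD U u cc ∨ AheadW U u cc) {α M ε g c0 : ℝ} (hα : 0 ≤ α) (hM0 : 0 < M)
    (hε : 0 < ε) (hg : 0 < g) (hc0 : 0 ≤ c0) (hc : c0 * (3 * ε / M) ≤ g / 16)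
    (hP : Ev U cc (fun t x e => ∀ a, ‖a‖ = α → inner ℝ a e = 0 →
      Fa u cc e a t x ≤ (M + ε) * -dx u e t x)) :
    ∃ a1 > 0, ∀ θ, 0 < θ → θ ≤ a1 → Ev U cc (fun t x0 e => ∀ a, ‖a‖ = α → inner ℝ a e = 0 →
      (M + ε) * -dx u e t x0 - Fa u cc e a t x0 ≤ 3 * ε * -dx u e t x0 →
      ∀ s ∈ Icc (θ ^ 4 * t / 2) (θ ^ 4 * t), ∃ PA : ℝ,
        ∫ y, gk (pot f u) t x0 (t - s) y *
          {y | cc * (t - s) + θ ^ 5 * t ≤ infDist x0 U + inner ℝ (y - x0) e}.indicator
            (fun y => max (-dx u e (t - s) y) 0) y ≤ PA * -dx u e t x0 ∧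
        c0 * θ ^ 4 * t * PA ≤ g * θ ^ 4 * t / 16 + 1) := by
  have hcc := hM.cpos
  rcases hAh with hD | hW
  · obtain ⟨a1, ha1, h⟩ := PA_D hP0A hLINU hS hM hF hlo hhi hD
    refine ⟨a1, ha1, fun θ hθ hθ1 => ?_⟩
    obtain ⟨T, hT, hx⟩ := exp_large (c0 * θ ^ 4) (θ ^ 6 / 16) (by positivity)
    refine ((h θ hθ hθ1).and (Ev.time U cc T)).mono ?_
    rintro t x0 e ⟨h1, ht⟩ a _ _ _ s hs
    refine ⟨Real.exp (-(θ ^ 6 * t / 16)), h1 s hs, ?_⟩
    have ht0 : 0 < t := hT.trans_le ht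
    have h2 := hx t ht
    have h3 : c0 * θ ^ 4 * t ≤ Real.exp (θ ^ 6 * t / 16) := by
      have h4 : 0 ≤ c0 * θ ^ 4 := by positivity
      have h5 : θ ^ 6 / 16 * t = θ ^ 6 * t / 16 := by ring
      rw [h5] at h2
      linarith
    have h4 : c0 * θ ^ 4 * t * Real.exp (-(θ ^ 6 * t / 16)) ≤ 1 := by
      rw [Real.exp_neg]
      rw [← div_eq_mul_inv, div_le_one (Real.exp_pos _)]
      exact h3
    have h5 : 0 ≤ g * θ ^ 4 * t / 16 := by positivity
    linarith
  · obtain ⟨w, hw, ηW, hηW, hneg⟩ := W_neg hcc hW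
    obtain ⟨hPt, C, hC1, hCb, hmeas, hrep⟩ := lin_facts hLINU hKREP hKER hS
    have hK := hPt.K0
    obtain ⟨Cg, hCg, ρ0, hρ0, hgeo⟩ := hGEOB N U (cc / 2) (2 * cc) hS.condC hS.ne (by linarith)
      (by linarith)
    obtain ⟨ρ1, hρ1, T1, hT1, hbox⟩ := Ev.box hUPB hS.condC hS.ne hcc
      ((Ev.near U cc hw).and hP)
    set ρ : ℝ := min (min ρ0 ρ1) (ηW / 4) with hρd
    have hρ : 0 < ρ := by rw [hρd]; positivity
    have hρa : ρ ≤ ρ0 := (min_le_left _ _).trans (min_le_left _ _)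
    have hρb : ρ ≤ ρ1 := (min_le_left _ _).trans (min_le_right _ _)
    have hρc : ρ ≤ ηW / 4 := min_le_right _ _
    obtain ⟨a1, ha1, hs1⟩ := exists_small (cc + ηW) (ηW / 4) (by positivity)
    obtain ⟨a2, ha2, hs2⟩ := exists_small (16 * (K + 3)) (ρ ^ 2) (by positivity)
    refine ⟨min (min a1 a2) (min ρ (1 / 2)), by positivity, fun θ hθ hθ1 => ?_⟩
    have hθa : θ ≤ a1 := hθ1.trans ((min_le_left _ _).trans (min_le_left _ _))
    have hθb : θ ≤ a2 := hθ1.trans ((min_le_left _ _).trans (min_le_right _ _))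
    have hθc : θ ≤ ρ := hθ1.trans ((min_le_right _ _).trans (min_le_left _ _))
    have hθd : θ ≤ 1 / 2 := hθ1.trans ((min_le_right _ _).trans (min_le_right _ _))
    have hpow4 : θ ^ 4 ≤ θ := pow_le_of_le_one hθ.le (by linarith) (by norm_num)
    have hθ4 : 0 < θ ^ 4 := by positivity
    have hsm1 : (cc + ηW) * θ ^ 4 ≤ ηW / 4 :=
      (mul_le_mul_of_nonneg_left hpow4 (by positivity)).trans (hs1 θ hθ hθa)
    have hsm2 : 16 * θ ^ 4 * (K * θ ^ 4 + 3) ≤ ρ ^ 2 := by
      have h1 : K * θ ^ 4 + 3 ≤ K + 3 := by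
        have : K * θ ^ 4 ≤ K * 1 := mul_le_mul_of_nonneg_left (by linarith) hK.le
        linarith
      calc 16 * θ ^ 4 * (K * θ ^ 4 + 3) ≤ 16 * θ * (K + 3) :=
            mul_le_mul (by linarith) h1 (by positivity) (by positivity)
        _ = 16 * (K + 3) * θ := by ring
        _ ≤ _ := hs2 θ hθ hθb
    set Mb : ℝ := C * (cc * (1 + α ^ 2) + (M + ε) + 2 * cc * α + 2) with hMb
    have hMb1 : 1 ≤ Mb := by
      have h1 : 1 ≤ cc * (1 + α ^ 2) + (M + ε) + 2 * cc * α + 2 := by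
        have : 0 ≤ cc * (1 + α ^ 2) + (M + ε) + 2 * cc * α := by positivity
        linarith
      calc (1 : ℝ) = 1 * 1 := by ring
        _ ≤ _ := mul_le_mul hC1 h1 zero_le_one (by linarith)
    obtain ⟨T2, hT2, hint⟩ := PAW_int hNSUP hKER N K ρ (θ ^ 4) Mb M hK hMb1 hM0 hρ hθ4 hsm2
    obtain ⟨T3, hT3, hneg3⟩ := hneg (θ ^ 5 / 2) (by positivity)
    obtain ⟨η4, hη4, T4, hT4, hgeo4⟩ := hgeo ρ hρ hρa (θ ^ 5 / 2) (by positivity)
    obtain ⟨T5, hT5, hx5⟩ := exp_large (c0 * θ ^ 4 / M) 1 one_pos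
    refine ((Ev.near U cc (η := min (min η4 ρ1) (min (cc / 2) (ηW / 4))) (by positivity)).and
      ((Ev.time U cc (T1 + T2 + 2 * T3 + T4 + T5 + 2)).and
        (frm_ev hF one_pos))).mono ?_
    rintro t x0 e ⟨⟨hn, hd⟩, ht, hpx⟩ a ha hae hqx s hs
    have ht0 : 0 < t := by linarith
    have hηa : min (min η4 ρ1) (min (cc / 2) (ηW / 4)) ≤ η4 :=
      (min_le_left _ _).trans (min_le_left _ _)
    have hηb : min (min η4 ρ1) (min (cc / 2) (ηW / 4)) ≤ ρ1 :=
      (min_le_left _ _).trans (min_le_right _ _)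
    have hηc : min (min η4 ρ1) (min (cc / 2) (ηW / 4)) ≤ cc / 2 :=
      (min_le_right _ _).trans (min_le_left _ _)
    have hηd : min (min η4 ρ1) (min (cc / 2) (ηW / 4)) ≤ ηW / 4 :=
      (min_le_right _ _).trans (min_le_right _ _)
    have hd1 := hd.trans (mul_le_mul_of_nonneg_right hηb ht0.le)
    have hd2 := hd.trans (mul_le_mul_of_nonneg_right hηc ht0.le)
    have hd3 := hd.trans (mul_le_mul_of_nonneg_right hηd ht0.le)
    have he : ‖e‖ = 1 := hn.1
    have hs0 : 0 < s := lt_of_lt_of_le (by positivity) hs.1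
    have hsle : s ≤ θ ^ 4 * t := hs.2
    have hs12 : s ≤ t / 2 := by
      have := mul_le_mul_of_nonneg_right (hpow4.trans hθd) ht0.le
      linarith
    have hsρ : s ≤ ρ1 * t := hsle.trans (mul_le_mul_of_nonneg_right
      (hpow4.trans (hθc.trans hρb)) ht0.le)
    have hgeo' := hgeo4 t (by linarith) x0 e (NDir.mono hn hηa)
      (by linarith [(abs_le.1 hd2).1]) (by
        have := (abs_le.1 hd2).2
        have h1 : 0 < cc * t := by positivity
        linarith)
    have hbox' := hbox t (by linarith) x0 e (NDir.mono hn hηb) hd1 (t - s)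
      ⟨by linarith, by linarith⟩
    have hρt : ρ * t ≤ ρ1 * t := mul_le_mul_of_nonneg_right hρb ht0.le
    set p : E N → ℝ := fun y => -dx u e (t - s) y with hp
    set q : E N → ℝ := fun y => (M + ε) * -dx u e (t - s) y - Fa u cc e a (t - s) y with hq
    have hpe : ∀ τ y, -dx u e τ y = dx u (-e) τ y + 0 * dt u τ y := fun τ y => by
      rw [dx_neg]; ring
    have hts : 1 ≤ t - s := by linarith
    have hpm : Measurable p := by
      have := hmeas (t - s) hts (-e) 0
      simp only [← hpe] at this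
      exact this
    have hqe : ∀ τ y, (M + ε) * -dx u e τ y - Fa u cc e a τ y =
        dx u (qv cc (M + ε) e a) τ y + 1 * dt u τ y := fun τ y => qv_eq u cc (M + ε) e a τ y
    have hqm : Measurable q := by
      have := hmeas (t - s) hts (qv cc (M + ε) e a) 1
      simp only [← hqe] at this
      exact this
    have hpq : ∀ y, |p y| ≤ Mb ∧ |q y| ≤ Mb := fun y => by
      obtain ⟨c1, c2⟩ := hCb (t - s) hts y
      constructor
      · have h1 : |p y| ≤ C := by
          rw [hp]; simp only [abs_neg]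
          exact (abs_dx_le u e he _ y).trans c1
        refine h1.trans ?_
        rw [hMb]
        refine le_mul_of_one_le_right (by linarith) ?_
        have : 0 ≤ cc * (1 + α ^ 2) + (M + ε) + 2 * cc * α := by positivity
        linarith
      · have h1 : |q y| ≤ ‖qv cc (M + ε) e a‖ * C + C := by
          rw [hq]; simp only [hqe]
          refine (abs_add_le _ _).trans ?_
          have h2 := (abs_dx_le' u (qv cc (M + ε) e a) (t - s) y).trans
            (mul_le_mul_of_nonneg_left c1 (norm_nonneg _))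
          rw [one_mul]
          linarith
        have h2 := norm_qv (cc := cc) (M' := M + ε) (e := e) (a := a) hcc.le (by positivity) he
        rw [ha] at h2
        have h3 : ‖qv cc (M + ε) e a‖ * C ≤
            (cc * (1 + α ^ 2) + (M + ε) + 2 * cc * α) * C :=
          mul_le_mul_of_nonneg_right h2 (by linarith)
        refine h1.trans ?_
        rw [hMb]
        linarith
    have hAm : MeasurableSet {y : E N | cc * (t - s) + θ ^ 5 * t ≤
        infDist x0 U + inner ℝ (y - x0) e} :=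
      measurableSet_le measurable_const (by fun_prop)
    have hmain := hint t (by linarith) (pot f u) p q _ t s x0 hPt hpm hqm hAm hpq hs0 hsle ?_ ?_
    · refine ⟨(3 * ε + Real.exp (-t)) / M, ?_, ?_⟩
      · have h1 : ∫ y, gk (pot f u) t x0 (t - s) y * q y =
            (M + ε) * -dx u e t x0 - Fa u cc e a t x0 := by
          rw [hq]
          simp only [hqe]
          exact (hrep (t - s) t hts (by linarith) _ 1 x0).symm
        rw [h1] at hmain
        have h2 : Real.exp (-(2 * t)) ≤ Real.exp (-t) * -dx u e t x0 := by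
          rw [one_mul] at hpx
          calc Real.exp (-(2 * t)) = Real.exp (-t) * Real.exp (-t) := by
                rw [← Real.exp_add]; ring_nf
            _ ≤ _ := mul_le_mul_of_nonneg_left hpx (Real.exp_pos _).le
        rw [div_mul_eq_mul_div, le_div_iff₀ hM0]
        rw [mul_comm]
        linarith
      · have h1 := hx5 t (by linarith)
        rw [one_mul] at h1
        have h2 : c0 * θ ^ 4 / M * t ≤ Real.exp t := by
          have : 0 ≤ c0 * θ ^ 4 / M := by positivity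
          linarith
        have h3 : c0 * θ ^ 4 / M * t * Real.exp (-t) ≤ 1 := by
          rw [Real.exp_neg, ← div_eq_mul_inv, div_le_one (Real.exp_pos _)]
          exact h2
        have h4 : c0 * θ ^ 4 * t * ((3 * ε + Real.exp (-t)) / M) =
            c0 * (3 * ε / M) * (θ ^ 4 * t) + c0 * θ ^ 4 / M * t * Real.exp (-t) := by
          field_simp
        have h5 : c0 * (3 * ε / M) * (θ ^ 4 * t) ≤ g / 16 * (θ ^ 4 * t) :=
          mul_le_mul_of_nonneg_right hc (by positivity)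
        rw [h4]
        linarith
    · intro y hy
      have h1 := (hbox' y (hy.trans hρt)).2 a ha hae
      rw [hq]; simp only
      linarith
    · intro y hyA hy
      have hyA' : cc * (t - s) + θ ^ 5 * t ≤ infDist x0 U + inner ℝ (y - x0) e := hyA
      have h1 := (hgeo' y hy).1
      have h2 : θ ^ 5 / 2 * (t - s) ≤ θ ^ 5 / 2 * t :=
        mul_le_mul_of_nonneg_left (by linarith) (by positivity)
      have h3 : infDist y U ≤ (cc + ηW) * (t - s) := by
        have h4 : infDist y U ≤ infDist x0 U + dist y x0 := infDist_le_infDist_add_dist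
        have h5 := (abs_le.1 hd3).2
        have h6 : ρ * t ≤ ηW / 4 * t := mul_le_mul_of_nonneg_right hρc ht0.le
        have h7 : (cc + ηW) * s ≤ (cc + ηW) * (θ ^ 4 * t) :=
          mul_le_mul_of_nonneg_left hsle (by positivity)
        have h8 : (cc + ηW) * θ ^ 4 * t ≤ ηW / 4 * t := mul_le_mul_of_nonneg_right hsm1 ht0.le
        have h9 : 0 < ηW * t := by positivity
        linarith
      obtain ⟨h4, h5⟩ := hneg3 (t - s) (by linarith) y e (hbox' y (hy.trans hρt)).1.1
        (by linarith) h3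
      have h6 := h5 a hae
      rw [hp, hq]; simp only
      have h7 : 0 < ε * -dx u e (t - s) y := mul_pos hε h4
      linarith

end Pool.Agent.H81.RF
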