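import Pool.Agent.H81.RF.KIN1

/-!
# The K-inequality: improvement of the bound
-/

open MeasureTheory Set Filter Topology Metric
open Pool.Agent.H29.TF (hk P)
open Pool.Agent.H91.RD Pool.Agent.H91.RF
open Pool.Agent.H24.RF (exp_large exists_small NDir.mono dx_neg abs_dx_le)

namespace Pool.Agent.H81.RF

variable {N : ℕ}

/-- the bound `F_a ≤ M p` improves as long as `M > 0` -/
theorem kstep (hLIB : T_LIB) (hCHN : T_CHN) (hP0A : T_P0A) (hTRIV : T_TRIV) (hNSUP : T_NSUP)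
    (hUPB : T_UPB) (hKREP : T_KREP) (hGEOB : T_GEOB) (hLINU : T_LINU) (hKER : T_KER)
    {f : ℝ → ℝ} {K cc lo hi C0 C9 η0 : ℝ}
    {U : Set (E N)} {u : ℝ → E N → ℝ} (hS : Stg f K U u) (hMa : Mac U u cc lo hi)
    (hF : Frm U u cc C0 C9 η0) (hlo : 4 * fp f lo ≤ cc ^ 2) (hhi : fp f hi ≤ 0)
    (hAh : AheadD U u cc ∨ AheadW U u cc) (hAB : ABd U u cc) {α M : ℝ} (hα : 0 ≤ α) (hM0 : 0 < M)
    (hP : AtR U cc (fun ε t x e => ∀ a, ‖a‖ = α → inner ℝ a e = 0 →
      Fa u cc e a t x ≤ (M + ε) * -dx u e t x)) :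
    ∃ ε > 0, Ev U cc (fun t x e => ∀ a, ‖a‖ = α → inner ℝ a e = 0 →
      Fa u cc e a t x ≤ (M - ε) * -dx u e t x) := by
  have hcc := hMa.cpos
  obtain ⟨hPt, C, hC1, hCb, hmeas, hrep⟩ := lin_facts hLINU hKREP hKER hS
  have hK := hPt.K0
  set β : ℝ := (cc + cc * α ^ 2 + M) / 2 with hβ
  have hβ0 : 0 < β := by rw [hβ]; positivity
  set g : ℝ := cc * M / 4 with hg
  have hg0 : 0 < g := by rw [hg]; positivity
  obtain ⟨S, hS0, ηa, hηa, hLib⟩ := hLIB N f K cc C0 C9 η0 U u hS hcc hF hAB α hα M hM0 hP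
    (cc * M / 4) (by positivity)
  have hLibE : Ev U cc (fun t x e => ∀ a, ‖a‖ = α → inner ℝ a e = 0 →
      (M - ηa) * -dx u e t x ≤ Fa u cc e a t x →
      Real.log (-dx u e t x) + (cc * M / 2 - cc * M / 4) * S ≤
        Gn (pot f u) (fun y => max (-dx u e (t - S) y) 0) ((cc + cc * α ^ 2 + M) / 2) cc e S t
          x) := by
    obtain ⟨η, hη, T, hT, h⟩ := hLib
    exact ⟨η, hη, T, hT, fun t ht x e h1 h2 a h3 h4 h5 => h t ht x e a h1 h2 h3 h4 h5⟩
  obtain ⟨L, hL, hcore⟩ := core hCHN hNSUP hTRIV hKER N K β cc hS.N1 hK hβ0.le hcc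
  set κ : ℝ := (K + β ^ 2 + g) / ηa with hκ
  have hκ0 : 0 < κ := by rw [hκ]; positivity
  have hκη : K + β ^ 2 + g ≤ κ * ηa := by rw [hκ, div_mul_cancel₀ _ hηa.ne']
  set c0 : ℝ := β * (L + cc + 1) with hc0
  have hc00 : 0 < c0 := by rw [hc0]; positivity
  set ε : ℝ := min (g / (12 * κ)) (g * M / (48 * c0)) with hε
  have hε0 : 0 < ε := by rw [hε]; positivity
  have hε1 : κ * (3 * ε) ≤ g / 4 := by
    have h1 : ε ≤ g / (12 * κ) := min_le_left _ _
    rw [le_div_iff₀ (by positivity)] at h1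
    linarith
  have hε2 : c0 * (3 * ε / M) ≤ g / 16 := by
    have h1 : ε ≤ g * M / (48 * c0) := min_le_right _ _
    rw [le_div_iff₀ (by positivity)] at h1
    have h2 : c0 * (3 * ε / M) = c0 * (3 * ε) / M := by ring
    rw [h2, div_le_iff₀ hM0]
    linarith
  have hPe : Ev U cc (fun t x e => ∀ a, ‖a‖ = α → inner ℝ a e = 0 →
      Fa u cc e a t x ≤ (M + ε) * -dx u e t x) := hP ε hε0
  obtain ⟨a1, ha1, hA⟩ := ahead hP0A hNSUP hUPB hKREP hGEOB hLINU hKER hS hMa hF hlo hhi hAh hα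
    hM0 hε0 hg0 hc00.le hε2 hPe
  obtain ⟨ρ, hρ, T1, hT1, hbox⟩ := Ev.box hUPB hS.condC hS.ne hcc
    ((frm_ev hF one_pos).and (hPe.and hLibE))
  set Mb : ℝ := C * (cc * (1 + α ^ 2) + (M + ε) + 2 * cc * α + 2) with hMb
  have hMb1 : 1 ≤ Mb := by
    have h1 : 1 ≤ cc * (1 + α ^ 2) + (M + ε) + 2 * cc * α + 2 := by
      have : 0 ≤ cc * (1 + α ^ 2) + (M + ε) + 2 * cc * α := by positivity
      linarith
    calc (1 : ℝ) = 1 * 1 := by ring
      _ ≤ _ := mul_le_mul hC1 h1 zero_le_one (by linarith)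
  -- the choice of `θ`
  obtain ⟨b1, hb1, hs1⟩ := exists_small β (g / 64) (by positivity)
  obtain ⟨b2, hb2, hs2⟩ := exists_small L (ρ / 2) (by positivity)
  obtain ⟨b3, hb3, hs3⟩ := exists_small (16 * (K + 3)) ((ρ / 2) ^ 2) (by positivity)
  obtain ⟨θ, hθ, hθh, hθa, hθb1, hθb2, hθb3, hθg⟩ : ∃ θ > 0, θ ≤ 1 / 2 ∧ θ ≤ a1 ∧ θ ≤ b1 ∧ θ ≤ b2 ∧
      θ ≤ b3 ∧ θ ≤ g / 2 := by
    refine ⟨min (min (1 / 2) a1) (min (min b1 b2) (min b3 (g / 2))), by positivity,
      (min_le_left _ _).trans (min_le_left _ _), (min_le_left _ _).trans (min_le_right _ _),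
      (min_le_right _ _).trans ((min_le_left _ _).trans (min_le_left _ _)),
      (min_le_right _ _).trans ((min_le_left _ _).trans (min_le_right _ _)),
      (min_le_right _ _).trans ((min_le_right _ _).trans (min_le_left _ _)),
      (min_le_right _ _).trans ((min_le_right _ _).trans (min_le_right _ _))⟩
  have hθ1 : θ ≤ 1 := by linarith
  have hpow4 : θ ^ 4 ≤ θ := pow_le_of_le_one hθ.le hθ1 (by norm_num)
  have hpow2 : θ ^ 2 ≤ θ := pow_le_of_le_one hθ.le hθ1 (by norm_num)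
  set δ : ℝ := θ ^ 4 with hδ
  have hδ0 : 0 < δ := by rw [hδ]; positivity
  have hδ1 : δ ≤ 1 := hpow4.trans hθ1
  have hLδ : L * δ ≤ ρ / 2 :=
    (mul_le_mul_of_nonneg_left hpow4 (by linarith)).trans (hs2 θ hθ hθb2)
  have hδρ : δ ≤ ρ := by
    have : 1 * δ ≤ L * δ := mul_le_mul_of_nonneg_right hL hδ0.le
    linarith
  have hsm : 16 * δ * (K * δ + 3) ≤ (ρ / 2) ^ 2 := by
    have h1 : K * δ + 3 ≤ K + 3 := by
      have : K * δ ≤ K * 1 := mul_le_mul_of_nonneg_left hδ1 hK.le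
      linarith
    calc 16 * δ * (K * δ + 3) ≤ 16 * θ * (K + 3) :=
          mul_le_mul (by linarith) h1 (by positivity) (by positivity)
      _ = 16 * (K + 3) * θ := by ring
      _ ≤ _ := hs3 θ hθ hθb3
  have hβθ := hs1 θ hθ hθb1
  have hθ2 : θ ^ 2 ≤ g / 2 := hpow2.trans hθg
  obtain ⟨T2, hT2, hcore2⟩ := hcore δ S g κ ηa Mb ρ hδ0 hδ1 hS0 hg0 hκ0.le hηa hκη hMb1 hρ hLδ
    hδρ hsm
  set η : ℝ := min (min ρ δ) (g * δ / (32 * β)) with hη
  have hη0 : 0 < η := by rw [hη]; positivity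
  have hηρ : η ≤ ρ := (min_le_left _ _).trans (min_le_left _ _)
  have hηδ : η ≤ δ := (min_le_left _ _).trans (min_le_right _ _)
  have hηβ : β * η ≤ g * δ / 32 := by
    have h1 : η ≤ g * δ / (32 * β) := min_le_right _ _
    rw [le_div_iff₀ (by positivity)] at h1
    linarith
  set T3 : ℝ := (Real.log Mb + 3) / (g * δ / 8) with hT3
  refine ⟨2 * ε, by positivity, ?_⟩
  refine ((Ev.near U cc hη0).and ((hA θ hθ hθa).and ((frm_ev hF (b := θ ^ 6 / 16)
    (by positivity)).and ((frm_evp hF).and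
    (Ev.time U cc (max (T1 + T2 + 2) (max (2 * S / δ) T3))))))).mono ?_
  rintro t x0 e ⟨⟨hn, hd⟩, hA', hpl, ⟨hp0, -⟩, ht⟩ a ha hae
  by_contra hcon
  rw [not_le] at hcon
  have ht1 : T1 + T2 + 2 ≤ t := (le_max_left _ _).trans ht
  have ht2 : 2 * S / δ ≤ t := ((le_max_left _ _).trans (le_max_right _ _)).trans ht
  have ht3 : T3 ≤ t := ((le_max_right _ _).trans (le_max_right _ _)).trans ht
  have ht0 : 0 < t := by linarith
  have he : ‖e‖ = 1 := hn.1
  have hδh : δ ≤ 1 / 2 := hpow4.trans hθh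
  have hδt : δ * t ≤ 1 / 2 * t := mul_le_mul_of_nonneg_right hδh ht0.le
  have hδt0 : 0 < δ * t := mul_pos hδ0 ht0
  have hs1' : ∀ s ∈ Icc (t - δ * t) t, 1 ≤ s := fun s hs => by linarith [hs.1]
  -- number of steps
  set n : ℕ := ⌊δ * t / S⌋₊ with hnd
  have h2S : 2 * S ≤ δ * t := by
    rw [div_le_iff₀ hδ0] at ht2; linarith
  have hn1 : 1 ≤ n := by
    refine Nat.le_floor ?_
    rw [Nat.cast_one, le_div_iff₀ hS0]; linarith
  have hnS : n * S ≤ δ * t := by
    have := Nat.floor_le (a := δ * t / S) (by positivity)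
    rwa [le_div_iff₀ hS0] at this
  have hnS2 : δ * t / 2 ≤ n * S := by
    have := Nat.lt_floor_add_one (δ * t / S)
    rw [div_lt_iff₀ hS0] at this
    linarith
  have htn : t - n * S ∈ Icc (t - δ * t) t := ⟨by linarith, by linarith⟩
  have hqx : (M + ε) * -dx u e t x0 - Fa u cc e a t x0 ≤ 3 * ε * -dx u e t x0 := by linarith
  obtain ⟨PA, hPA1, hPA2⟩ := hA' a ha hae hqx (n * S) ⟨by linarith, hnS⟩
  have hd1 : |infDist x0 U - cc * t| ≤ ρ * t :=
    hd.trans (mul_le_mul_of_nonneg_right hηρ ht0.le)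
  have hd2 : |infDist x0 U - cc * t| ≤ δ * t :=
    hd.trans (mul_le_mul_of_nonneg_right hηδ ht0.le)
  have hbox' := hbox t (by linarith) x0 e (NDir.mono hn hηρ) hd1
  have hsρ : ∀ s ∈ Icc (t - δ * t) t, s ∈ Icc ((1 - ρ) * t) t := fun s hs => by
    have : δ * t ≤ ρ * t := mul_le_mul_of_nonneg_right hδρ ht0.le
    exact ⟨by linarith [hs.1], hs.2⟩
  have hball : ∀ y ∈ closedBall x0 (L * δ * t), dist y x0 ≤ ρ * t := fun y hy => by
    have h1 : dist y x0 ≤ L * δ * t := hy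
    have h2 : L * δ * t ≤ ρ / 2 * t := mul_le_mul_of_nonneg_right hLδ ht0.le
    have h3 : 0 < ρ * t := by positivity
    linarith
  have hAm : MeasurableSet {y : E N | cc * (t - n * S) + θ ^ 5 * t ≤
      infDist x0 U + inner ℝ (y - x0) e} := measurableSet_le measurable_const (by fun_prop)
  have hpe : ∀ τ y, -dx u e τ y = dx u (-e) τ y + 0 * dt u τ y := fun τ y => by
    rw [dx_neg]; ring
  have hqe : ∀ τ y, (M + ε) * -dx u e τ y - Fa u cc e a τ y =
      dx u (qv cc (M + ε) e a) τ y + 1 * dt u τ y := fun τ y => qv_eq u cc (M + ε) e a τ y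
  have hpM : ∀ s ∈ Icc (t - δ * t) t, ∀ y, |-dx u e s y| ≤ Mb := fun s hs y => by
    have h1 := (abs_dx_le u e he s y).trans (hCb s (hs1' s hs) y).1
    rw [abs_neg]
    refine h1.trans ?_
    rw [hMb]
    refine le_mul_of_one_le_right (by linarith) ?_
    have : 0 ≤ cc * (1 + α ^ 2) + (M + ε) + 2 * cc * α := by positivity
    linarith
  have hfin := hcore2 t (by linarith) (pot f u) (fun s y => -dx u e s y)
    (fun s y => (M + ε) * -dx u e s y - Fa u cc e a s y) x0 e _ (infDist x0 U)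
    (Real.log Mb + β * θ ^ 5 * t) (c0 * δ * t) PA n hn1 hnS he hPt hAm
    (hd2.trans (by linarith)) (by
      have := Real.log_nonneg hMb1
      positivity) (by positivity) ?_ ?_ ?_ ?_ ?_ ?_ hPA1
  · refine fin_arith (g := g) (δ := δ) (θ := θ) (β := β) (η := η) (t := t) (Mb := Mb)
      (nS := n * S) (lp := Real.log (-dx u e t x0)) (d0 := infDist x0 U) (cc := cc) (κ := κ)
      (qp := ((M + ε) * -dx u e t x0 - Fa u cc e a t x0) / -dx u e t x0)
      (B1 := Real.log Mb + β * θ ^ 5 * t) (B2 := c0 * δ * t) (PA := PA) hg0 ht0 hθ hβ0.le hδ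
      (by linarith) ?_ hd hnS2 ?_ rfl hPA2 hθ2 hβθ hηβ ?_
    · rw [Real.le_log_iff_exp_le hp0]
      refine le_trans (Real.exp_le_exp.2 (by linarith)) hpl
    · refine le_trans (mul_le_mul_of_nonneg_left ?_ hκ0.le) hε1
      rw [div_le_iff₀ hp0]; exact hqx
    · rw [hT3, div_le_iff₀ (by positivity)] at ht3
      linarith
  · intro s hs
    refine ⟨?_, ?_, fun y => ⟨hpM s hs y, ?_⟩⟩
    · have := hmeas s (hs1' s hs) (-e) 0
      simp only [← hpe] at this
      exact this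
    · have := hmeas s (hs1' s hs) (qv cc (M + ε) e a) 1
      simp only [← hqe] at this
      exact this
    · simp only [hqe]
      have c1 := hCb s (hs1' s hs) y
      have h2 := (abs_dx_le' u (qv cc (M + ε) e a) s y).trans
        (mul_le_mul_of_nonneg_left c1.1 (norm_nonneg _))
      have h3 := norm_qv (cc := cc) (M' := M + ε) (e := e) (a := a) hcc.le (by positivity) he
      rw [ha] at h3
      have h4 : ‖qv cc (M + ε) e a‖ * C ≤ (cc * (1 + α ^ 2) + (M + ε) + 2 * cc * α) * C :=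
        mul_le_mul_of_nonneg_right h3 (by linarith)
      refine (abs_add_le _ _).trans ?_
      rw [one_mul, hMb]
      linarith [c1.2]
  · intro s s' hs hss hs' x
    have h1 : 1 ≤ s := by linarith
    refine ⟨?_, ?_⟩
    · simp only [hpe]
      exact hrep s s' h1 hss (-e) 0 x
    · simp only [hqe]
      exact hrep s s' h1 hss (qv cc (M + ε) e a) 1 x
  · intro s hs y hy
    obtain ⟨h1, h2, h3⟩ := hbox' s (hsρ s hs) y hy
    refine ⟨le_trans (Real.exp_le_exp.2 (by linarith [hs.2])) h1, ?_⟩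
    have := h2 a ha hae
    linarith
  · intro s hs y hy hq
    obtain ⟨h1, h2, h3⟩ := hbox' s (hsρ s hs) y (hball y hy)
    have hp : 0 < -dx u e s y := (Real.exp_pos _).trans_le h1
    have h4 := h3 a ha hae (by
      have : 0 < ε * -dx u e s y := mul_pos hε0 hp
      linarith)
    have h5 : (cc * M / 2 - cc * M / 4) * S = g * S := by rw [hg]; ring
    rw [h5] at h4
    exact h4
  · refine le_trans (Real.exp_le_exp.2 ?_) hpl
    have h1 : θ ^ 6 / 16 ≤ δ := by
      have h2 : θ ^ 6 ≤ θ ^ 4 := pow_le_pow_of_le_one hθ.le hθ1 (by norm_num)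
      rw [hδ]; linarith [pow_pos hθ 4]
    have := mul_le_mul_of_nonneg_right h1 ht0.le
    linarith
  · intro y hy
    obtain ⟨h1, -, -⟩ := hbox' _ (hsρ _ htn) y (hball y hy)
    have hp : 0 < -dx u e (t - n * S) y := (Real.exp_pos _).trans_le h1
    have hlog : Real.log (-dx u e (t - n * S) y) ≤ Real.log Mb :=
      Real.log_le_log hp ((le_abs_self _).trans (hpM _ htn y))
    have hθ5 : 0 ≤ β * θ ^ 5 * t := by positivity
    by_cases hyA : cc * (t - n * S) + θ ^ 5 * t ≤ infDist x0 U + inner ℝ (y - x0) e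
    · right
      refine ⟨hyA, ?_⟩
      have h2 : inner ℝ (y - x0) e ≤ L * δ * t := by
        have h3 := real_inner_le_norm (y - x0) e
        rw [he, mul_one, ← dist_eq_norm] at h3
        exact h3.trans hy
      have h3 := (abs_le.1 hd2).2
      have h4 : cc * (n * S) ≤ cc * (δ * t) := mul_le_mul_of_nonneg_left hnS hcc.le
      have h5 : β * (infDist x0 U + inner ℝ (y - x0) e - cc * (t - n * S)) ≤
          β * ((L + cc + 1) * (δ * t)) := mul_le_mul_of_nonneg_left (by linarith) hβ0.le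
      have h6 : β * ((L + cc + 1) * (δ * t)) = c0 * δ * t := by rw [hc0]; ring
      linarith
    · left
      rw [not_le] at hyA
      have h5 : β * (infDist x0 U + inner ℝ (y - x0) e - cc * (t - n * S)) ≤
          β * (θ ^ 5 * t) := mul_le_mul_of_nonneg_left (by linarith) hβ0.le
      linarith

end Pool.Agent.H81.RF
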