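import Pool.Agent.H91.RF.TargetsF
import Pool.Agent.H29.TF.Heat

/-!
# MP_609556_an, part F: module KREP (representation of solutions by the kernel)
-/

open MeasureTheory Set Filter Topology Metric
open Pool.Agent.H29.TF (hk P hk_pos hk_nonneg measurable_hk_uncurry integrable_hk integral_hk
  integral_hk_sub integrable_hk_sub)
open Pool.Agent.H91.RD Pool.Agent.H91.RF

namespace Pool.Agent.H81.RF.KREP

/-- The measure on `(s,t] × ℝ^N`. -/
noncomputable abbrev mu (N : ℕ) (s t : ℝ) : Measure (ℝ × E N) :=
  (volume.restrict (Ioc s t)).prod volume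

lemma measurable_hk_comp {N : ℕ} (t : ℝ) (x : E N) :
    Measurable (fun p : ℝ × E N => hk (t - p.1) (x - p.2)) :=
  measurable_hk_uncurry.comp ((measurable_const.sub measurable_fst).prodMk
    (measurable_const.sub measurable_snd))

/-- almost every time is smaller than `t` -/
lemma ae_lt (s t : ℝ) : ∀ᵐ r ∂(volume.restrict (Ioc s t)), s < r ∧ r < t := by
  rw [ae_restrict_iff' measurableSet_Ioc]
  have h : ∀ᵐ r : ℝ ∂volume, r ≠ t := by
    rw [ae_iff]
    simp
  filter_upwards [h] with r hr hr2
  exact ⟨hr2.1, lt_of_le_of_ne hr2.2 hr⟩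

/-- The heat kernel is integrable on `(s,t] × ℝ^N`. -/
lemma integrable_hk_mu {N : ℕ} (s t : ℝ) (x : E N) :
    Integrable (fun p : ℝ × E N => hk (t - p.1) (x - p.2)) (mu N s t) := by
  rw [integrable_prod_iff (measurable_hk_comp t x).aestronglyMeasurable]
  refine ⟨?_, ?_⟩
  · filter_upwards [ae_lt s t] with r hr
    exact integrable_hk_sub (by linarith [hr.2]) x
  · have h : (fun r : ℝ => ∫ y : E N, ‖hk (t - r) (x - y)‖) =ᵐ[volume.restrict (Ioc s t)]
        fun _ => (1 : ℝ) := by
      filter_upwards [ae_lt s t] with r hr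
      rw [← integral_hk_sub (by linarith [hr.2] : 0 < t - r) x]
      refine integral_congr_ae (Eventually.of_forall fun y => ?_)
      exact Real.norm_of_nonneg (hk_nonneg (by linarith [hr.2]) _)
    exact (integrable_congr h).2 (integrable_const _)

/-- A bounded measurable function times the heat kernel is integrable. -/
lemma integrable_duh {N : ℕ} (s t : ℝ) (x : E N) {G : ℝ × E N → ℝ} (hG : Measurable G) {C : ℝ}
    (hC : ∀ p, |G p| ≤ C) :
    Integrable (fun p : ℝ × E N => hk (t - p.1) (x - p.2) * G p) (mu N s t) :=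
  (integrable_hk_mu s t x).mul_bdd hG.aestronglyMeasurable (Eventually.of_forall hC)

/-- The Duhamel integral as an integral over `(s,t] × ℝ^N`. -/
lemma duh_eq {N : ℕ} {s t : ℝ} (hst : s ≤ t) (x : E N) {G : ℝ × E N → ℝ} (hG : Measurable G)
    {C : ℝ} (hC : ∀ p, |G p| ≤ C) :
    ∫ r in s..t, ∫ w, hk (t - r) (x - w) * G (r, w) =
      ∫ p, hk (t - p.1) (x - p.2) * G p ∂(mu N s t) := by
  rw [intervalIntegral.integral_of_le hst]
  exact (integral_prod _ (integrable_duh s t x hG hC)).symm

theorem krep (h1 : T_KE1) (h2 : T_KE2) (h3 : T_KGR) (h4 : T_KBD) : T_KREP := by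
  intro N K a b V z hV hz s t has hst htb x
  have hab : s ≤ b := hst.le.trans htb
  obtain ⟨M, hM⟩ := hz.bdd
  have hM0 : 0 ≤ M := (abs_nonneg _).trans (hM s ⟨has, hab⟩ 0)
  have hK := hV.K0
  -- the datum at time `s`
  have hzs : Measurable (z s) := by
    rcases has.eq_or_lt with rfl | has'
    · exact hz.meas
    · have : Continuous (z s) := by
        rw [← continuousOn_univ]
        exact hz.cont.comp (f := fun y : E N => (s, y)) (by fun_prop)
          fun y _ => ⟨⟨has', hab⟩, mem_univ _⟩
      exact this.measurable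
  have hzsM : ∀ y, |z s y| ≤ M := hM s ⟨has, hab⟩
  -- the representation
  set Y : ℝ → E N → ℝ := fun t x => ∫ y, gk V t x s y * z s y with hY
  have hgk := (h1 N K V hV).2.2.2 s
  have hgk0 : ∀ r w y, s < r → 0 ≤ gk V r w s y := fun r w y hr =>
    (mul_nonneg (Real.exp_nonneg _) (hk_nonneg (by linarith) _)).trans (h4 N K V hV s r hr w y).1
  have hgk1 : ∀ r w y, s < r → gk V r w s y ≤ Real.exp (K * (r - s)) * hk (r - s) (w - y) :=
    fun r w y hr => (h4 N K V hV s r hr w y).2
  have hgm : ∀ r w, s < r → Measurable (fun y => gk V r w s y) := by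
    intro r w hr
    have h := hgk.comp (measurable_const.prodMk measurable_id : Measurable fun y : E N =>
      (((r, w) : ℝ × E N), y))
    have e : (fun y => gk V r w s y) = (fun p : (ℝ × E N) × E N =>
        if s < p.1.1 then gk V p.1.1 p.1.2 s p.2 else 0) ∘ fun y : E N => (((r, w) : ℝ × E N), y) := by
      funext y
      simp [hr]
    rw [e]
    exact h
  have hgi : ∀ r w, s < r → Integrable (fun y => gk V r w s y) := by
    intro r w hr
    refine ((integrable_hk_sub (by linarith : 0 < r - s) w).const_mul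
      (Real.exp (K * (r - s)))).mono' (hgm r w hr).aestronglyMeasurable
      (Eventually.of_forall fun y => ?_)
    rw [Real.norm_of_nonneg (hgk0 r w y hr)]
    exact hgk1 r w y hr
  have hgzi : ∀ r w, s < r → Integrable (fun y => gk V r w s y * z s y) := by
    intro r w hr
    exact (hgi r w hr).mul_bdd hzs.aestronglyMeasurable (Eventually.of_forall hzsM)
  have hint : ∀ r w, s < r → ∫ y, gk V r w s y * M ≤ Real.exp (K * (r - s)) * M := by
    intro r w hr
    rw [integral_mul_const]
    refine mul_le_mul_of_nonneg_right ?_ hM0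
    calc ∫ y, gk V r w s y ≤ ∫ y, Real.exp (K * (r - s)) * hk (r - s) (w - y) :=
          integral_mono (hgi r w hr) ((integrable_hk_sub (by linarith) w).const_mul _)
            fun y => hgk1 r w y hr
      _ = Real.exp (K * (r - s)) := by
          rw [integral_const_mul, integral_hk_sub (by linarith), mul_one]
  have hYb : ∀ r w, s < r → |Y r w| ≤ Real.exp (K * (r - s)) * M := by
    intro r w hr
    refine le_trans ?_ (hint r w hr)
    calc |Y r w| ≤ ∫ y, |gk V r w s y * z s y| := abs_integral_le_integral_abs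
      _ ≤ ∫ y, gk V r w s y * M := by
          refine integral_mono (hgzi r w hr).abs ((hgi r w hr).mul_const M) fun y => ?_
          simp only
          rw [abs_mul, abs_of_nonneg (hgk0 r w y hr)]
          exact mul_le_mul_of_nonneg_left (hzsM y) (hgk0 r w y hr)
  -- measurable versions on `(s, b]`
  set S : Set (ℝ × E N) := Ioc s b ×ˢ univ with hS
  have hSm : MeasurableSet S := measurableSet_Ioc.prod MeasurableSet.univ
  have hmemS : ∀ p : ℝ × E N, p ∈ S ↔ s < p.1 ∧ p.1 ≤ b := fun p => by simp [hS]
  set Gz : ℝ × E N → ℝ := S.indicator fun p => z p.1 p.2 with hGz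
  set GY : ℝ × E N → ℝ := S.indicator fun p => Y p.1 p.2 with hGY
  set G : ℝ × E N → ℝ := fun p => Gz p - GY p with hG
  have hVm := hV.meas
  have hGzm : Measurable Gz := by
    have hc : ContinuousOn (fun p : ℝ × E N => z p.1 p.2) S :=
      hz.cont.mono (prod_mono (Ioc_subset_Ioc has le_rfl) subset_rfl)
    classical
    have : Gz = S.piecewise (fun p : ℝ × E N => z p.1 p.2) fun _ => 0 := by
      rw [hGz]
      exact (Set.piecewise_eq_indicator (s := S) (f := fun p : ℝ × E N => z p.1 p.2)).symm
    rw [this]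
    exact hc.measurable_piecewise continuousOn_const hSm
  have hGYm : Measurable GY := by
    have hm : Measurable (fun p : (ℝ × E N) × E N =>
        (if s < p.1.1 then gk V p.1.1 p.1.2 s p.2 else 0) * z s p.2) :=
      hgk.mul (hzs.comp measurable_snd)
    have hm2 : Measurable (fun p : ℝ × E N => ∫ y, (if s < p.1 then gk V p.1 p.2 s y else 0) *
        z s y) := (hm.stronglyMeasurable.integral_prod_right (ν := volume)).measurable
    have : GY = S.indicator fun p : ℝ × E N => ∫ y, (if s < p.1 then gk V p.1 p.2 s y else 0) *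
        z s y := by
      funext p
      rw [hGY]
      by_cases hp : p ∈ S
      · rw [indicator_of_mem hp, indicator_of_mem hp]
        simp only [hY]
        refine integral_congr_ae (Eventually.of_forall fun y => ?_)
        simp [((hmemS p).1 hp).1]
      · rw [indicator_of_notMem hp, indicator_of_notMem hp]
    rw [this]
    exact hm2.indicator hSm
  have hGm : Measurable G := hGzm.sub hGYm
  have hGzb : ∀ p, |Gz p| ≤ M := by
    intro p
    by_cases hp : p ∈ S
    · rw [hGz, indicator_of_mem hp]
      exact hM _ ⟨has.trans ((hmemS p).1 hp).1.le, ((hmemS p).1 hp).2⟩ _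
    · rw [hGz, indicator_of_notMem hp, abs_zero]
      exact hM0
  have hGYb : ∀ p, |GY p| ≤ Real.exp (K * (b - s)) * M := by
    intro p
    by_cases hp : p ∈ S
    · rw [hGY, indicator_of_mem hp]
      refine (hYb _ _ ((hmemS p).1 hp).1).trans ?_
      refine mul_le_mul_of_nonneg_right (Real.exp_le_exp.2 ?_) hM0
      have := ((hmemS p).1 hp).2
      nlinarith
    · rw [hGY, indicator_of_notMem hp, abs_zero]
      positivity
  have hGb : ∀ p, |G p| ≤ M + Real.exp (K * (b - s)) * M := fun p =>
    (abs_sub _ _).trans (add_le_add (hGzb p) (hGYb p))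
  have hVzm : Measurable (fun p : ℝ × E N => V p.1 p.2 * Gz p) := hVm.mul hGzm
  have hVYm : Measurable (fun p : ℝ × E N => V p.1 p.2 * GY p) := hVm.mul hGYm
  have hVGm : Measurable (fun p : ℝ × E N => V p.1 p.2 * G p) := hVm.mul hGm
  have hVGb : ∀ {g : ℝ × E N → ℝ} {C : ℝ}, (∀ p, |g p| ≤ C) → ∀ p : ℝ × E N,
      |V p.1 p.2 * g p| ≤ K * C := by
    intro g C hg p
    rw [abs_mul]
    exact mul_le_mul (hV.bdd _ _) (hg p) (abs_nonneg _) hK.le
  -- Duhamel's formula for `Y`
  have hYd : ∀ τ, s < τ → τ ≤ b → ∀ ξ, Y τ ξ = P (τ - s) (z s) ξ +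
      ∫ p, hk (τ - p.1) (ξ - p.2) * (V p.1 p.2 * GY p) ∂(mu N s τ) := by
    intro τ hτ hτb ξ
    set Φ : (ℝ × E N) × E N → ℝ := fun q => hk (τ - q.1.1) (ξ - q.1.2) *
      (V q.1.1 q.1.2 * (if s < q.1.1 then gk V q.1.1 q.1.2 s q.2 else 0)) * z s q.2 with hΦ
    have hΦm : Measurable Φ := by
      refine Measurable.mul (Measurable.mul ?_ (Measurable.mul ?_ hgk)) (hzs.comp measurable_snd)
      · exact (measurable_hk_comp τ ξ).comp measurable_fst
      · exact hVm.comp measurable_fst
    have hΦe : ∀ r w y, s < r → Φ ((r, w), y) = hk (τ - r) (ξ - w) *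
        (V r w * gk V r w s y) * z s y := by
      intro r w y hr
      simp [hΦ, hr]
    have hae : ∀ᵐ p ∂(mu N s τ), s < p.1 ∧ p.1 < τ := by
      have := Measure.quasiMeasurePreserving_fst (μ := volume.restrict (Ioc s τ))
        (ν := (volume : Measure (E N)))
      exact this.ae (ae_lt s τ)
    have hΦi : Integrable Φ ((mu N s τ).prod volume) := by
      rw [integrable_prod_iff hΦm.aestronglyMeasurable]
      constructor
      · filter_upwards [hae] with p hp
        obtain ⟨r, w⟩ := p
        have : (fun y => Φ ((r, w), y)) = fun y => hk (τ - r) (ξ - w) * V r w *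
            (gk V r w s y * z s y) := by
          funext y
          rw [hΦe r w y hp.1]
          ring
        rw [this]
        exact (hgzi r w hp.1).const_mul _
      · refine ((integrable_hk_mu s τ ξ).mul_const (K * (Real.exp (K * (τ - s)) * M))).mono'
          (hΦm.norm.stronglyMeasurable.integral_prod_right (ν := volume)).aestronglyMeasurable ?_
        filter_upwards [hae] with p hp
        obtain ⟨r, w⟩ := p
        simp only at hp ⊢
        rw [Real.norm_of_nonneg (integral_nonneg fun y => norm_nonneg _)]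
        have hhk : 0 ≤ hk (τ - r) (ξ - w) := hk_nonneg (by linarith [hp.2]) _
        calc ∫ y, ‖Φ ((r, w), y)‖ ≤ ∫ y, hk (τ - r) (ξ - w) * K * (gk V r w s y * M) := by
              refine integral_mono_of_nonneg (Eventually.of_forall fun y => norm_nonneg _)
                (((hgi r w hp.1).mul_const M).const_mul _) (Eventually.of_forall fun y => ?_)
              simp only
              rw [hΦe r w y hp.1, Real.norm_eq_abs, abs_mul, abs_mul, abs_mul, abs_of_nonneg hhk,
                abs_of_nonneg (hgk0 r w y hp.1), mul_assoc, mul_assoc, mul_assoc]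
              refine mul_le_mul_of_nonneg_left ?_ hhk
              refine mul_le_mul (hV.bdd _ _) ?_ (mul_nonneg (hgk0 r w y hp.1) (abs_nonneg _)) hK.le
              exact mul_le_mul_of_nonneg_left (hzsM y) (hgk0 r w y hp.1)
          _ = hk (τ - r) (ξ - w) * K * ∫ y, gk V r w s y * M := integral_const_mul _ _
          _ ≤ hk (τ - r) (ξ - w) * K * (Real.exp (K * (r - s)) * M) :=
              mul_le_mul_of_nonneg_left (hint r w hp.1) (mul_nonneg hhk hK.le)
          _ ≤ hk (τ - r) (ξ - w) * (K * (Real.exp (K * (τ - s)) * M)) := by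
              rw [mul_assoc]
              refine mul_le_mul_of_nonneg_left (mul_le_mul_of_nonneg_left
                (mul_le_mul_of_nonneg_right (Real.exp_le_exp.2 ?_) hM0) hK.le) hhk
              nlinarith [hp.2]
    have e1 : ∀ᵐ y ∂(volume : Measure (E N)), gk V τ ξ s y * z s y = hk (τ - s) (ξ - y) * z s y +
        ∫ p, Φ (p, y) ∂(mu N s τ) := by
      filter_upwards [hΦi.prod_left_ae] with y hy
      rw [h2 N K V hV s τ hτ ξ y, add_mul]
      congr 1
      rw [intervalIntegral.integral_of_le hτ.le, ← integral_mul_const, integral_prod _ hy]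
      refine setIntegral_congr_fun measurableSet_Ioc fun r hr => ?_
      rw [← integral_mul_const]
      refine integral_congr_ae (Eventually.of_forall fun w => ?_)
      exact (hΦe r w y hr.1).symm
    have e2 : ∫ y, ∫ p, Φ (p, y) ∂(mu N s τ) =
        ∫ p, hk (τ - p.1) (ξ - p.2) * (V p.1 p.2 * GY p) ∂(mu N s τ) := by
      rw [← integral_integral_swap hΦi]
      refine integral_congr_ae ?_
      filter_upwards [hae] with p hp
      obtain ⟨r, w⟩ := p
      simp only at hp ⊢
      have hpS : ((r, w) : ℝ × E N) ∈ S := (hmemS _).2 ⟨hp.1, hp.2.le.trans hτb⟩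
      rw [hGY, indicator_of_mem hpS]
      simp only [hY]
      rw [← mul_assoc, ← integral_const_mul]
      refine integral_congr_ae (Eventually.of_forall fun y => ?_)
      simp only
      rw [hΦe r w y hp.1]
      ring
    rw [← e2]
    simp only [hY]
    rw [integral_congr_ae e1, integral_add ?_ hΦi.integral_prod_right]
    · rfl
    · exact (integrable_hk_sub (by linarith) ξ).mul_bdd hzs.aestronglyMeasurable
        (Eventually.of_forall hzsM)
  -- Duhamel's formula for `z`
  have hzd : ∀ τ, s < τ → τ ≤ b → ∀ ξ, z τ ξ = P (τ - s) (z s) ξ +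
      ∫ p, hk (τ - p.1) (ξ - p.2) * (V p.1 p.2 * Gz p) ∂(mu N s τ) := by
    intro τ hτ hτb ξ
    rw [hz.duh s τ has hτ hτb ξ]
    congr 1
    rw [← duh_eq hτ.le ξ hVzm (hVGb hGzb)]
    rw [intervalIntegral.integral_of_le hτ.le, intervalIntegral.integral_of_le hτ.le]
    refine setIntegral_congr_fun measurableSet_Ioc fun r hr => ?_
    simp only
    unfold P
    refine integral_congr_ae (Eventually.of_forall fun w => ?_)
    have hpS : ((r, w) : ℝ × E N) ∈ S := (hmemS _).2 ⟨hr.1, hr.2.trans hτb⟩
    simp only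
    rw [hGz, indicator_of_mem hpS]
  -- the difference
  set H : ℝ → E N → ℝ := fun τ ξ => G (τ, ξ) with hH
  have hHe : ∀ τ, s < τ → τ ≤ b → ∀ ξ, H τ ξ = z τ ξ - Y τ ξ := by
    intro τ hτ hτb ξ
    have hpS : ((τ, ξ) : ℝ × E N) ∈ S := (hmemS _).2 ⟨hτ, hτb⟩
    simp only [hH, hG, hGz, hGY]
    rw [indicator_of_mem hpS, indicator_of_mem hpS]
  have key := h3 N K s b H hK.le ?_ ?_ (Or.inl ⟨M + Real.exp (K * (b - s)) * M,
    fun τ _ _ ξ => hGb (τ, ξ)⟩) t hst htb x
  · rw [hHe t hst htb x] at key
    linarith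
  · have : (fun p : ℝ × E N => if s < p.1 then H p.1 p.2 else 0) = G := by
      funext p
      by_cases hp : s < p.1
      · simp [hp, hH]
      · have hpS : p ∉ S := fun h => hp ((hmemS p).1 h).1
        simp only [hp, if_false, hG, hGz, hGY]
        rw [indicator_of_notMem hpS, indicator_of_notMem hpS, sub_zero]
    rw [this]
    exact hGm
  · intro τ hτ hτb ξ
    have e1 : H τ ξ = ∫ p, hk (τ - p.1) (ξ - p.2) * (V p.1 p.2 * G p) ∂(mu N s τ) := by
      rw [hHe τ hτ hτb ξ, hzd τ hτ hτb ξ, hYd τ hτ hτb ξ, add_sub_add_left_eq_sub,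
        ← integral_sub (integrable_duh s τ ξ hVzm (hVGb hGzb))
          (integrable_duh s τ ξ hVYm (hVGb hGYb))]
      refine integral_congr_ae (Eventually.of_forall fun p => ?_)
      simp only [hG]
      ring
    have hae : ∀ᵐ p ∂(mu N s τ), s < p.1 ∧ p.1 < τ := by
      have := Measure.quasiMeasurePreserving_fst (μ := volume.restrict (Ioc s τ))
        (ν := (volume : Measure (E N)))
      exact this.ae (ae_lt s τ)
    have habs : ∀ p, |(fun p => |G p|) p| ≤ M + Real.exp (K * (b - s)) * M := fun p => by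
      simp only [abs_abs]
      exact hGb p
    have e2 := duh_eq hτ.le ξ hGm.abs habs
    have e3 : ∫ r in s..τ, ∫ w, hk (τ - r) (ξ - w) * |H r w| =
        ∫ p, hk (τ - p.1) (ξ - p.2) * |G p| ∂(mu N s τ) := e2
    rw [e1, e3, ← integral_const_mul]
    refine (abs_integral_le_integral_abs).trans (integral_mono_ae
      (integrable_duh s τ ξ hVGm (hVGb hGb)).abs
      ((integrable_duh s τ ξ hGm.abs habs).const_mul K) ?_)
    filter_upwards [hae] with p hp
    have hhk : 0 ≤ hk (τ - p.1) (ξ - p.2) := hk_nonneg (by linarith [hp.2]) _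
    rw [abs_mul, abs_mul, abs_of_nonneg hhk]
    have := hV.bdd p.1 p.2
    have h5 : |V p.1 p.2| * |G p| ≤ K * |G p| := mul_le_mul_of_nonneg_right this (abs_nonneg _)
    calc hk (τ - p.1) (ξ - p.2) * (|V p.1 p.2| * |G p|) ≤
        hk (τ - p.1) (ξ - p.2) * (K * |G p|) := mul_le_mul_of_nonneg_left h5 hhk
      _ = K * (hk (τ - p.1) (ξ - p.2) * |G p|) := by ring

end Pool.Agent.H81.RF.KREP
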