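import Pool.Agent.H91.RF.TargetsK2
import Pool.Agent.H29.TF.Heat

/-!
# MP_609556_an, part K: module KRFL (reflection invariance of the kernel)
-/

open MeasureTheory Set Filter Topology Metric
open Pool.Agent.H29.TF (hk P hk_neg)
open Pool.Agent.H91.RD Pool.Agent.H91.RF

namespace Pool.Agent.H81.RF.KRFL

lemma gkn_neg {N : ℕ} (V : ℝ → E N → ℝ) (s t : ℝ) (hV : ∀ r ∈ Ioo s t, ∀ x, V r (-x) = V r x) :
    ∀ (n : ℕ) (τ : ℝ), s < τ → τ ≤ t → ∀ x y, gkn V n τ (-x) s (-y) = gkn V n τ x s y := by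
  intro n
  induction n with
  | zero =>
    intro τ _ _ x y
    change hk (τ - s) (-x - -y) = hk (τ - s) (x - y)
    rw [show -x - -y = -(x - y) by abel, hk_neg]
  | succ n ih =>
    intro τ hτ hτt x y
    change ∫ r in s..τ, ∫ z, hk (τ - r) (-x - z) * (V r z * gkn V n r z s (-y)) =
      ∫ r in s..τ, ∫ z, hk (τ - r) (x - z) * (V r z * gkn V n r z s y)
    refine intervalIntegral.integral_congr_ae ?_
    have hne : ∀ᵐ r : ℝ ∂volume, r ≠ τ := by
      rw [ae_iff]
      simp
    filter_upwards [hne] with r hr hr2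
    rw [uIoc_of_le hτ.le] at hr2
    have hrτ : r < τ := lt_of_le_of_ne hr2.2 hr
    rw [← integral_neg_eq_self (fun z => hk (τ - r) (-x - z) * (V r z * gkn V n r z s (-y)))]
    refine integral_congr_ae (Eventually.of_forall fun z => ?_)
    simp only
    rw [ih r hr2.1 (hrτ.le.trans hτt) z y, hV r ⟨hr2.1, hrτ.trans_le hτt⟩ z,
      show -x - -z = -(x - z) by abel, hk_neg]

theorem krfl : T_KRFL := by
  intro N V s t hst hV x y
  unfold gk
  exact tsum_congr fun n => gkn_neg V s t hV n t hst le_rfl x y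

end Pool.Agent.H81.RF.KRFL
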