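import Pool.Agent.H91.RF.TargetsR
import Pool.Agent.H29.TF.Heat

/-!
# [VLC] gain and decay of a power for fast ancient solutions
-/

open MeasureTheory Set Filter Topology Metric
open Pool.Agent.H29.TF (hk P hk_pos hk_nonneg integrable_hk integrable_hk_sub integral_hk)
open Pool.Agent.H91.RD Pool.Agent.H91.RF

namespace Pool.Agent.H81.RF.VL

variable {N : ℕ}

/-- change of variance -/
theorem hk_scale {S ζ : ℝ} (hS : 0 < S) (hζ : 0 < ζ) (y : E N) :
    hk S y * Real.exp ((1 - ζ) * (‖y‖ ^ 2 / (4 * S))) =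
      ζ ^ (-(Module.finrank ℝ (E N) : ℝ) / 2) * hk (S / ζ) y := by
  unfold hk
  have h1 : 4 * Real.pi * S = (4 * Real.pi * (S / ζ)) * ζ := by field_simp
  have hpi := Real.pi_pos
  rw [h1, Real.mul_rpow (by positivity) hζ.le, mul_assoc, ← Real.exp_add]
  have h2 : -‖y‖ ^ 2 / (4 * S) + (1 - ζ) * (‖y‖ ^ 2 / (4 * S)) = -‖y‖ ^ 2 / (4 * (S / ζ)) := by
    field_simp; ring
  rw [h2]; ring

/-- at most exponential growth -/
def GB (φ : E N → ℝ) : Prop := ∃ c : ℝ, 0 ≤ c ∧ ∀ y, |φ y| ≤ Real.exp (c * (1 + ‖y‖))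

theorem GB.mul {φ ψ : E N → ℝ} (h1 : GB φ) (h2 : GB ψ) : GB (fun y => φ y * ψ y) := by
  obtain ⟨c, hc, h1⟩ := h1
  obtain ⟨d, hd, h2⟩ := h2
  refine ⟨c + d, by positivity, fun y => ?_⟩
  rw [abs_mul, add_mul, Real.exp_add]
  exact mul_le_mul (h1 y) (h2 y) (abs_nonneg _) (Real.exp_pos _).le

theorem GB.mono {φ ψ : E N → ℝ} (h2 : GB ψ) (h : ∀ y, |φ y| ≤ |ψ y|) : GB φ := by
  obtain ⟨d, hd, h2⟩ := h2
  exact ⟨d, hd, fun y => (h y).trans (h2 y)⟩

theorem GB.lin {φ : E N → ℝ} {a : ℝ} (ha : 0 ≤ a) (h : ∀ y, |φ y| ≤ a * (1 + ‖y‖)) : GB φ :=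
  ⟨a, ha, fun y => (h y).trans (by linarith [Real.add_one_le_exp (a * (1 + ‖y‖))])⟩

theorem GB.exp_lin {φ : E N → ℝ} {a : ℝ} (ha : 0 ≤ a) (h : ∀ y, |φ y| ≤ a * (1 + ‖y‖)) :
    GB (fun y => Real.exp (φ y)) :=
  ⟨a, ha, fun y => by
    rw [abs_of_pos (Real.exp_pos _)]
    exact Real.exp_le_exp.2 ((le_abs_self _).trans (h y))⟩

theorem GB.const (a : ℝ) : GB (fun _ : E N => a) :=
  GB.lin (abs_nonneg a) fun y => by
    have : 0 ≤ |a| * ‖y‖ := by positivity
    linarith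

theorem GB.norm : GB (fun y : E N => ‖y‖) :=
  GB.lin zero_le_one fun y => by rw [abs_of_nonneg (norm_nonneg _)]; linarith

theorem GB.int {φ : E N → ℝ} (h : GB φ) (hm : Measurable φ) {S : ℝ} (hS : 0 < S) :
    Integrable (fun y => hk S y * φ y) := by
  obtain ⟨c, hc, h⟩ := h
  have h1 : Integrable (fun y : E N => Real.exp (c + 2 * c ^ 2 * S) *
      ((1 / 2 : ℝ) ^ (-(Module.finrank ℝ (E N) : ℝ) / 2) * hk (S / (1 / 2)) y)) :=
    ((integrable_hk (by positivity)).const_mul _).const_mul _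
  refine h1.mono' ((Pool.Agent.H29.TF.continuous_hk S).measurable.mul hm).aestronglyMeasurable
    (ae_of_all _ fun y => ?_)
  rw [norm_mul, Real.norm_of_nonneg (hk_nonneg hS.le _), Real.norm_eq_abs,
    ← hk_scale hS (by norm_num) y]
  have h2 := h y
  have h3 : c * (1 + ‖y‖) ≤ c + 2 * c ^ 2 * S + (1 - 1 / 2) * (‖y‖ ^ 2 / (4 * S)) := by
    have h4 : 0 ≤ (‖y‖ - 4 * c * S) ^ 2 / (8 * S) := by positivity
    have h5 : (‖y‖ - 4 * c * S) ^ 2 / (8 * S) =
      2 * c ^ 2 * S + (1 - 1 / 2) * (‖y‖ ^ 2 / (4 * S)) - c * ‖y‖ := by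
      field_simp; ring
    linarith
  calc hk S y * |φ y| ≤ hk S y * Real.exp (c * (1 + ‖y‖)) :=
        mul_le_mul_of_nonneg_left h2 (hk_nonneg hS.le _)
    _ ≤ hk S y * Real.exp (c + 2 * c ^ 2 * S + (1 - 1 / 2) * (‖y‖ ^ 2 / (4 * S))) :=
        mul_le_mul_of_nonneg_left (Real.exp_le_exp.2 h3) (hk_nonneg hS.le _)
    _ = _ := by rw [Real.exp_add]; ring

/-- `e^x ≤ 1 + x + x² e^{|x|}` -/
theorem exp_le_quad (x : ℝ) : Real.exp x ≤ 1 + x + x ^ 2 * Real.exp |x| := by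
  have h1 : ∀ y : ℝ, 0 ≤ y → Real.exp y ≤ 1 + y + y ^ 2 * Real.exp y := by
    intro y hy
    have h2 : 1 - y ≤ Real.exp (-y) := by linarith [Real.add_one_le_exp (-y)]
    have h3 : Real.exp y * Real.exp (-y) = 1 := by rw [← Real.exp_add]; simp
    have h4 : (1 - y) * (1 + y) = 1 - y ^ 2 := by ring
    have h5 : Real.exp y * (1 - y) ≤ 1 := by
      calc Real.exp y * (1 - y) ≤ Real.exp y * Real.exp (-y) :=
            mul_le_mul_of_nonneg_left h2 (Real.exp_pos _).le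
        _ = 1 := h3
    have h6 : Real.exp y * (1 - y) * (1 + y) ≤ 1 * (1 + y) :=
      mul_le_mul_of_nonneg_right h5 (by linarith)
    linarith
  rcases le_total 0 x with hx | hx
  · rw [abs_of_nonneg hx]; exact h1 x hx
  · rw [abs_of_nonpos hx]
    have h2 := h1 (-x) (by linarith)
    have h3 : Real.exp x ≤ 1 + x + x ^ 2 := by
      have h4 : 1 + -x ≤ Real.exp (-x) := by linarith [Real.add_one_le_exp (-x)]
      have h5 : Real.exp x * Real.exp (-x) = 1 := by rw [← Real.exp_add]; simp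
      have h6 : Real.exp x * (1 + -x) ≤ 1 := by
        calc _ ≤ Real.exp x * Real.exp (-x) := mul_le_mul_of_nonneg_left h4 (Real.exp_pos _).le
          _ = 1 := h5
      have h7 : 0 ≤ (-x) ^ 3 := pow_nonneg (by linarith) 3
      have h8 : (1 + x + x ^ 2) * (1 + -x) = 1 + (-x) ^ 3 := by ring
      exact le_of_mul_le_mul_right (by linarith) (show 0 < 1 + -x by linarith)
    have h4 : x ^ 2 * 1 ≤ x ^ 2 * Real.exp (-x) :=
      mul_le_mul_of_nonneg_left (Real.one_le_exp (by linarith)) (sq_nonneg _)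
    linarith

/-! ### The constants -/

/-- exponent of the pointwise bound -/
noncomputable def Dv (N : ℕ) (cc cg S : ℝ) (y : E N) : ℝ :=
  -(cc ^ 2 / 4 * S) + cc ^ 2 / 4 / cg * ‖y‖ + cc / 2 * max (‖y‖ - cg * S) 0

/-- the part of the norm far away -/
noncomputable def Tv (N : ℕ) (r : ℝ) (y : E N) : ℝ := if r ≤ ‖y‖ then ‖y‖ else 0

section

variable {cc cg S : ℝ}

theorem Dv_abs (hcc : 0 < cc) (hcg : cc < cg) (hS : 0 < S) (y : E N) :
    |Dv N cc cg S y| ≤ (cc ^ 2 / 4 * S + cc ^ 2 / 4 / cg + cc / 2) * (1 + ‖y‖) := by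
  unfold Dv
  have hcg0 : 0 < cg := hcc.trans hcg
  have hy := norm_nonneg y
  have h1 : 0 ≤ max (‖y‖ - cg * S) 0 := le_max_right _ _
  have h2 : max (‖y‖ - cg * S) 0 ≤ ‖y‖ := max_le (by nlinarith) hy
  have h3 : 0 ≤ cc ^ 2 / 4 / cg * ‖y‖ := by positivity
  have h4 : cc / 2 * max (‖y‖ - cg * S) 0 ≤ cc / 2 * ‖y‖ :=
    mul_le_mul_of_nonneg_left h2 (by positivity)
  have h5 : 0 ≤ cc / 2 * max (‖y‖ - cg * S) 0 := by positivity
  have h6 : 0 ≤ cc ^ 2 / 4 * S := by positivity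
  have h7 : 0 ≤ cc ^ 2 / 4 * S * ‖y‖ := by positivity
  have h8 : 0 ≤ cc ^ 2 / 4 / cg := by positivity
  rw [abs_le]
  constructor <;> linarith

theorem Dv_meas : Measurable (Dv N cc cg S) := by unfold Dv; fun_prop

theorem Tv_meas (r : ℝ) : Measurable (Tv N r) := by
  unfold Tv
  exact Measurable.ite (measurableSet_le measurable_const measurable_norm) measurable_norm
    measurable_const

theorem Tv_nonneg (r : ℝ) (y : E N) : 0 ≤ Tv N r y := by
  unfold Tv; split_ifs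
  · exact norm_nonneg _
  · exact le_rfl

theorem Tv_le (r : ℝ) (y : E N) : Tv N r y ≤ ‖y‖ := by
  unfold Tv; split_ifs
  · exact le_rfl
  · exact norm_nonneg _

theorem norm_le_Tv (r : ℝ) (hr : 0 ≤ r) (y : E N) : ‖y‖ ≤ r + Tv N r y := by
  unfold Tv; split_ifs with h
  · linarith
  · linarith [not_le.1 h]

/-- the algebra behind the Gaussian bound of the tail -/
theorem tail_exp {ζ r0 r : ℝ} (hcc : 0 < cc) (hcg : cc < cg) (hS : 0 < S) (hζ1 : ζ < 1)
    (h1 : cc ^ 2 / cg ≤ (1 - ζ) * r0) (h2 : cc ≤ (1 - ζ) * (2 * cg - cc)) (hr : r0 * S ≤ r)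
    (hr0 : 0 ≤ r) :
    (r ≤ cg * S → cc ^ 2 / 4 * S + -(cc ^ 2 / 4 * (S - r / cg)) ≤ (1 - ζ) * (r ^ 2 / (4 * S))) ∧
    (cg * S ≤ r → cc ^ 2 / 4 * S + cc / 2 * (r - cg * S) ≤ (1 - ζ) * (r ^ 2 / (4 * S))) := by
  have hcg0 : 0 < cg := hcc.trans hcg
  constructor
  · intro _
    have e1 : cc ^ 2 / 4 * S + -(cc ^ 2 / 4 * (S - r / cg)) = cc ^ 2 / cg * S * r / (4 * S) := by
      field_simp; ring
    have e2 : (1 - ζ) * (r ^ 2 / (4 * S)) = (1 - ζ) * r ^ 2 / (4 * S) := by ring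
    rw [e1, e2]
    refine div_le_div_of_nonneg_right ?_ (by positivity)
    have h3 : cc ^ 2 / cg * S ≤ (1 - ζ) * r := by
      calc cc ^ 2 / cg * S ≤ (1 - ζ) * r0 * S := mul_le_mul_of_nonneg_right h1 hS.le
        _ = (1 - ζ) * (r0 * S) := by ring
        _ ≤ (1 - ζ) * r := mul_le_mul_of_nonneg_left hr (by linarith)
    calc cc ^ 2 / cg * S * r ≤ (1 - ζ) * r * r := mul_le_mul_of_nonneg_right h3 hr0
      _ = _ := by ring
  · intro _
    have hζ : 0 < 1 - ζ := by linarith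
    have e1 : cc ^ 2 / 4 * S + cc / 2 * (r - cg * S) =
      (2 * cc * r * S - cc * (2 * cg - cc) * S ^ 2) / (4 * S) := by
      field_simp; ring
    have e2 : (1 - ζ) * (r ^ 2 / (4 * S)) = (1 - ζ) * r ^ 2 / (4 * S) := by ring
    rw [e1, e2]
    refine div_le_div_of_nonneg_right ?_ (by positivity)
    have h3 : 0 ≤ ((1 - ζ) * r - cc * S) ^ 2 := sq_nonneg _
    have h4 : cc * cc * S ^ 2 ≤ cc * ((1 - ζ) * (2 * cg - cc)) * S ^ 2 := by
      refine mul_le_mul_of_nonneg_right (mul_le_mul_of_nonneg_left h2 hcc.le) (sq_nonneg _)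
    have h5 : (1 - ζ) * (2 * cc * r * S - cc * (2 * cg - cc) * S ^ 2) ≤
        (1 - ζ) * ((1 - ζ) * r ^ 2) := by nlinarith
    exact le_of_mul_le_mul_left h5 hζ

end

/-! ### Expectations -/

section

variable {cc cg S C v0 w0 : ℝ} {V Wt : E N → ℝ}

/-- the density -/
noncomputable def rh (N : ℕ) (cc S w0 : ℝ) (Wt : E N → ℝ) (y : E N) : ℝ :=
  Real.exp (cc ^ 2 / 4 * S) * (hk S y * Wt y) / w0

/-- hypotheses on the data at time `-S` -/
structure Dat (N : ℕ) (cc cg S C v0 w0 : ℝ) (V Wt : E N → ℝ) : Prop where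
  cc0 : 0 < cc
  ccg : cc < cg
  S0 : 0 < S
  C1 : 1 ≤ C
  v00 : 0 < v0
  w00 : 0 < w0
  Vm : Measurable V
  Wm : Measurable Wt
  Vp : ∀ y, 0 < V y
  Wp : ∀ y, 0 < Wt y
  WV : ∀ y, Wt y ≤ C * V y
  vw : cc ^ 2 / 4 * v0 ≤ w0
  Vb : ∀ y, V y ≤ v0 * Real.exp (Dv N cc cg S y)
  rhi : Integrable (rh N cc S w0 Wt)
  rh1 : ∫ y, rh N cc S w0 Wt y = 1

namespace Dat

variable (h : Dat N cc cg S C v0 w0 V Wt)
include h

theorem GBexpD : GB (fun y => Real.exp (Dv N cc cg S y)) := by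
  have h1 := h.cc0
  have h2 := h.ccg
  have h3 := h.S0
  have h4 : 0 < cg := h1.trans h2
  exact GB.exp_lin (by positivity) (Dv_abs h1 h2 h3)

theorem GBD : GB (Dv N cc cg S) := by
  have h1 := h.cc0
  have h2 := h.ccg
  have h3 := h.S0
  have h4 : 0 < cg := h1.trans h2
  exact GB.lin (by positivity) (Dv_abs h1 h2 h3)

theorem GBexpaD : GB (fun y => Real.exp |Dv N cc cg S y|) := by
  have h1 := h.cc0
  have h2 := h.ccg
  have h3 := h.S0
  have h4 : 0 < cg := h1.trans h2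
  exact GB.exp_lin (a := cc ^ 2 / 4 * S + cc ^ 2 / 4 / cg + cc / 2) (by positivity) fun y => by
    rw [abs_abs]; exact Dv_abs h1 h2 h3 y

theorem GBexptD {θ : ℝ} (h0 : 0 ≤ θ) (h1' : θ ≤ 1) :
    GB (fun y => Real.exp (θ * Dv N cc cg S y)) := by
  refine h.GBexpaD.mono fun y => ?_
  rw [abs_of_pos (Real.exp_pos _), abs_of_pos (Real.exp_pos _)]
  apply Real.exp_le_exp.2
  refine (le_abs_self _).trans ?_
  rw [abs_mul, abs_of_nonneg h0]
  exact mul_le_of_le_one_left (abs_nonneg _) h1'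

theorem GBV : GB V := by
  refine ((GB.const v0).mul h.GBexpD).mono fun y => ?_
  rw [abs_of_pos (h.Vp y)]
  exact (h.Vb y).trans (le_abs_self _)

theorem GBW : GB Wt := by
  refine ((GB.const C).mul h.GBV).mono fun y => ?_
  rw [abs_of_pos (h.Wp y)]
  exact (h.WV y).trans (le_abs_self _)

theorem rh_nonneg (y : E N) : 0 ≤ rh N cc S w0 Wt y := by
  have h1 := h.w00
  have h2 := (h.Wp y).le
  have h3 := hk_nonneg h.S0.le y
  unfold rh; positivity

theorem rh_int {φ : E N → ℝ} (hm : Measurable φ) (hb : GB φ) :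
    Integrable (fun y => rh N cc S w0 Wt y * φ y) := by
  have h1 := (h.GBW.mul hb).int (h.Wm.mul hm) h.S0
  refine (h1.const_mul (Real.exp (cc ^ 2 / 4 * S) / w0)).congr (ae_of_all _ fun y => ?_)
  simp only [rh]; ring

/-- upper bound of the density -/
theorem rh_le (y : E N) : rh N cc S w0 Wt y ≤
    4 * C / cc ^ 2 * Real.exp (cc ^ 2 / 4 * S) * (hk S y * (V y / v0)) := by
  have h1 := h.w00
  have h2 := h.v00
  have h3 := hk_nonneg h.S0.le y
  have h4 := h.cc0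
  have h5 : Wt y / w0 ≤ C * V y / (cc ^ 2 / 4 * v0) :=
    div_le_div₀ (by have := h.C1; have := h.Vp y; positivity) (h.WV y) (by positivity) h.vw
  have e1 : rh N cc S w0 Wt y = Real.exp (cc ^ 2 / 4 * S) * hk S y * (Wt y / w0) := by
    unfold rh; ring
  have e2 : 4 * C / cc ^ 2 * Real.exp (cc ^ 2 / 4 * S) * (hk S y * (V y / v0)) =
      Real.exp (cc ^ 2 / 4 * S) * hk S y * (C * V y / (cc ^ 2 / 4 * v0)) := by
    field_simp
  rw [e1, e2]
  exact mul_le_mul_of_nonneg_left h5 (by positivity)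

theorem tail {ζ r0 A : ℝ} (hζ0 : 0 < ζ)
    (hmom : ∀ t > 0, Integrable (fun z : E N => hk t z * ‖z‖) ∧
      ∫ z : E N, hk t z * ‖z‖ ≤ A * √t)
    (hb : ∀ y, r0 * S ≤ ‖y‖ → Real.exp (cc ^ 2 / 4 * S) * (V y / v0) ≤
      Real.exp ((1 - ζ) * (‖y‖ ^ 2 / (4 * S)))) :
    ∫ y, rh N cc S w0 Wt y * Tv N (r0 * S) y ≤
      4 * C / cc ^ 2 * ζ ^ (-(Module.finrank ℝ (E N) : ℝ) / 2) * (A / √ζ) * √S := by
  have h4 := h.cc0
  have h5 := h.C1
  have hS := h.S0
  have hSζ : 0 < S / ζ := by positivity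
  set B : ℝ := 4 * C / cc ^ 2 * ζ ^ (-(Module.finrank ℝ (E N) : ℝ) / 2) with hB
  have hB0 : 0 ≤ B := by rw [hB]; positivity
  have h1 : ∫ y, rh N cc S w0 Wt y * Tv N (r0 * S) y ≤ ∫ y : E N, B * (hk (S / ζ) y * ‖y‖) := by
    refine integral_mono (h.rh_int (Tv_meas _) (GB.norm.mono fun y => ?_))
      ((hmom _ hSζ).1.const_mul B) fun y => ?_
    · rw [abs_of_nonneg (Tv_nonneg _ y), abs_of_nonneg (norm_nonneg y)]
      exact Tv_le _ y
    · simp only
      unfold Tv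
      split_ifs with hy
      · rw [← mul_assoc]
        refine mul_le_mul_of_nonneg_right ?_ (norm_nonneg y)
        refine (h.rh_le y).trans ?_
        have h2 := mul_le_mul_of_nonneg_left (hb y hy) (hk_nonneg hS.le y)
        rw [hk_scale hS hζ0] at h2
        have h3 : 0 ≤ 4 * C / cc ^ 2 := by positivity
        have h6 := mul_le_mul_of_nonneg_left h2 h3
        calc 4 * C / cc ^ 2 * Real.exp (cc ^ 2 / 4 * S) * (hk S y * (V y / v0)) =
            4 * C / cc ^ 2 * (hk S y * (Real.exp (cc ^ 2 / 4 * S) * (V y / v0))) := by ring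
          _ ≤ _ := h6
          _ = _ := by rw [hB]; ring
      · rw [mul_zero]
        have := hk_nonneg hSζ.le y
        positivity
  refine h1.trans ?_
  rw [integral_const_mul]
  have h2 := mul_le_mul_of_nonneg_left (hmom _ hSζ).2 hB0
  refine h2.trans (le_of_eq ?_)
  rw [Real.sqrt_div hS.le]; ring

/-- mean of the norm -/
theorem mean_norm {r0 τ : ℝ} (hr0 : 0 < r0)
    (hτ : ∫ y, rh N cc S w0 Wt y * Tv N (r0 * S) y ≤ τ) :
    ∫ y, rh N cc S w0 Wt y * ‖y‖ ≤ r0 * S + τ := by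
  have hS := h.S0
  have iT := h.rh_int (Tv_meas (N := N) (r0 * S)) (GB.norm.mono fun y => by
    rw [abs_of_nonneg (Tv_nonneg _ y), abs_of_nonneg (norm_nonneg y)]
    exact Tv_le _ y)
  have h1 : ∫ y, rh N cc S w0 Wt y * ‖y‖ ≤
      ∫ y, (rh N cc S w0 Wt y * (r0 * S) + rh N cc S w0 Wt y * Tv N (r0 * S) y) := by
    refine integral_mono (h.rh_int measurable_norm GB.norm)
      ((h.rhi.mul_const _).add iT) fun y => ?_
    have h2 := mul_le_mul_of_nonneg_left (norm_le_Tv (r0 * S) (by positivity) y) (h.rh_nonneg y)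
    simp only
    linarith
  rw [integral_add (h.rhi.mul_const _) iT, integral_mul_const, h.rh1, one_mul] at h1
  linarith

/-- mean of the exponent -/
theorem mean_D {r0 τ : ℝ} (hr0 : 0 < r0) (hr1 : r0 ≤ cg)
    (hτ : ∫ y, rh N cc S w0 Wt y * Tv N (r0 * S) y ≤ τ) :
    ∫ y, rh N cc S w0 Wt y * Dv N cc cg S y ≤
      -(cc ^ 2 / 4 * S) + cc ^ 2 / 4 / cg * (r0 * S + τ) + cc / 2 * τ := by
  have hS := h.S0
  have hcc := h.cc0
  have hcg : 0 < cg := hcc.trans h.ccg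
  have iT := h.rh_int (Tv_meas (N := N) (r0 * S)) (GB.norm.mono fun y => by
    rw [abs_of_nonneg (Tv_nonneg _ y), abs_of_nonneg (norm_nonneg y)]
    exact Tv_le _ y)
  have iN := h.rh_int measurable_norm GB.norm
  have iNT : Integrable (fun y => cc ^ 2 / 4 / cg * (rh N cc S w0 Wt y * ‖y‖) +
      cc / 2 * (rh N cc S w0 Wt y * Tv N (r0 * S) y)) := (iN.const_mul _).add (iT.const_mul _)
  have h1 : ∫ y, rh N cc S w0 Wt y * Dv N cc cg S y ≤
      ∫ y, (rh N cc S w0 Wt y * (-(cc ^ 2 / 4 * S)) +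
        (cc ^ 2 / 4 / cg * (rh N cc S w0 Wt y * ‖y‖) +
          cc / 2 * (rh N cc S w0 Wt y * Tv N (r0 * S) y))) := by
    refine integral_mono (h.rh_int Dv_meas h.GBD)
      ((h.rhi.mul_const _).add iNT) fun y => ?_
    have h2 : max (‖y‖ - cg * S) 0 ≤ Tv N (r0 * S) y := by
      refine max_le ?_ (Tv_nonneg _ y)
      unfold Tv
      split_ifs with hy
      · have : 0 < cg * S := by positivity
        linarith
      · have : r0 * S ≤ cg * S := mul_le_mul_of_nonneg_right hr1 hS.le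
        linarith [not_le.1 hy]
    have h3 : Dv N cc cg S y ≤ -(cc ^ 2 / 4 * S) + cc ^ 2 / 4 / cg * ‖y‖ +
        cc / 2 * Tv N (r0 * S) y := by
      unfold Dv
      have := mul_le_mul_of_nonneg_left h2 (show 0 ≤ cc / 2 by positivity)
      linarith
    have h4 := mul_le_mul_of_nonneg_left h3 (h.rh_nonneg y)
    simp only
    linarith
  rw [integral_add (h.rhi.mul_const _) iNT,
    integral_add (iN.const_mul _) (iT.const_mul _), integral_mul_const, integral_const_mul,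
    integral_const_mul, h.rh1, one_mul] at h1
  have h2 := h.mean_norm hr0 hτ
  have h3 := mul_le_mul_of_nonneg_left h2 (show 0 ≤ cc ^ 2 / 4 / cg by positivity)
  have h4 := mul_le_mul_of_nonneg_left hτ (show 0 ≤ cc / 2 by positivity)
  linarith

/-- second order term -/
theorem mean_sq : ∫ y, rh N cc S w0 Wt y * (Dv N cc cg S y ^ 2 * Real.exp |Dv N cc cg S y|) ≤
    4 * C / cc ^ 2 * Real.exp (cc ^ 2 / 4 * S) *
      ∫ y, hk S y * (Real.exp (Dv N cc cg S y) *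
        (Dv N cc cg S y ^ 2 * Real.exp |Dv N cc cg S y|)) := by
  have hC := h.C1
  have hcc := h.cc0
  have hD2 : GB (fun y => Dv N cc cg S y ^ 2 * Real.exp |Dv N cc cg S y|) := by
    have := (h.GBD.mul h.GBD).mul h.GBexpaD
    refine this.mono fun y => le_of_eq ?_
    congr 1; ring
  have mD2 : Measurable (fun y => Dv N cc cg S y ^ 2 * Real.exp |Dv N cc cg S y|) :=
    (Dv_meas.pow_const 2).mul (Real.measurable_exp.comp Dv_meas.abs)
  rw [← integral_const_mul]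
  refine integral_mono (h.rh_int mD2 hD2)
    (((h.GBexpD.mul hD2).int ((Real.measurable_exp.comp Dv_meas).mul mD2) h.S0).const_mul _)
    fun y => ?_
  have h1 : V y / v0 ≤ Real.exp (Dv N cc cg S y) := by
    rw [div_le_iff₀ h.v00, mul_comm]; exact h.Vb y
  have h2 := mul_le_mul_of_nonneg_left h1 (hk_nonneg h.S0.le y)
  have h3 := mul_le_mul_of_nonneg_left h2
    (show 0 ≤ 4 * C / cc ^ 2 * Real.exp (cc ^ 2 / 4 * S) by positivity)
  have h4 := mul_le_mul_of_nonneg_right ((h.rh_le y).trans h3)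
    (show 0 ≤ Dv N cc cg S y ^ 2 * Real.exp |Dv N cc cg S y| by positivity)
  refine h4.trans (le_of_eq ?_)
  ring

theorem mean_exp {θ : ℝ} (h0 : 0 ≤ θ) (h1' : θ ≤ 1) :
    ∫ y, rh N cc S w0 Wt y * Real.exp (θ * Dv N cc cg S y) ≤
      1 + θ * (∫ y, rh N cc S w0 Wt y * Dv N cc cg S y) +
      θ ^ 2 * ∫ y, rh N cc S w0 Wt y * (Dv N cc cg S y ^ 2 * Real.exp |Dv N cc cg S y|) := by
  have hD2 : GB (fun y => Dv N cc cg S y ^ 2 * Real.exp |Dv N cc cg S y|) := by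
    have := (h.GBD.mul h.GBD).mul h.GBexpaD
    refine this.mono fun y => le_of_eq ?_
    congr 1; ring
  have mD2 : Measurable (fun y => Dv N cc cg S y ^ 2 * Real.exp |Dv N cc cg S y|) :=
    (Dv_meas.pow_const 2).mul (Real.measurable_exp.comp Dv_meas.abs)
  have i1 := h.rh_int Dv_meas h.GBD
  have i2 := h.rh_int mD2 hD2
  have i12 : Integrable (fun y => θ * (rh N cc S w0 Wt y * Dv N cc cg S y) +
      θ ^ 2 * (rh N cc S w0 Wt y * (Dv N cc cg S y ^ 2 * Real.exp |Dv N cc cg S y|))) :=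
    (i1.const_mul _).add (i2.const_mul _)
  have e : ∫ y, (rh N cc S w0 Wt y + (θ * (rh N cc S w0 Wt y * Dv N cc cg S y) +
      θ ^ 2 * (rh N cc S w0 Wt y * (Dv N cc cg S y ^ 2 * Real.exp |Dv N cc cg S y|)))) =
      1 + θ * (∫ y, rh N cc S w0 Wt y * Dv N cc cg S y) +
      θ ^ 2 * ∫ y, rh N cc S w0 Wt y * (Dv N cc cg S y ^ 2 * Real.exp |Dv N cc cg S y|) := by
    rw [integral_add h.rhi i12,
      integral_add (i1.const_mul _) (i2.const_mul _), integral_const_mul, integral_const_mul,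
      h.rh1]
    ring
  rw [← e]
  refine integral_mono (h.rh_int (Real.measurable_exp.comp (Dv_meas.const_mul θ))
    (h.GBexptD h0 h1')) (h.rhi.add i12) fun y => ?_
  simp only
  set D := Dv N cc cg S y
  have h2 := exp_le_quad (θ * D)
  have h3 : (θ * D) ^ 2 * Real.exp |θ * D| ≤ θ ^ 2 * (D ^ 2 * Real.exp |D|) := by
    have h4 : Real.exp |θ * D| ≤ Real.exp |D| := by
      apply Real.exp_le_exp.2
      rw [abs_mul, abs_of_nonneg h0]
      exact mul_le_of_le_one_left (abs_nonneg _) h1'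
    calc (θ * D) ^ 2 * Real.exp |θ * D| ≤ (θ * D) ^ 2 * Real.exp |D| :=
          mul_le_mul_of_nonneg_left h4 (sq_nonneg _)
      _ = _ := by ring
  have h4 : Real.exp (θ * D) ≤ 1 + θ * D + θ ^ 2 * (D ^ 2 * Real.exp |D|) := by linarith
  have h5 := mul_le_mul_of_nonneg_left h4 (h.rh_nonneg y)
  refine h5.trans (le_of_eq ?_)
  ring

end Dat

end

/-- from the ancient solutions to the data at time `-S` -/
theorem dat_of {cc cg C S : ℝ} {v vt : ℝ → E N → ℝ} (hcc : 0 < cc) (hcg : cc < cg) (hC : 1 ≤ C)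
    (hS : 0 < S) (hv : Vc0 cc C v vt)
    (hvla : ∀ y, (‖y‖ ≤ cg * S → v (-S) y ≤ v 0 0 * Real.exp (-(cc ^ 2 / 4 * (S - ‖y‖ / cg)))) ∧
      (cg * S ≤ ‖y‖ → v (-S) y ≤ v 0 0 * Real.exp (cc / 2 * (‖y‖ - cg * S)))) :
    Dat N cc cg S C (v 0 0) (vt 0 0) (v (-S)) (vt (-S)) := by
  have hcg0 : 0 < cg := hcc.trans hcg
  have hSn : -S ≤ 0 := by linarith
  have hw : 0 < vt 0 0 := hv.anct.pos 0 le_rfl 0
  have hv0 : 0 < v 0 0 := hv.anc.pos 0 le_rfl 0
  obtain ⟨hi, he⟩ := hv.anct.rep (-S) 0 (by linarith) le_rfl 0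
  have e1 : ∀ y : E N, hk (0 - -S) (0 - y) = hk S y := fun y => by
    rw [zero_sub, neg_neg, zero_sub, Pool.Agent.H29.TF.hk_neg]
  simp only [e1] at hi he
  rw [show (0 : ℝ) - -S = S by ring] at he
  refine ⟨hcc, hcg, hS, hC, hv0, hw, (hv.c1 _ hSn).continuous.measurable, ?_, hv.anc.pos _ hSn,
    hv.anct.pos _ hSn, hv.up _ hSn, hv.low 0 le_rfl 0, fun y => ?_, ?_, ?_⟩
  · have : Continuous (vt (-S)) := by
      rw [continuous_iff_continuousAt]
      intro x
      have h1 := hv.ct (-S, x) ⟨hSn, mem_univ _⟩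
      have h2 : Tendsto (fun y : E N => ((-S, y) : ℝ × E N)) (𝓝 x)
          (𝓝[Iic 0 ×ˢ univ] (-S, x)) := by
        refine tendsto_nhdsWithin_iff.2 ⟨?_, Eventually.of_forall fun y => ⟨hSn, mem_univ _⟩⟩
        exact (by fun_prop : Continuous fun y : E N => ((-S, y) : ℝ × E N)).tendsto x
      exact h1.tendsto.comp h2
    exact this.measurable
  · rcases le_total ‖y‖ (cg * S) with hy | hy
    · refine ((hvla y).1 hy).trans (mul_le_mul_of_nonneg_left (Real.exp_le_exp.2 ?_) hv0.le)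
      unfold Dv
      rw [max_eq_right (by linarith)]
      refine le_of_eq ?_
      field_simp; ring
    · refine ((hvla y).2 hy).trans (mul_le_mul_of_nonneg_left (Real.exp_le_exp.2 ?_) hv0.le)
      unfold Dv
      rw [max_eq_left (by linarith)]
      have h1 : S ≤ ‖y‖ / cg := by rw [le_div_iff₀ hcg0]; linarith
      have h2 : cc ^ 2 / 4 * S ≤ cc ^ 2 / 4 * (‖y‖ / cg) :=
        mul_le_mul_of_nonneg_left h1 (by positivity)
      have h3 : cc ^ 2 / 4 / cg * ‖y‖ = cc ^ 2 / 4 * (‖y‖ / cg) := by ring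
      linarith
  · refine (hi.const_mul (Real.exp (cc ^ 2 / 4 * S) / vt 0 0)).congr (ae_of_all _ fun y => ?_)
    simp only [rh]; ring
  · have : ∀ y, rh N cc S (vt 0 0) (vt (-S)) y =
        Real.exp (cc ^ 2 / 4 * S) / vt 0 0 * (hk S y * vt (-S) y) := fun y => by
      simp only [rh]; ring
    simp_rw [this]
    rw [integral_const_mul, div_mul_eq_mul_div, ← he, div_self hw.ne']

/-- [VLC] -/
theorem VLC (hGRAD : T_GRAD) (hVLA : T_VLA) : T_VLC := by
  intro N cc cg C hcc hcg hC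
  have hcg0 : 0 < cg := hcc.trans hcg
  obtain ⟨A, hA, -, hmom⟩ := hGRAD N
  have hq : cc / cg < 1 := (div_lt_one hcg0).2 hcg
  set r1 : ℝ := cc ^ 2 / cg with hr1
  have hr10 : 0 < r1 := by rw [hr1]; positivity
  have hr1c : r1 < cc := by
    rw [hr1, div_lt_iff₀ hcg0, sq]
    exact mul_lt_mul_of_pos_left hcg hcc
  set r0 : ℝ := (r1 + cc) / 2 with hr0d
  have hr0 : 0 < r0 := by rw [hr0d]; positivity
  have hr0c : r0 < cc := by rw [hr0d]; linarith
  have hr01 : r1 < r0 := by rw [hr0d]; linarith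
  obtain ⟨ζ, hζ0, hζ1, hζa, hζb⟩ : ∃ ζ > 0, ζ < 1 ∧ cc ^ 2 / cg ≤ (1 - ζ) * r0 ∧
      cc ≤ (1 - ζ) * (2 * cg - cc) := by
    have h1 : 0 < 2 * cg - cc := by linarith
    have h2 : r1 / r0 < 1 := (div_lt_one hr0).2 hr01
    have h3 : cc / (2 * cg - cc) < 1 := (div_lt_one h1).2 (by linarith)
    refine ⟨min (1 / 2) (min (1 - r1 / r0) (1 - cc / (2 * cg - cc))),
      lt_min (by norm_num) (lt_min (by linarith) (by linarith)),
      (min_le_left _ _).trans_lt (by norm_num), ?_, ?_⟩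
    · have h4 : min (1 / 2) (min (1 - r1 / r0) (1 - cc / (2 * cg - cc))) ≤ 1 - r1 / r0 :=
        (min_le_right _ _).trans (min_le_left _ _)
      have h5 : r1 / r0 ≤ 1 - min (1 / 2) (min (1 - r1 / r0) (1 - cc / (2 * cg - cc))) := by
        linarith
      rwa [div_le_iff₀ hr0] at h5
    · have h4 : min (1 / 2) (min (1 - r1 / r0) (1 - cc / (2 * cg - cc))) ≤
          1 - cc / (2 * cg - cc) := (min_le_right _ _).trans (min_le_right _ _)
      have h5 : cc / (2 * cg - cc) ≤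
          1 - min (1 / 2) (min (1 - r1 / r0) (1 - cc / (2 * cg - cc))) := by linarith
      rwa [div_le_iff₀ h1] at h5
  set B : ℝ := 4 * C / cc ^ 2 * ζ ^ (-(Module.finrank ℝ (E N) : ℝ) / 2) * (A / √ζ) with hB
  have hB0 : 0 ≤ B := by rw [hB]; positivity
  have hq1 : 0 < 1 - cc / cg := by linarith
  set ε1 : ℝ := min ((cc - r0) / 2) (cc ^ 2 / 4 * (1 - cc / cg) / (2 * (cc ^ 2 / 4 / cg + cc / 2)))
    with hε1
  have hε10 : 0 < ε1 := by
    rw [hε1]
    refine lt_min (by linarith) (by positivity)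
  have hε1a : ε1 ≤ (cc - r0) / 2 := min_le_left _ _
  have hε1b : ε1 * (cc ^ 2 / 4 / cg + cc / 2) ≤ cc ^ 2 / 4 * (1 - cc / cg) / 2 := by
    have h1 : ε1 ≤ cc ^ 2 / 4 * (1 - cc / cg) / (2 * (cc ^ 2 / 4 / cg + cc / 2)) :=
      min_le_right _ _
    rw [le_div_iff₀ (by positivity)] at h1
    linarith
  set S : ℝ := (B / ε1) ^ 2 + 1 with hSd
  have hS : 0 < S := by rw [hSd]; positivity
  have hBS : B * √S ≤ ε1 * S := by
    have h1 : B / ε1 ≤ √S := Real.le_sqrt_of_sq_le (by rw [hSd]; linarith)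
    rw [div_le_iff₀ hε10] at h1
    calc B * √S ≤ √S * ε1 * √S := mul_le_mul_of_nonneg_right h1 (Real.sqrt_nonneg _)
      _ = ε1 * (√S * √S) := by ring
      _ = ε1 * S := by rw [Real.mul_self_sqrt hS.le]
  clear_value S B ε1
  set CS : ℝ := 4 * C / cc ^ 2 * Real.exp (cc ^ 2 / 4 * S) *
      ∫ y, hk S y * (Real.exp (Dv N cc cg S y) *
        (Dv N cc cg S y ^ 2 * Real.exp |Dv N cc cg S y|)) with hCS
  have hCS0 : 0 ≤ CS := by
    rw [hCS]
    refine mul_nonneg (by positivity) (integral_nonneg fun y => ?_)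
    have := hk_nonneg hS.le y
    positivity
  clear_value CS
  set d1 : ℝ := cc ^ 2 / 4 * (1 - cc / cg) * S / 2 with hd1
  have hd10 : 0 < d1 := by rw [hd1]; positivity
  set θ : ℝ := min (1 / 2) (d1 / (2 * (CS + 1))) with hθ
  have hθ0 : 0 < θ := by rw [hθ]; positivity
  have hθ1 : θ ≤ 1 / 2 := min_le_left _ _
  have hθ2 : θ * (CS + 1) ≤ d1 / 2 := by
    have h1 : θ ≤ d1 / (2 * (CS + 1)) := min_le_right _ _
    rw [le_div_iff₀ (by positivity)] at h1
    linarith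
  set γ : ℝ := min (1 / 2) (θ * d1 / 2) with hγ
  have hγ0 : 0 < γ := by rw [hγ]; positivity
  have hγ1 : γ ≤ 1 / 2 := min_le_left _ _
  have hγ2 : γ ≤ θ * d1 / 2 := min_le_right _ _
  refine ⟨S, θ, γ, ((cc - r0) / 4) ^ 2, hS, hθ0, by linarith, hγ0, by linarith,
    pow_pos (by linarith) 2, ?_⟩
  intro v vt hv hg
  have hvla := hVLA N cc cg C v vt hcc hcg hv hg S hS.le
  have hdat := dat_of hcc hcg hC hS hv hvla
  have hv0 := hdat.v00
  have hw0 := hdat.w00
  have hτ0 := hdat.tail (r0 := r0) hζ0 hmom (fun y hy => by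
    obtain ⟨t1, t2⟩ := tail_exp hcc hcg hS hζ1 hζa hζb hy (norm_nonneg y)
    rcases le_total ‖y‖ (cg * S) with h1 | h1
    · have h2 : v (-S) y / v 0 0 ≤ Real.exp (-(cc ^ 2 / 4 * (S - ‖y‖ / cg))) := by
        rw [div_le_iff₀ hv0, mul_comm]; exact (hvla y).1 h1
      calc Real.exp (cc ^ 2 / 4 * S) * (v (-S) y / v 0 0) ≤
          Real.exp (cc ^ 2 / 4 * S) * Real.exp (-(cc ^ 2 / 4 * (S - ‖y‖ / cg))) :=
            mul_le_mul_of_nonneg_left h2 (Real.exp_pos _).le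
        _ ≤ _ := by rw [← Real.exp_add]; exact Real.exp_le_exp.2 (t1 h1)
    · have h2 : v (-S) y / v 0 0 ≤ Real.exp (cc / 2 * (‖y‖ - cg * S)) := by
        rw [div_le_iff₀ hv0, mul_comm]; exact (hvla y).2 h1
      calc Real.exp (cc ^ 2 / 4 * S) * (v (-S) y / v 0 0) ≤
          Real.exp (cc ^ 2 / 4 * S) * Real.exp (cc / 2 * (‖y‖ - cg * S)) :=
            mul_le_mul_of_nonneg_left h2 (Real.exp_pos _).le
        _ ≤ _ := by rw [← Real.exp_add]; exact Real.exp_le_exp.2 (t2 h1))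
  rw [← hB] at hτ0
  have hτ := hτ0.trans hBS
  have hmn := hdat.mean_norm hr0 hτ
  have hmD := hdat.mean_D hr0 (by linarith) hτ
  have hVθ : ∀ y, v (-S) y ^ θ ≤ v 0 0 ^ θ * Real.exp (θ * Dv N cc cg S y) := fun y => by
    refine (Real.rpow_le_rpow (hdat.Vp y).le (hdat.Vb y) hθ0.le).trans (le_of_eq ?_)
    rw [Real.mul_rpow hv0.le (Real.exp_pos _).le, ← Real.exp_mul, mul_comm (Dv N cc cg S y) θ]
  have hVθm : Measurable (fun y => v (-S) y ^ θ) := hdat.Vm.pow_const θ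
  have hVθb : GB (fun y => v (-S) y ^ θ) := by
    refine ((GB.const (v 0 0 ^ θ)).mul (hdat.GBexptD hθ0.le (by linarith))).mono fun y => ?_
    rw [abs_of_nonneg (Real.rpow_nonneg (hdat.Vp y).le θ)]
    exact (hVθ y).trans (le_abs_self _)
  refine ⟨?_, ?_, ?_, ?_⟩
  · refine ((hdat.GBW.mul hVθb).int (hdat.Wm.mul hVθm) hS).congr (ae_of_all _ fun y => ?_)
    simp only; ring
  · -- decay of the power
    have e1 : Real.exp (cc ^ 2 / 4 * S) * (∫ y, hk S y * vt (-S) y * v (-S) y ^ θ) =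
        vt 0 0 * ∫ y, rh N cc S (vt 0 0) (vt (-S)) y * v (-S) y ^ θ := by
      rw [← integral_const_mul, ← integral_const_mul]
      congr 1; funext y
      unfold rh
      field_simp
    have e2 : ∫ y, rh N cc S (vt 0 0) (vt (-S)) y * v (-S) y ^ θ ≤
        v 0 0 ^ θ * ∫ y, rh N cc S (vt 0 0) (vt (-S)) y * Real.exp (θ * Dv N cc cg S y) := by
      rw [← integral_const_mul]
      refine integral_mono (hdat.rh_int hVθm hVθb)
        ((hdat.rh_int (Real.measurable_exp.comp (Dv_meas.const_mul θ))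
          (hdat.GBexptD hθ0.le (by linarith))).const_mul _) fun y => ?_
      have h1 := mul_le_mul_of_nonneg_left (hVθ y) (hdat.rh_nonneg y)
      refine h1.trans (le_of_eq ?_)
      ring
    have e3 := hdat.mean_exp hθ0.le (by linarith)
    have e4 := hdat.mean_sq
    rw [← hCS] at e4
    have e5 : ∫ y, rh N cc S (vt 0 0) (vt (-S)) y * Dv N cc cg S y ≤ -d1 := by
      refine hmD.trans ?_
      have h1 : cc ^ 2 / 4 / cg * r0 ≤ cc ^ 2 / 4 * (cc / cg) := by
        have : cc ^ 2 / 4 / cg * r0 ≤ cc ^ 2 / 4 / cg * cc :=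
          mul_le_mul_of_nonneg_left hr0c.le (by positivity)
        refine this.trans (le_of_eq (by ring))
      have h2 := mul_le_mul_of_nonneg_right h1 hS.le
      have h3 := mul_le_mul_of_nonneg_right hε1b hS.le
      rw [hd1]
      linarith
    have e6 : ∫ y, rh N cc S (vt 0 0) (vt (-S)) y * Real.exp (θ * Dv N cc cg S y) ≤ 1 - γ := by
      have h1 := mul_le_mul_of_nonneg_left e5 hθ0.le
      have h2 := mul_le_mul_of_nonneg_left e4 (sq_nonneg θ)
      have h3 : θ ^ 2 * CS ≤ θ * (d1 / 2) := by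
        calc θ ^ 2 * CS ≤ θ * (θ * (CS + 1)) := by
              have : 0 ≤ θ ^ 2 := sq_nonneg θ
              linarith
          _ ≤ _ := mul_le_mul_of_nonneg_left hθ2 hθ0.le
      linarith
    rw [e1]
    have h1 : 0 ≤ v 0 0 ^ θ := Real.rpow_nonneg hv0.le θ
    have h2 := e2.trans (mul_le_mul_of_nonneg_left e6 h1)
    calc _ ≤ vt 0 0 * (v 0 0 ^ θ * (1 - γ)) := mul_le_mul_of_nonneg_left h2 hw0.le
      _ = _ := by ring
  · refine ((hdat.GBW.mul (GB.norm.mul GB.norm)).int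
      (hdat.Wm.mul (measurable_norm.mul measurable_norm)) hS).congr (ae_of_all _ fun y => ?_)
    simp only; ring
  · intro m e he hm
    have h1 : ‖m‖ ≤ ∫ y, rh N cc S (vt 0 0) (vt (-S)) y * ‖y‖ := by
      rw [hm]
      refine (norm_integral_le_integral_norm _).trans (le_of_eq ?_)
      congr 1; funext y
      rw [norm_smul, Real.norm_of_nonneg]
      · rfl
      · exact hdat.rh_nonneg y
    have h2 : ‖m‖ ≤ (cc + r0) / 2 * S := by
      refine (h1.trans hmn).trans ?_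
      have := mul_le_mul_of_nonneg_right hε1a hS.le
      linarith
    have h3 : -‖m‖ ≤ inner ℝ m e := by
      have := abs_real_inner_le_norm m e
      rw [he, mul_one] at this
      exact (abs_le.1 this).1
    have h4 : ((cc - r0) / 4) ^ 2 * S ≤ (cc * S - ‖m‖) ^ 2 / (4 * S) := by
      rw [le_div_iff₀ (by positivity)]
      have h5 : ((cc - r0) / 2 * S) ^ 2 ≤ (cc * S - ‖m‖) ^ 2 :=
        pow_le_pow_left₀ (mul_nonneg (by linarith) hS.le) (by linarith) 2
      refine le_trans (le_of_eq ?_) h5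
      ring
    have h5 : (cc * S - ‖m‖) ^ 2 / (4 * S) =
        -(cc ^ 2 / 4 * S) + ‖m‖ ^ 2 / (4 * S) + cc / 2 * (-‖m‖ + cc * S) := by
      field_simp; ring
    have h6 : cc / 2 * (-‖m‖ + cc * S) ≤ cc / 2 * (inner ℝ m e + cc * S) :=
      mul_le_mul_of_nonneg_left (by linarith) (by positivity)
    linarith

end Pool.Agent.H81.RF.VL
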